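import Pool.Agent.Q37.Dim.Section

/-!
# Regular sequences from dimensions, over an arbitrary field
-/

set_option autoImplicit false
set_option linter.unusedSectionVars false

open MvPolynomial

namespace Q37.Dim

open Pool.Agent.TH144.MB

lemma td_base_le {K L : Type} [Field K] [Field L] [Algebra K L] {A B : Type} [CommRing A]
    [CommRing B] [IsDomain B] [Nontrivial A] [Algebra K A] [Algebra L B] [Algebra K B]
    [IsScalarTower K L B] [Algebra.FiniteType K A] [Algebra.FiniteType L B] (f : A →ₐ[K] B)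
    (hf : Algebra.adjoin L (Set.range f) = ⊤) : td L B ≤ td K A := by
  have halg : Algebra.IsAlgebraic (Algebra.adjoin L (Set.range f)) B := by
    rw [hf]
    exact ⟨fun x => isAlgebraic_algebraMap (⟨x, Algebra.mem_top⟩ : (⊤ : Subalgebra L B))⟩
  obtain ⟨t, ht, hb⟩ := exists_isTranscendenceBasis_subset (R := L) (Set.range f)
  have hcard : Cardinal.mk t = ((td L B : ℕ) : Cardinal) := by
    rw [td_cast]
    simpa using hb.lift_cardinalMk_eq_trdeg
  obtain ⟨e⟩ := Cardinal.eq.1 (hcard.trans (Cardinal.mk_fin _).symm)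
  have hx := hb.1.comp (e.symm : Fin (td L B) → t) e.symm.injective
  choose a ha using fun i => ht (e.symm i).2
  have hx' : AlgebraicIndependent L (f ∘ a) := by
    have : f ∘ a = (fun x : t => (x : B)) ∘ e.symm := funext fun i => ha i
    rw [this]; exact hx
  have h2 : AlgebraicIndependent K (f ∘ a) :=
    hx'.restrictScalars (algebraMap K L).injective
  exact le_td_of_algebraicIndependent (h2.of_comp f)

section

variable {K L : Type} [Field K] [Field L] [Algebra K L] {σ : Type}

/-- extension of scalars -/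
noncomputable abbrev bc (K L σ : Type) [Field K] [Field L] [Algebra K L] :
    MvPolynomial σ K →+* MvPolynomial σ L := MvPolynomial.map (algebraMap K L)

attribute [local instance] MvPolynomial.algebraMvPolynomial in
lemma mem_of_bc_mem {I : Ideal (MvPolynomial σ K)} {x : MvPolynomial σ K}
    (h : bc K L σ x ∈ I.map (bc K L σ)) : x ∈ I := by
  let e := Algebra.IsPushout.equiv K (MvPolynomial σ K) L (MvPolynomial σ L)
  have : Module.Free (MvPolynomial σ K) (MvPolynomial σ L) :=
    Module.Free.of_equiv e.toLinearEquiv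
  have h1 := Ideal.comap_map_eq_self_of_faithfullyFlat (B := MvPolynomial σ L) I
  rw [← h1]
  exact h

lemma nz_of_bc {I : Ideal (MvPolynomial σ K)} {f : MvPolynomial σ K}
    (h : NZ (bc K L σ f) (I.map (bc K L σ))) : NZ f I := by
  intro p hp
  apply mem_of_bc_mem (L := L)
  apply h
  rw [← map_mul]
  exact Ideal.mem_map_of_mem _ hp

lemma reg_of_bc (fs : List (MvPolynomial σ K)) : ∀ I : Ideal (MvPolynomial σ K),
    Reg (I.map (bc K L σ)) (fs.map (bc K L σ)) → Reg I fs := by
  induction fs with
  | nil => intro I _; trivial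
  | cons f fs ih =>
    intro I h
    rw [List.map_cons] at h
    refine ⟨nz_of_bc h.1, ih _ ?_⟩
    have h2 := h.2
    rwa [← Set.image_singleton, ← Ideal.map_span, ← Ideal.map_sup] at h2

lemma dm_base_le [Finite σ] (P : Ideal (MvPolynomial σ L)) [P.IsPrime] :
    dm P ≤ dm (P.comap (bc K L σ)) := by
  let f : (MvPolynomial σ K ⧸ P.comap (bc K L σ)) →ₐ[K] (MvPolynomial σ L ⧸ P) :=
    Ideal.quotientMapₐ P (MvPolynomial.mapAlgHom (Algebra.ofId K L)) le_rfl
  refine td_base_le f ?_
  rw [eq_top_iff]
  rintro a -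
  obtain ⟨p, rfl⟩ := Ideal.Quotient.mk_surjective a
  induction p using MvPolynomial.induction_on with
  | C x => exact Subalgebra.algebraMap_mem (Algebra.adjoin L (Set.range f)) x
  | add f g hf hg => rw [map_add]; exact Subalgebra.add_mem _ hf hg
  | mul_X q i hq =>
    rw [map_mul]
    refine Subalgebra.mul_mem _ hq (Algebra.subset_adjoin ⟨Ideal.Quotient.mk _ (X i), ?_⟩)
    change Ideal.Quotient.mk P (MvPolynomial.map _ (X i)) = _
    rw [map_X]

end

section

variable {K : Type} [Field K] {σ : Type} [Fintype σ]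

/-- **Regular sequences from dimensions**, arbitrary field. -/
theorem reg_of_dim' (fs : List (MvPolynomial σ K))
    (hfs : ∀ f ∈ fs, ∃ d, 0 < d ∧ f.IsHomogeneous d)
    (hd : ∀ P : Ideal (MvPolynomial σ K), P.IsPrime → (∀ f ∈ fs, f ∈ P) →
      dm P + fs.length ≤ Fintype.card σ) : Reg (⊥ : Ideal (MvPolynomial σ K)) fs := by
  apply reg_of_bc (L := AlgebraicClosure K)
  rw [Ideal.map_bot]
  apply reg_of_dim
  · intro f hf
    obtain ⟨g, hg, rfl⟩ := List.mem_map.1 hf
    obtain ⟨d, hd0, hd⟩ := hfs g hg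
    exact ⟨d, hd0, hd.map _⟩
  · intro P hP hle
    rw [List.length_map]
    have h1 := dm_base_le (K := K) P
    have h2 := hd (P.comap (bc K (AlgebraicClosure K) σ)) (Ideal.comap_isPrime _ _)
      fun f hf => hle _ (List.mem_map_of_mem hf)
    omega

lemma ext_eq (fs : List (MvPolynomial σ K)) : ∀ (I : Ideal (MvPolynomial σ K)),
    Pool.Agent.TH144.MB.ext I fs = I ⊔ Ideal.span {g | g ∈ fs} := by
  induction fs with
  | nil => intro I; simp [Pool.Agent.TH144.MB.ext]
  | cons f fs ih =>
    intro I
    rw [Pool.Agent.TH144.MB.ext, ih, sup_assoc, ← Ideal.span_union]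
    congr 2
    ext g
    simp

/-- **Nonzerodivisors from dimensions**, arbitrary field. -/
theorem nz_of_dim' (fs : List (MvPolynomial σ K)) (h : MvPolynomial σ K)
    (hfs : ∀ f ∈ fs, ∃ d, 0 < d ∧ f.IsHomogeneous d) {e : ℕ} (he : 0 < e) (hh : h.IsHomogeneous e)
    (hd : ∀ P : Ideal (MvPolynomial σ K), P.IsPrime → (∀ f ∈ fs, f ∈ P) → h ∈ P →
      dm P + fs.length + 1 ≤ Fintype.card σ) : NZ h (Ideal.span {f | f ∈ fs}) := by
  have h1 := reg_of_dim' (fs ++ [h]) (by
    intro f hf
    rw [List.mem_append, List.mem_singleton] at hf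
    rcases hf with hf | rfl
    · exact hfs f hf
    · exact ⟨e, he, hh⟩) (by
    intro P hP hle
    have := hd P hP (fun f hf => hle f (by simp [hf])) (hle h (by simp))
    simp only [List.length_append, List.length_singleton]
    omega)
  rw [reg_append] at h1
  have h2 := h1.2.1
  rwa [ext_eq, bot_sup_eq] at h2

end

end Q37.Dim
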