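import Mathlib

/-!
# Transcendence degrees of finitely generated domains

`td K A` is the transcendence degree as a natural number. Main results: strict monotonicity for
quotients (`td_quotient_lt`), and the principal ideal theorem in the form
`td A ≤ td (A ⧸ Q) + 1` for a minimal prime `Q` of a principal ideal (`td_le_of_minimal`).
-/

set_option autoImplicit false

open MvPolynomial Cardinal

namespace Q37.Dim

variable {K : Type} [Field K]

/-- the transcendence degree as a natural number -/
noncomputable def td (K A : Type) [Field K] [CommRing A] [Algebra K A] : ℕ :=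
  (Algebra.trdeg K A).toNat

section

variable {A B : Type} [CommRing A] [CommRing B] [Algebra K A] [Algebra K B]

lemma td_cast [Algebra.FiniteType K A] : ((td K A : ℕ) : Cardinal) = Algebra.trdeg K A :=
  Cardinal.cast_toNat_of_lt_aleph0 trdeg_lt_aleph0_of_finiteType

lemma td_le_of_le {n : ℕ} (h : Algebra.trdeg K A ≤ n) : td K A ≤ n := by
  have := Cardinal.toNat_le_toNat h (Cardinal.natCast_lt_aleph0)
  simpa [td] using this

lemma td_le_of_injective [Algebra.FiniteType K B] (f : A →ₐ[K] B) (hf : Function.Injective f) :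
    td K A ≤ td K B :=
  td_le_of_le (by rw [td_cast]; exact trdeg_le_of_injective f hf)

lemma td_le_of_surjective [Algebra.FiniteType K A] (f : A →ₐ[K] B) (hf : Function.Surjective f) :
    td K B ≤ td K A :=
  td_le_of_le (by rw [td_cast]; exact trdeg_le_of_surjective f hf)

lemma td_congr (e : A ≃ₐ[K] B) : td K A = td K B := by
  rw [td, td, e.trdeg_eq]

lemma le_td_of_algebraicIndependent [Nontrivial A] [Algebra.FiniteType K A] {n : ℕ} {x : Fin n → A}
    (hx : AlgebraicIndependent K x) : n ≤ td K A := by
  have h := hx.lift_cardinalMk_le_trdeg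
  rw [← td_cast] at h
  simpa using h

end

/-- f.g. domains: `td` is the number of variables of a Noether normalization -/
lemma td_eq_of_integral {A : Type} [CommRing A] [IsDomain A] [Algebra K A]
    {s : ℕ} (g : MvPolynomial (Fin s) K →ₐ[K] A) (hg1 : Function.Injective g)
    (hg2 : g.IsIntegral) : td K A = s := by
  have hai : AlgebraicIndependent K (fun i => g (X i)) := by
    have : aeval (fun i => g (X i)) = g := by
      ext i; simp
    rw [AlgebraicIndependent, this]
    exact hg1
  have hb : IsTranscendenceBasis K (fun i => g (X i)) := by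
    rw [hai.isTranscendenceBasis_iff_isAlgebraic]
    refine ⟨fun x => ?_⟩
    obtain ⟨p, hp1, hp2⟩ := hg2 x
    have hr : ∀ q : MvPolynomial (Fin s) K,
        g q ∈ Algebra.adjoin K (Set.range fun i => g (X i)) := by
      intro q
      have h1 : g q = aeval (fun i => g (X i)) q := by
        have : aeval (fun i => g (X i)) = g := by
          ext i; simp
        rw [this]
      rw [h1, ← aeval_range]
      exact ⟨q, rfl⟩
    let g' : MvPolynomial (Fin s) K →ₐ[K] Algebra.adjoin K (Set.range fun i => g (X i)) :=
      g.codRestrict _ hr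
    refine ⟨p.map g'.toRingHom, (hp1.map _).ne_zero, ?_⟩
    rw [Polynomial.aeval_def, Polynomial.eval₂_map]
    exact hp2
  have := hb.lift_cardinalMk_eq_trdeg
  simp only [mk_fin, lift_uzero] at this
  rw [td, ← this, toNat_natCast]

/-- a nonzero nonunit polynomial lowers the transcendence degree by at most one -/
lemma td_mvPolynomial_quotient {s : ℕ} {f : MvPolynomial (Fin s) K} (hf : f ≠ 0)
    (hu : ¬ IsUnit f) : s ≤ td K (MvPolynomial (Fin s) K ⧸ Ideal.span {f}) + 1 := by
  classical
  have hne : Ideal.span {f} ≠ ⊤ := fun h => hu (Ideal.span_singleton_eq_top.1 h)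
  have : Nontrivial (MvPolynomial (Fin s) K ⧸ Ideal.span {f}) :=
    Ideal.Quotient.nontrivial_iff.mpr hne
  -- some variable occurs in `f`
  obtain ⟨i, hi⟩ : ∃ i, 0 < f.degreeOf i := by
    by_contra hcon
    push Not at hcon
    apply hu
    have h1 : f.vars = ∅ := by
      rw [Finset.eq_empty_iff_forall_notMem]
      intro i hi
      have h2 := hcon i
      rw [vars_def, Multiset.mem_toFinset] at hi
      have := Multiset.count_pos.2 hi
      rw [degreeOf_def] at h2
      omega
    rw [vars_eq_empty_iff_eq_C] at h1
    have hc : f.coeff 0 ≠ 0 := by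
      intro h0
      rw [h0, C_0] at h1
      exact hf h1
    rw [h1]
    exact (isUnit_iff_ne_zero.2 hc).map C
  obtain ⟨m, rfl⟩ : ∃ m, s = m + 1 := ⟨s - 1, by have := i.2; omega⟩
  have hx : AlgebraicIndependent K
      (fun j : Fin m => (Ideal.Quotient.mk (Ideal.span {f}) (X (i.succAbove j)) :
        MvPolynomial (Fin (m + 1)) K ⧸ Ideal.span {f})) := by
    rw [algebraicIndependent_iff]
    intro p hp
    have h1 : (aeval fun j : Fin m => (Ideal.Quotient.mk (Ideal.span {f}) (X (i.succAbove j)) :
        MvPolynomial (Fin (m + 1)) K ⧸ Ideal.span {f})) p =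
        Ideal.Quotient.mk (Ideal.span {f}) (rename i.succAbove p) := by
      have : ((Ideal.Quotient.mkₐ K (Ideal.span {f})).comp (rename i.succAbove)) =
        (aeval fun j : Fin m => (Ideal.Quotient.mk (Ideal.span {f}) (X (i.succAbove j)) :
        MvPolynomial (Fin (m + 1)) K ⧸ Ideal.span {f})) := by
        ext j; simp
      rw [← this]; rfl
    rw [h1, Ideal.Quotient.eq_zero_iff_mem, Ideal.mem_span_singleton] at hp
    obtain ⟨q, hq⟩ := hp
    by_contra hne0
    have hr : rename i.succAbove p ≠ 0 := fun h =>
      hne0 (rename_injective _ Fin.succAbove_right_injective (by rw [h, map_zero]))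
    have hq0 : q ≠ 0 := by rintro rfl; rw [mul_zero] at hq; exact hr hq
    have h2 : (rename i.succAbove p).degreeOf i = 0 := by
      by_contra h3
      have h4 : i ∈ (rename i.succAbove p).vars := by
        rw [vars_def, Multiset.mem_toFinset]
        exact Multiset.count_pos.1 (by rw [← degreeOf_def]; omega)
      have h5 := vars_rename i.succAbove p h4
      obtain ⟨j, -, hj⟩ := Finset.mem_image.1 h5
      exact Fin.succAbove_ne i j hj
    rw [hq, degreeOf_mul_eq hf hq0] at h2
    omega
  have := le_td_of_algebraicIndependent hx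
  omega

section main

variable {A : Type} [CommRing A] [IsDomain A] [Algebra K A] [Algebra.FiniteType K A]

/-- **Principal ideal theorem**: cutting with one equation lowers the transcendence degree by at
most one. -/
theorem td_le_of_minimal {a : A} (Q : Ideal A) (hQ : Q ∈ (Ideal.span {a}).minimalPrimes) :
    td K A ≤ td K (A ⧸ Q) + 1 := by
  have hQp : Q.IsPrime := hQ.1.1
  have hnoeth : IsNoetherianRing A := Algebra.FiniteType.isNoetherianRing K A
  obtain ⟨s, g, hg1, hg2⟩ := exists_integral_inj_algHom_of_fg K A
  have hs := td_eq_of_integral g hg1 hg2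
  by_cases ha : Q = ⊥
  · subst ha
    have : td K A = td K (A ⧸ (⊥ : Ideal A)) := td_congr (AlgEquiv.quotientBot K A).symm
    omega
  let : Algebra (MvPolynomial (Fin s) K) A := g.toRingHom.toAlgebra
  have : IsScalarTower K (MvPolynomial (Fin s) K) A := IsScalarTower.of_algebraMap_eq fun x => by
    exact (g.commutes x).symm
  have : Algebra.IsIntegral (MvPolynomial (Fin s) K) A := ⟨hg2⟩
  have : FaithfulSMul (MvPolynomial (Fin s) K) A :=
    (faithfulSMul_iff_algebraMap_injective _ _).2 hg1
  have hheight : Q.height ≤ 1 :=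
    Ideal.height_le_one_of_isPrincipal_of_mem_minimalPrimes (Ideal.span {a}) Q hQ
  set q : Ideal (MvPolynomial (Fin s) K) := Q.under (MvPolynomial (Fin s) K) with hq
  have hqp : q.IsPrime := inferInstance
  have hq0 : q ≠ ⊥ := by
    intro h
    exact ha (Ideal.eq_bot_of_comap_eq_bot (R := MvPolynomial (Fin s) K) h)
  -- `q` has height one
  have hqh : q.height = 1 := by
    apply le_antisymm
    · refine (Ideal.height_le_iff (n := 1)).2 ?_
      intro q' hq' hlt
      obtain ⟨P', hP'lt, hP'p, hP'o⟩ :=
        Ideal.exists_ideal_lt_liesOver_of_lt (p := q') (q := q) Q hlt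
      have h1 := Ideal.height_add_one_le_of_lt_of_isPrime hP'lt
      have h2 : P'.height = 0 := by
        have h3 : P'.height + 1 ≤ 1 := h1.trans hheight
        have h4 : P'.height ≤ 0 := by
          have h5 : P'.height + 1 ≤ 0 + 1 := by simpa using h3
          exact (ENat.add_le_add_iff_right (by simp)).1 h5
        exact le_antisymm h4 bot_le
      rw [Ideal.height_eq_zero_iff_eq_bot] at h2
      have h6 : q' = ⊥ := by
        rw [hP'o.over, h2]
        ext x
        rw [Ideal.under, Ideal.mem_comap, Ideal.mem_bot, Ideal.mem_bot]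
        exact (map_eq_zero_iff _ hg1)
      rw [h6, Ideal.height_bot]
      exact zero_lt_one
    · rw [Order.one_le_iff_ne_zero]
      intro h
      rw [Ideal.height_eq_zero_iff_eq_bot] at h
      exact hq0 h
  obtain ⟨f, hf⟩ := (UniqueFactorizationMonoid.isPrincipal_of_height_eq_one hqh).principal
  have hf' : q = Ideal.span {f} := hf
  have hf0 : f ≠ 0 := by
    rintro rfl
    apply hq0
    rw [hf']; simp
  have hfu : ¬ IsUnit f := fun h => hqp.ne_top (by rw [hf']; exact Ideal.span_singleton_eq_top.2 h)
  have h1 := td_mvPolynomial_quotient hf0 hfu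
  -- the quotient embeds
  have hcomap : Ideal.comap g.toRingHom Q = Ideal.span {f} := hf'
  let φ : (MvPolynomial (Fin s) K ⧸ Ideal.span {f}) →ₐ[K] A ⧸ Q :=
    Ideal.quotientMapₐ Q g hcomap.ge
  have hφ : Function.Injective φ :=
    Ideal.quotientMap_injective' (H := hcomap.ge) hcomap.le
  have h2 := td_le_of_injective φ hφ
  omega

/-- strict monotonicity -/
theorem td_quotient_lt (Q : Ideal A) [Q.IsPrime] (hQ : Q ≠ ⊥) : td K (A ⧸ Q) + 1 ≤ td K A := by
  obtain ⟨t, b, hb⟩ : ∃ (t : ℕ) (b : Fin t → A ⧸ Q), t = td K (A ⧸ Q) ∧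
      AlgebraicIndependent K b := by
    obtain ⟨s, g, hg1, hg2⟩ := exists_integral_inj_algHom_of_fg K (A ⧸ Q)
    have hs := td_eq_of_integral g hg1 hg2
    refine ⟨s, fun i => g (X i), hs.symm, ?_⟩
    have : aeval (fun i => g (X i)) = g := by
      ext i; simp
    rw [AlgebraicIndependent, this]
    exact hg1
  obtain ⟨rfl, hb⟩ := hb
  choose a ha using fun i => Ideal.Quotient.mk_surjective (b i)
  have hab : (fun i => Ideal.Quotient.mkₐ K Q (a i)) = b := funext ha
  have hainj : ∀ p : MvPolynomial (Fin (td K (A ⧸ Q))) K, aeval a p ∈ Q → p = 0 := by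
    intro p hp
    have h1 : aeval b p = 0 := by
      rw [← hab]
      have : aeval (fun i => Ideal.Quotient.mkₐ K Q (a i)) p =
          Ideal.Quotient.mkₐ K Q (aeval a p) := by
        rw [← comp_aeval_apply]
      rw [this]
      exact Ideal.Quotient.eq_zero_iff_mem.2 hp
    exact (injective_iff_map_eq_zero _).1 hb p h1
  have haind : AlgebraicIndependent K a := by
    rw [algebraicIndependent_iff]
    intro p hp
    exact hainj p (by rw [hp]; exact Q.zero_mem)
  obtain ⟨q, hq, hq0⟩ := Q.ne_bot_iff.1 hQ
  have htr : Transcendental (Algebra.adjoin K (Set.range a)) q := by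
    intro halg
    obtain ⟨P, hP0, hP⟩ := halg.exists_nonzero_coeff_and_aeval_eq_zero
      (mem_nonZeroDivisors_of_ne_zero hq0)
    have h1 : (algebraMap (Algebra.adjoin K (Set.range a)) A) (P.coeff 0) ∈ Q := by
      have h2 := Polynomial.aeval_eq_sum_range (p := P) q
      rw [hP, Finset.sum_range_succ'] at h2
      simp only [pow_zero, Algebra.smul_def, mul_one] at h2
      have h3 : (algebraMap (Algebra.adjoin K (Set.range a)) A) (P.coeff 0) =
          - ∑ x ∈ Finset.range P.natDegree,
            (algebraMap (Algebra.adjoin K (Set.range a)) A) (P.coeff (x + 1)) * q ^ (x + 1) := by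
        rw [eq_neg_iff_add_eq_zero, add_comm]
        exact h2.symm
      rw [h3]
      refine Q.neg_mem (Q.sum_mem fun x _ => Q.mul_mem_left _ ?_)
      exact Q.pow_mem_of_mem hq _ (Nat.succ_pos x)
    apply hP0
    have h4 : ((P.coeff 0 : Algebra.adjoin K (Set.range a)) : A) ∈
        (aeval a : MvPolynomial _ K →ₐ[K] A).range := by
      rw [← Algebra.adjoin_range_eq_range_aeval]
      exact (P.coeff 0).2
    obtain ⟨p, hp⟩ := h4
    have h5 : aeval a p ∈ Q := by
      have : aeval a p = ((P.coeff 0 : Algebra.adjoin K (Set.range a)) : A) := hp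
      rw [this]; exact h1
    have h6 := hainj p h5
    rw [h6] at hp
    apply Subtype.ext
    rw [← hp]
    simp
  have hopt : AlgebraicIndependent K (fun o : Option (Fin (td K (A ⧸ Q))) => o.elim q a) := by
    rw [AlgebraicIndependent.option_iff]
    exact ⟨haind, htr⟩
  have h := hopt.lift_cardinalMk_le_trdeg
  rw [← td_cast] at h
  simpa using h

end main

end Q37.Dim
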