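import Pool.Agent.Q37.Dim.Criterion

/-!
# Complete intersections
-/

set_option autoImplicit false
set_option linter.unusedSectionVars false

open MvPolynomial

namespace Q37.Dim

open Pool.Agent.TH144.MB RingTheory.Sequence

/-- complete intersections: ideals generated by a regular sequence -/
def IsCI {S : Type} [CommRing S] (L : Ideal S) : Prop :=
  ∃ rs : List S, IsRegular S rs ∧ Ideal.ofList rs = L

lemma weak_iff {S : Type} [CommRing S] (rs : List S) : IsWeaklyRegular S rs ↔
    ∀ i (h : i < rs.length), ∀ x, rs[i] * x ∈ Ideal.ofList (rs.take i) →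
      x ∈ Ideal.ofList (rs.take i) := by
  constructor
  · rintro ⟨h⟩ i hi x hx
    have h1 := h i hi
    rw [isSMulRegular_quotient_iff_mem_of_smul_mem] at h1
    have h2 := h1 x
    rw [smul_eq_mul, Ideal.mul_top, smul_eq_mul] at h2
    exact h2 hx
  · intro h
    refine ⟨fun i hi => ?_⟩
    rw [isSMulRegular_quotient_iff_mem_of_smul_mem]
    intro x
    rw [smul_eq_mul, Ideal.mul_top, smul_eq_mul]
    exact h i hi x

section

variable {K : Type} [Field K] {σ : Type} [Fintype σ]

lemma reg_take (fs : List (MvPolynomial σ K)) : ∀ (I : Ideal (MvPolynomial σ K)), Reg I fs →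
    ∀ i (h : i < fs.length), ∀ x, fs[i] * x ∈ I ⊔ Ideal.ofList (fs.take i) →
      x ∈ I ⊔ Ideal.ofList (fs.take i) := by
  induction fs with
  | nil => intro I _ i h; exact absurd h (Nat.not_lt_zero _)
  | cons f fs ih =>
    intro I hI i hi x hx
    rcases i with _ | i
    · simp only [List.take_zero, Ideal.ofList_nil, sup_bot_eq, List.getElem_cons_zero] at hx ⊢
      exact hI.1 _ hx
    · simp only [List.take_succ_cons, Ideal.ofList_cons, List.getElem_cons_succ,
        ← sup_assoc] at hx ⊢
      exact ih _ hI.2 i (by simpa using hi) x hx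

theorem isCI_of_reg (fs : List (MvPolynomial σ K)) (h : Reg (⊥ : Ideal (MvPolynomial σ K)) fs)
    (hne : Ideal.ofList fs ≠ ⊤) : IsCI (Ideal.ofList fs) := by
  refine ⟨fs, ⟨(weak_iff fs).2 fun i hi x hx => ?_, ?_⟩, rfl⟩
  · have := reg_take fs ⊥ h i hi x
    rw [bot_sup_eq] at this
    exact this hx
  · rw [smul_eq_mul, Ideal.mul_top]
    exact hne.symm

theorem isCI_of_db {I : Type} [Fintype I] (f : I → MvPolynomial σ K)
    (hf : ∀ i, ∃ d, 0 < d ∧ (f i).IsHomogeneous d) (h : DB f) :
    IsCI (Ideal.span (Set.range f)) := by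
  have h1 : Ideal.ofList ((Finset.univ : Finset I).toList.map f) = Ideal.span (Set.range f) := by
    rw [Ideal.ofList, mem_toList_map]
  rw [← h1]
  apply isCI_of_reg
  · refine reg_of_dim' _ ?_ ?_
    · intro g hg
      obtain ⟨i, -, rfl⟩ := List.mem_map.1 hg
      exact hf i
    · intro P hP hle
      rw [List.length_map, Finset.length_toList, Finset.card_univ]
      exact h P hP fun i => hle _ (List.mem_map_of_mem (by simp))
  · rw [h1]
    intro htop
    have h2 : Ideal.span (Set.range f) ≤ irr K σ := by
      rw [Ideal.span_le]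
      rintro _ ⟨i, rfl⟩
      obtain ⟨d, hd0, hd⟩ := hf i
      change f i ∈ irr K σ
      rw [irr, RingHom.mem_ker]
      exact hd.coeff_eq_zero (by simp; omega)
    rw [htop] at h2
    exact (Ideal.IsPrime.ne_top (inferInstance : (irr K σ).IsPrime)) (top_le_iff.1 h2)

/-- primes containing a regular sequence -/
theorem dm_add_length_le {rs : List (MvPolynomial σ K)}
    (h : IsWeaklyRegular (MvPolynomial σ K) rs)
    (P : Ideal (MvPolynomial σ K)) [P.IsPrime] (hP : Ideal.ofList rs ≤ P) :
    dm P + rs.length ≤ Fintype.card σ := by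
  rw [weak_iff] at h
  suffices h1 : ∀ i ≤ rs.length, ∀ P : Ideal (MvPolynomial σ K), P.IsPrime →
      Ideal.ofList (rs.take i) ≤ P → dm P + i ≤ Fintype.card σ by
    refine h1 rs.length le_rfl P inferInstance ?_
    rwa [List.take_length]
  intro i
  induction i with
  | zero =>
    intro _ P _ _
    rw [add_zero, ← Nat.card_eq_fintype_card]
    exact dm_le_card P
  | succ i ih =>
    intro hi P hPp hle
    have h2 : Ideal.ofList (rs.take (i + 1)) =
        Ideal.ofList (rs.take i) ⊔ Ideal.span {rs[i]'hi} := by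
      rw [List.take_succ_eq_append_getElem hi, Ideal.ofList_append, Ideal.ofList_singleton]
    rw [h2] at hle
    obtain ⟨Q, hQ, hQP⟩ := Ideal.exists_minimalPrimes_le (le_sup_left.trans hle)
    have hQp : Q.IsPrime := hQ.1.1
    have h3 : rs[i]'hi ∉ Q := by
      intro hmem
      obtain ⟨y, hy, hxy⟩ := Ideal.exists_mul_mem_of_mem_minimalPrimes hQ hmem
      exact hy (h i hi y hxy)
    have h4 : Q < P := by
      refine lt_of_le_of_ne hQP ?_
      rintro rfl
      exact h3 (hle (Ideal.mem_sup_right (Ideal.mem_span_singleton_self _)))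
    have h5 := dm_lt_of_lt h4
    have h6 := ih (Nat.le_of_succ_le hi) Q hQp hQ.1.2
    omega

/-- a lower bound for the number of generators -/
theorem card_le_length {I : Type} [Fintype I] (L : Ideal (MvPolynomial σ K))
    (φ : MvPolynomial σ K →ₗ[K] (I → K)) (hφ : ∀ h : MvPolynomial σ K, ∀ x ∈ L,
      φ (h * x) = constantCoeff h • φ x) (hs : ∀ v : I → K, ∃ x ∈ L, φ x = v)
    {rs : List (MvPolynomial σ K)} (hrs : Ideal.ofList rs = L) :
    Fintype.card I ≤ rs.length := by
  classical
  have h1 : Submodule.span K (Set.range fun i : Fin rs.length => φ rs[i]) = ⊤ := by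
    rw [eq_top_iff]
    rintro v -
    obtain ⟨x, hx, rfl⟩ := hs v
    have h2 : x ∈ Submodule.span (MvPolynomial σ K) {r | r ∈ rs} := by
      rw [← hrs] at hx; exact hx
    have h3 : ∀ r ∈ rs, r ∈ L := fun r hr => by
      rw [← hrs]; exact Ideal.subset_span hr
    clear hx
    induction h2 using Submodule.span_induction with
    | mem r hr =>
      obtain ⟨i, hi, rfl⟩ := List.getElem_of_mem hr
      exact Submodule.subset_span ⟨⟨i, hi⟩, rfl⟩
    | zero => rw [map_zero]; exact Submodule.zero_mem _
    | add x y _ _ hx hy => rw [map_add]; exact Submodule.add_mem _ hx hy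
    | smul a x hx' hx =>
      have hxL : x ∈ L := by rw [← hrs]; exact hx'
      rw [smul_eq_mul, hφ a x hxL]
      exact Submodule.smul_mem _ _ hx
  have h2 := finrank_range_le_card (R := K) fun i : Fin rs.length => φ rs[i]
  rw [Set.finrank, h1, finrank_top, Module.finrank_fintype_fun_eq_card, Fintype.card_fin] at h2
  exact h2

end

end Q37.Dim
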