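import Pool.Agent.Q37.Dim.Transport

/-!
# Bounding dimensions by elimination

`dm_le_card_of_closure`: if every subalgebra containing the prime `P` and the variables in `G`, and
closed under division modulo `P`, contains all variables, then `dm P ≤ #G`.
-/

set_option autoImplicit false
set_option linter.unusedSectionVars false

open MvPolynomial

namespace Q37.Dim

/-- subalgebras containing `P` and closed under division modulo `P` -/
structure DivClosed {K : Type} [Field K] {σ : Type} (P : Ideal (MvPolynomial σ K))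
    (C : Subalgebra K (MvPolynomial σ K)) : Prop where
  le : ∀ f ∈ P, f ∈ C
  div : ∀ a b f, a ∈ C → b ∈ C → a ∉ P → a * f - b ∈ P → f ∈ C

section

variable {K : Type} [Field K] {σ : Type} [Finite σ]

lemma DivClosed.of_mem {P : Ideal (MvPolynomial σ K)} {C : Subalgebra K (MvPolynomial σ K)}
    (h : DivClosed P C) {a f : MvPolynomial σ K} (ha : a ∈ C) (haP : a ∉ P) (haf : a * f ∈ C) :
    f ∈ C :=
  h.div a (a * f) f ha haf haP (by rw [sub_self]; exact P.zero_mem)

lemma DivClosed.of_sub_mem {P : Ideal (MvPolynomial σ K)} {C : Subalgebra K (MvPolynomial σ K)}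
    (h : DivClosed P C) {f g : MvPolynomial σ K} (hg : g ∈ C) (hfg : f - g ∈ P) :
    f ∈ C := by
  have := C.add_mem (h.le _ hfg) hg
  rwa [sub_add_cancel] at this

theorem dm_le_card_of_closure (P : Ideal (MvPolynomial σ K)) [P.IsPrime] (G : Finset σ)
    (h : ∀ C : Subalgebra K (MvPolynomial σ K), DivClosed P C → (∀ x ∈ G, X x ∈ C) →
      ∀ x, X x ∈ C) : dm P ≤ G.card := by
  classical
  set A := MvPolynomial σ K ⧸ P with hA
  let S : Finset A := G.image fun x => Ideal.Quotient.mk P (X x)
  let D := Algebra.adjoin K (S : Set A)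
  -- the closure
  let C : Subalgebra K (MvPolynomial σ K) :=
    { carrier := {f | IsAlgebraic D (Ideal.Quotient.mk P f)}
      mul_mem' := by
        intro a b ha hb
        rw [Set.mem_ofPred_eq, map_mul]
        exact IsAlgebraic.mul ha hb
      add_mem' := by
        intro a b ha hb
        rw [Set.mem_ofPred_eq, map_add]
        exact IsAlgebraic.add ha hb
      algebraMap_mem' := by
        intro r
        rw [Set.mem_ofPred_eq]
        exact isAlgebraic_algebraMap (R := D) (A := A) (algebraMap K D r) }
  have hC : ∀ f, f ∈ C ↔ IsAlgebraic D (Ideal.Quotient.mk P f) := fun f => Iff.rfl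
  have h1 : ∀ x, X x ∈ C := by
    refine h C ⟨?_, ?_⟩ ?_
    · intro f hf
      rw [hC, Ideal.Quotient.eq_zero_iff_mem.2 hf]
      exact isAlgebraic_zero
    · intro a b f ha hb haP hab
      rw [hC] at ha hb ⊢
      have h2 : Ideal.Quotient.mk P a * Ideal.Quotient.mk P f = Ideal.Quotient.mk P b := by
        rw [← map_mul]; exact Ideal.Quotient.eq.2 hab
      rw [← h2] at hb
      refine IsAlgebraic.of_mul ?_ ha hb
      exact mem_nonZeroDivisors_of_ne_zero fun h3 => haP (Ideal.Quotient.eq_zero_iff_mem.1 h3)
    · intro x hx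
      rw [hC]
      exact isAlgebraic_algebraMap (R := D) (A := A)
        ⟨_, Algebra.subset_adjoin (Finset.mem_coe.2 (Finset.mem_image_of_mem _ hx))⟩
  have h2 : ∀ f, f ∈ C := by
    intro f
    induction f using MvPolynomial.induction_on with
    | C a => exact C.algebraMap_mem a
    | add f g hf hg => exact C.add_mem hf hg
    | mul_X f x hf => exact C.mul_mem hf (h1 x)
  have halg : Algebra.IsAlgebraic D A := ⟨fun a => by
    obtain ⟨f, rfl⟩ := Ideal.Quotient.mk_surjective a
    exact h2 f⟩
  have h3 : Algebra.trdeg K A ≤ S.card := by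
    have := Algebra.IsAlgebraic.trdeg_le_cardinalMk K (S : Set A)
    simpa using this
  have h4 : td K A ≤ S.card := td_le_of_le h3
  exact h4.trans Finset.card_image_le

end

section dual

variable {K ι τ s : Type} [Field K] [Fintype ι] [Fintype τ] [Fintype s]

/-- **Dual criterion.** -/
theorem prime_of_linear_dual (M : Matrix s ι (MvPolynomial τ K)) (e : s → ℕ)
    (hM : ∀ k j, (M k j).IsHomogeneous (e k))
    (h : ∀ P : Ideal (MvPolynomial (s ⊕ τ) K), P.IsPrime →
      (∀ j, ∑ k, incl K s τ (M k j) * X (Sum.inl k) ∈ P) → (∃ k, X (Sum.inl k) ∉ P) →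
      dm P + 1 ≤ Fintype.card τ) :
    (Ideal.span (Set.range (lf M))).IsPrime := by
  classical
  -- the stratification bound
  have hst : ∀ p : Ideal (MvPolynomial τ K), p.IsPrime → ∀ ρ < Fintype.card s,
      ¬ Mi M p (ρ + 1) → dm p + Fintype.card s + 1 ≤ Fintype.card τ + ρ := by
    intro p hp ρ hρ hmi
    have hmi' : ¬ Mi M.transpose p (ρ + 1) := by
      rintro ⟨r, c, hrc⟩
      refine hmi ⟨c, r, ?_⟩
      rw [← Matrix.det_transpose]
      exact hrc
    obtain ⟨P, hP, hdn, hlf, hd⟩ := exists_prime_of_not_Mi p M.transpose hmi'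
    have h1 : ∃ k, X (Sum.inl k) ∉ P := by
      by_contra hcon
      push Not at hcon
      have h2 := dm_le_comap_rename (Sum.inr : τ → s ⊕ τ) P (by
        rintro (k | t)
        · exact Or.inr (hcon k)
        · exact Or.inl ⟨t, rfl⟩)
      have h3 : P.comap (rename (Sum.inr : τ → s ⊕ τ) : MvPolynomial τ K →ₐ[K] _) = p := by
        rw [← hdn]; rfl
      rw [h3] at h2
      omega
    have h2 := h P hP (fun j => hlf j) h1
    omega
  rcases Nat.eq_zero_or_pos (Fintype.card s) with hs | hs
  · have : IsEmpty s := Fintype.card_eq_zero_iff.1 hs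
    rw [Set.range_eq_empty, Ideal.span_empty]
    exact Ideal.isPrime_bot
  -- the empty base
  let f : Empty → MvPolynomial τ K := fun i => i.elim
  have hf : Ideal.span (Set.range f) = ⊥ := by rw [Set.range_eq_empty, Ideal.span_empty]
  have hdb : DB f := by
    intro P _ _
    rw [Fintype.card_eq_zero, add_zero, ← Nat.card_eq_fintype_card]
    exact dm_le_card P
  have hMi : Mi M (Ideal.span (Set.range f)) (Fintype.card s) := by
    by_contra hcon
    rw [hf] at hcon
    have h1 := hst ⊥ Ideal.isPrime_bot (Fintype.card s - 1) (by omega)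
      (by rwa [Nat.sub_add_cancel hs])
    rw [dm_bot, Nat.card_eq_fintype_card] at h1
    omega
  have hmain := prime_of_linear f M (fun i => i.elim) e hM (by rw [hf]; exact Ideal.isPrime_bot)
    hdb hMi (by
      intro p hp _ ρ hρ hmi
      have := hst p hp ρ hρ hmi
      rw [Fintype.card_eq_zero (α := Empty)]
      omega)
  have h1 : Set.range (jn f M) = Set.range (lf M) := by
    rw [jn, Set.Sum.elim_range, Set.range_eq_empty, Set.empty_union]
  rwa [h1] at hmain

end dual

end Q37.Dim
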