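import Pool.Agent.Q37.Dim.Exist
import Pool.Agent.Q37.Dim.Base

/-!
# A primality criterion for systems of linear equations
-/

set_option autoImplicit false
set_option linter.unusedSectionVars false

open MvPolynomial

namespace Q37.Dim

open Pool.Agent.TH144.MB

/-- all primes containing the family have at least the expected codimension -/
def DB {K I σ : Type} [Field K] [Fintype I] [Fintype σ] (f : I → MvPolynomial σ K) : Prop :=
  ∀ P : Ideal (MvPolynomial σ K), P.IsPrime → (∀ i, f i ∈ P) →
    dm P + Fintype.card I ≤ Fintype.card σ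

section

variable {K I σ : Type} [Field K] [Fintype I] [Fintype σ]

lemma mem_toList_map (f : I → MvPolynomial σ K) :
    {g | g ∈ (Finset.univ : Finset I).toList.map f} = Set.range f := by
  ext g
  simp

theorem nz_of_family (f : I → MvPolynomial σ K) (hf : ∀ i, ∃ d, 0 < d ∧ (f i).IsHomogeneous d)
    (h : MvPolynomial σ K) {e : ℕ} (he : 0 < e) (hh : h.IsHomogeneous e)
    (hd : ∀ P : Ideal (MvPolynomial σ K), P.IsPrime → (∀ i, f i ∈ P) → h ∈ P →
      dm P + Fintype.card I + 1 ≤ Fintype.card σ) : NZ h (Ideal.span (Set.range f)) := by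
  rw [← mem_toList_map]
  refine nz_of_dim' _ h ?_ he hh ?_
  · intro g hg
    obtain ⟨i, -, rfl⟩ := List.mem_map.1 hg
    exact hf i
  · intro P hP hle hhP
    rw [List.length_map, Finset.length_toList, Finset.card_univ]
    exact hd P hP (fun i => hle _ (List.mem_map_of_mem (by simp))) hhP

end

section

variable {K I ι τ s : Type} [Field K] [Fintype I] [Fintype ι] [Fintype τ] [Fintype s]

/-- the joint family -/
noncomputable def jn (f : I → MvPolynomial τ K) (M : Matrix s ι (MvPolynomial τ K)) :
    I ⊕ s → MvPolynomial (ι ⊕ τ) K :=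
  Sum.elim (fun i => incl K ι τ (f i)) (lf M)

lemma incl_hom {f : MvPolynomial τ K} {d : ℕ} (h : f.IsHomogeneous d) :
    (incl K ι τ f).IsHomogeneous d := h.rename_isHomogeneous

lemma lf_hom {M : Matrix s ι (MvPolynomial τ K)} {k : s} {e : ℕ}
    (h : ∀ j, (M k j).IsHomogeneous e) : (lf M k).IsHomogeneous (e + 1) := by
  rw [lf]
  exact IsHomogeneous.sum _ _ _ fun j _ => (incl_hom (h j)).mul (isHomogeneous_X _ _)

lemma det_hom {M : Matrix s ι (MvPolynomial τ K)} {e : s → ℕ}
    (h : ∀ k j, (M k j).IsHomogeneous (e k)) {ρ : ℕ} (r : Fin ρ → s) (c : Fin ρ → ι) :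
    (M.submatrix r c).det.IsHomogeneous (∑ i, e (r i)) := by
  rw [Matrix.det_apply']
  refine IsHomogeneous.sum _ _ _ fun g _ => ?_
  have h1 : (∏ i, M.submatrix r c (g i) i).IsHomogeneous (∑ i, e (r (g i))) :=
    IsHomogeneous.prod _ _ _ fun i _ => h _ _
  rw [Equiv.sum_comp g (fun i => e (r i))] at h1
  have h2 : ((Equiv.Perm.sign g : ℤ) : MvPolynomial τ K).IsHomogeneous 0 := by
    rw [show (((Equiv.Perm.sign g : ℤˣ) : ℤ) : MvPolynomial τ K) =
      C (((Equiv.Perm.sign g : ℤˣ) : ℤ) : K) by simp]
    exact isHomogeneous_C _ _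
  have := h2.mul h1
  rwa [zero_add] at this

/-- upper bound for the dimension of the joint system -/
theorem db_of_linear (f : I → MvPolynomial τ K) (M : Matrix s ι (MvPolynomial τ K))
    (hdb : DB f)
    (hst : ∀ p : Ideal (MvPolynomial τ K), p.IsPrime → (∀ i, f i ∈ p) → ∀ ρ < Fintype.card s,
      ¬ Mi M p (ρ + 1) → dm p + Fintype.card s + Fintype.card I ≤ Fintype.card τ + ρ) :
    DB (jn f M) := by
  intro P hP hle
  have hlf : ∀ k, lf M k ∈ P := fun k => hle (Sum.inr k)
  have hf : ∀ i, f i ∈ dn P := fun i => hle (Sum.inl i)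
  obtain ⟨ρ, hρ, h1, h2⟩ := exists_max_Mi (M := M) (p := dn P)
    (Ideal.IsPrime.ne_top inferInstance) (Fintype.card s)
  have h3 := dm_le_of_minor M hlf h1
  rw [Fintype.card_sum, Fintype.card_sum]
  rcases Nat.lt_or_ge ρ (Fintype.card s) with h4 | h4
  · have h5 := hst (dn P) inferInstance hf ρ h4 (h2.resolve_left h4.ne)
    omega
  · have h5 := hdb (dn P) inferInstance hf
    omega

/-- the generic solution -/
lemma exists_generic {T κ : Type} [CommRing T] [Field κ] [DecidableEq ι] (φ : T →+* κ)
    (M : Matrix s ι T) {ρ : ℕ} (r : Fin ρ → s) (c : Fin ρ → ι) (hr : Function.Surjective r)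
    (hc : Function.Injective c) (hδ : φ (M.submatrix r c).det ≠ 0) :
    ∃ y : ι → MvPolynomial (free c) κ, (∀ j : free c, y j = X j) ∧
      ∀ k, ∑ j, C (φ (M k j)) * y j = 0 := by
  let B : Matrix (Fin ρ) (Fin ρ) κ := (M.submatrix r c).map φ
  have hB : B.det = φ (M.submatrix r c).det := (RingHom.map_det _ _).symm
  have hBu : IsUnit B.det := by rw [hB]; exact isUnit_iff_ne_zero.2 hδ
  let w : Fin ρ → MvPolynomial (free c) κ := fun i =>
    ∑ j : free c, C (φ (M (r i) j)) * X j
  let y : ι → MvPolynomial (free c) κ := Function.extend c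
    (fun i => - ∑ l, C (B⁻¹ i l) * w l) (fun j => if h : j ∈ free c then X ⟨j, h⟩ else 0)
  have hy1 : ∀ i, y (c i) = - ∑ l, C (B⁻¹ i l) * w l := fun i => hc.extend_apply _ _ i
  have hy2 : ∀ j : free c, y j = X j := by
    intro j
    have h1 : ¬ ∃ i, c i = j := by
      rintro ⟨i, hi⟩
      exact mem_free.1 j.2 i hi
    have h2 := Function.extend_apply' (fun i => - ∑ l, C (B⁻¹ i l) * w l)
      (fun j => if h : j ∈ free c then (X ⟨j, h⟩ : MvPolynomial (free c) κ) else 0) (j : ι) h1
    rw [dif_pos j.2] at h2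
    exact h2
  refine ⟨y, hy2, ?_⟩
  intro k
  obtain ⟨k, rfl⟩ := hr k
  rw [sum_split hc, ← Finset.sum_coe_sort (free c)]
  have h1 : ∑ j : free c, C (φ (M (r k) j)) * y j = w k :=
    Finset.sum_congr rfl fun j _ => by rw [hy2]
  rw [h1]
  have h2 : ∑ i, C (φ (M (r k) (c i))) * y (c i) = - w k := by
    have h0 : ∀ i, C (φ (M (r k) (c i))) * y (c i) =
        - ∑ l, C (φ (M (r k) (c i))) * (C (B⁻¹ i l) * w l) := fun i => by
      rw [hy1, mul_neg, Finset.mul_sum]
    rw [Finset.sum_congr rfl fun i _ => h0 i, Finset.sum_neg_distrib, Finset.sum_comm]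
    have h3 : ∀ l, ∑ i, C (φ (M (r k) (c i))) * (C (B⁻¹ i l) * w l) =
        if k = l then w l else 0 := by
      intro l
      have h4 : ∑ i, C (φ (M (r k) (c i))) * (C (B⁻¹ i l) * w l) =
          C ((B * B⁻¹) k l) * w l := by
        rw [Matrix.mul_apply, map_sum, Finset.sum_mul]
        refine Finset.sum_congr rfl fun i _ => ?_
        rw [C_mul, mul_assoc]; rfl
      rw [h4, Matrix.mul_nonsing_inv B hBu, Matrix.one_apply]
      split_ifs <;> simp
    rw [Finset.sum_congr rfl fun l _ => h3 l]
    simp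
  rw [h2, neg_add_cancel]

/-- the kernel of the generic solution -/
theorem prime_of_nz_aux {κ : Type} [Field κ] (φ : MvPolynomial τ K →+* κ)
    (M : Matrix s ι (MvPolynomial τ K)) (L : Ideal (MvPolynomial (ι ⊕ τ) K))
    (hL0 : (RingHom.ker φ).map (incl K ι τ) ≤ L) (hL : ∀ k, lf M k ∈ L)
    (hL' : L ≤ (RingHom.ker φ).map (incl K ι τ) ⊔ Ideal.span (Set.range (lf M)))
    {ρ : ℕ} (r : Fin ρ → s) (c : Fin ρ → ι) (hr : Function.Surjective r)
    (hrc : φ (M.submatrix r c).det ≠ 0)
    (hnz : NZ (incl K ι τ (M.submatrix r c).det) L) : L.IsPrime := by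
  classical
  set δ := (M.submatrix r c).det with hδ
  have hc : Function.Injective c := injective_of_det_ne (M := M) (r := r) fun h => hrc (by
    rw [hδ, h, map_zero])
  obtain ⟨y, hy2, hy⟩ := exists_generic φ M r c hr hc hrc
  let ψ : MvPolynomial (ι ⊕ τ) K →+* MvPolynomial (free c) κ :=
    eval₂Hom ((C : κ →+* _).comp (φ.comp C)) (Sum.elim y fun t => C (φ (X t)))
  have hψincl : ψ.comp (incl K ι τ) = (C : κ →+* _).comp φ := by
    apply MvPolynomial.ringHom_ext
    · intro x
      rw [RingHom.comp_apply, incl_C]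
      exact eval₂Hom_C _ _ _
    · intro t
      rw [RingHom.comp_apply, incl_X]
      exact eval₂Hom_X' _ _ _
  have hψ1 : ∀ a, ψ (incl K ι τ a) = C (φ a) := fun a => congrArg (fun g => g a) hψincl
  have hψ2 : ∀ j, ψ (X (Sum.inl j)) = y j := fun j => eval₂Hom_X' _ _ _
  have hLψ : L ≤ RingHom.ker ψ := by
    refine hL'.trans (sup_le ?_ ?_)
    · rw [Ideal.map_le_iff_le_comap]
      intro a ha
      rw [Ideal.mem_comap, RingHom.mem_ker, hψ1]
      rw [RingHom.mem_ker] at ha
      rw [ha, C_0]
    · rw [Ideal.span_le]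
      rintro _ ⟨k, rfl⟩
      rw [SetLike.mem_coe, RingHom.mem_ker, lf, map_sum, ← hy k]
      exact Finset.sum_congr rfl fun j _ => by rw [map_mul, hψ1, hψ2]
  let θ : MvPolynomial (free c ⊕ τ) K →+* MvPolynomial (ι ⊕ τ) K :=
    (rename (Sum.map Subtype.val id) : MvPolynomial (free c ⊕ τ) K →ₐ[K] _).toRingHom
  have hθincl : θ.comp (incl K (free c) τ) = incl K ι τ := by
    apply MvPolynomial.ringHom_ext
    · intro x
      rw [RingHom.comp_apply, incl_C, incl_C]
      exact rename_C _ _
    · intro t
      rw [RingHom.comp_apply, incl_X, incl_X]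
      exact rename_X _ _
  have hθ1 : ∀ a, θ (incl K (free c) τ a) = incl K ι τ a :=
    fun a => congrArg (fun g => g a) hθincl
  have hθ2 : ∀ j : free c, θ (X (Sum.inl j)) = X (Sum.inl (j : ι)) := fun j => rename_X _ _
  have hψθ : ψ.comp θ = (MvPolynomial.map φ).comp
      (sumAlgEquiv K (free c) τ).toRingEquiv.toRingHom := by
    apply MvPolynomial.ringHom_ext
    · intro x
      have h1 : (sumAlgEquiv K (free c) τ).toRingEquiv.toRingHom (C x) = C (C x) :=
        sumAlgEquiv_C_inl _ _ _ x
      rw [RingHom.comp_apply, RingHom.comp_apply, h1, map_C, ← hψ1, incl_C]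
      exact congrArg ψ (rename_C _ _)
    · intro v
      rw [RingHom.comp_apply, RingHom.comp_apply]
      rcases v with j | t
      · have h1 : (sumAlgEquiv K (free c) τ).toRingEquiv.toRingHom (X (Sum.inl j)) = X j :=
          sumAlgEquiv_X_inl _ _ _ j
        rw [h1, map_X, hθ2, hψ2, hy2]
      · have h1 : (sumAlgEquiv K (free c) τ).toRingEquiv.toRingHom (X (Sum.inr t)) = C (X t) :=
          sumAlgEquiv_X_inr _ _ _ t
        rw [h1, map_C, ← hψ1, incl_X]
        exact congrArg ψ (rename_X _ _)
  -- the reduction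
  have hred : ∀ a : MvPolynomial (ι ⊕ τ) K, ∃ (N : ℕ) (b : MvPolynomial (free c ⊕ τ) K),
      incl K ι τ δ ^ N * a - θ b ∈ L := by
    intro a
    induction a using MvPolynomial.induction_on with
    | C x =>
      refine ⟨0, C x, ?_⟩
      have : θ (C x) = C x := rename_C _ _
      rw [this, pow_zero, one_mul, sub_self]
      exact L.zero_mem
    | add f g hf hg =>
      obtain ⟨N1, b1, h1⟩ := hf
      obtain ⟨N2, b2, h2⟩ := hg
      refine ⟨N1 + N2, incl K (free c) τ δ ^ N2 * b1 + incl K (free c) τ δ ^ N1 * b2, ?_⟩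
      have h3 : incl K ι τ δ ^ (N1 + N2) * (f + g) -
          θ (incl K (free c) τ δ ^ N2 * b1 + incl K (free c) τ δ ^ N1 * b2) =
          incl K ι τ δ ^ N2 * (incl K ι τ δ ^ N1 * f - θ b1) +
          incl K ι τ δ ^ N1 * (incl K ι τ δ ^ N2 * g - θ b2) := by
        rw [map_add, map_mul, map_mul, map_pow, map_pow, hθ1]
        ring
      rw [h3]
      exact L.add_mem (L.mul_mem_left _ h1) (L.mul_mem_left _ h2)
    | mul_X f v hf =>
      obtain ⟨N1, b1, h1⟩ := hf
      -- the variable
      obtain ⟨N2, b2, h2⟩ : ∃ (N : ℕ) (b : MvPolynomial (free c ⊕ τ) K),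
          incl K ι τ δ ^ N * X v - θ b ∈ L := by
        rcases v with j | t
        · by_cases hj : j ∈ free c
          · refine ⟨0, X (Sum.inl ⟨j, hj⟩), ?_⟩
            rw [hθ2, pow_zero, one_mul, sub_self]
            exact L.zero_mem
          · rw [mem_free] at hj
            push Not at hj
            obtain ⟨i, rfl⟩ := hj
            refine ⟨1, - ∑ k, incl K (free c) τ ((M.submatrix r c).adjugate i k) *
              ∑ j : free c, incl K (free c) τ (M (r k) j) * X (Sum.inl j), ?_⟩
            have h3 := cramer_free (r := r) hc (M.map (incl K ι τ))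
              (fun j => X (Sum.inl j)) i
            have hsub : (M.map (incl K ι τ)).submatrix r c =
              (M.submatrix r c).map (incl K ι τ) := rfl
            have hdet : ((M.map (incl K ι τ)).submatrix r c).det = incl K ι τ δ := by
              rw [hsub]; exact (RingHom.map_det _ _).symm
            have hadj : ((M.map (incl K ι τ)).submatrix r c).adjugate =
                (M.submatrix r c).adjugate.map (incl K ι τ) := by
              rw [hsub]; exact (RingHom.map_adjugate _ _).symm
            rw [hdet, hadj] at h3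
            have h4 : θ (- ∑ k, incl K (free c) τ ((M.submatrix r c).adjugate i k) *
                ∑ j : free c, incl K (free c) τ (M (r k) j) * X (Sum.inl j)) =
                - ∑ k, (M.submatrix r c).adjugate.map (incl K ι τ) i k *
                  ∑ j ∈ free c, (M.map (incl K ι τ)) (r k) j * X (Sum.inl j) := by
              rw [map_neg, map_sum]
              congr 1
              refine Finset.sum_congr rfl fun k _ => ?_
              rw [map_mul, hθ1, map_sum, ← Finset.sum_coe_sort (free c)]
              congr 1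
              refine Finset.sum_congr rfl fun j _ => ?_
              rw [map_mul, hθ1, hθ2]
              rfl
            rw [h4, pow_one, h3, sub_neg_eq_add, sub_add_cancel]
            refine Ideal.sum_mem _ fun k _ => Ideal.mul_mem_left _ _ ?_
            exact hL (r k)
        · refine ⟨0, X (Sum.inr t), ?_⟩
          have : θ (X (Sum.inr t)) = X (Sum.inr t) := rename_X _ _
          rw [this, pow_zero, one_mul, sub_self]
          exact L.zero_mem
      refine ⟨N1 + N2, b1 * b2, ?_⟩
      have h3 : incl K ι τ δ ^ (N1 + N2) * (f * X v) - θ (b1 * b2) =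
          incl K ι τ δ ^ N2 * X v * (incl K ι τ δ ^ N1 * f - θ b1) +
          θ b1 * (incl K ι τ δ ^ N2 * X v - θ b2) := by
        rw [map_mul]
        ring
      rw [h3]
      exact L.add_mem (L.mul_mem_left _ h1) (L.mul_mem_left _ h2)
  have hker : RingHom.ker ψ ≤ L := by
    intro a ha
    obtain ⟨N, b, hb⟩ := hred a
    have h1 : ψ (θ b) = 0 := by
      have h2 := hLψ hb
      rw [RingHom.mem_ker, map_sub, map_mul, (RingHom.mem_ker).1 ha, mul_zero, zero_sub,
        neg_eq_zero] at h2
      exact h2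
    have h2 : b ∈ (RingHom.ker φ).map (incl K (free c) τ) := by
      rw [← ker_map_sum, ← hψθ]
      exact h1
    have h3 : θ b ∈ L := by
      apply hL0
      rw [← hθincl, ← Ideal.map_map]
      exact Ideal.mem_map_of_mem θ h2
    have h4 : incl K ι τ δ ^ N * a ∈ L := by
      have := L.add_mem hb h3
      rwa [sub_add_cancel] at this
    clear hb h1 h2 h3
    induction N with
    | zero => rwa [pow_zero, one_mul] at h4
    | succ n ih =>
      apply ih
      apply hnz
      rwa [pow_succ', mul_assoc] at h4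
  rw [le_antisymm hLψ hker]
  exact RingHom.ker_isPrime ψ

/-- the kernel of the generic solution -/
theorem prime_of_nz (L0 : Ideal (MvPolynomial τ K)) [L0.IsPrime]
    (M : Matrix s ι (MvPolynomial τ K)) (L : Ideal (MvPolynomial (ι ⊕ τ) K))
    (hL0 : L0.map (incl K ι τ) ≤ L) (hL : ∀ k, lf M k ∈ L)
    (hL' : L ≤ L0.map (incl K ι τ) ⊔ Ideal.span (Set.range (lf M)))
    {ρ : ℕ} (r : Fin ρ → s) (c : Fin ρ → ι) (hr : Function.Surjective r)
    (hrc : (M.submatrix r c).det ∉ L0)
    (hnz : NZ (incl K ι τ (M.submatrix r c).det) L) : L.IsPrime := by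
  have hφ : RingHom.ker ((algebraMap (MvPolynomial τ K ⧸ L0)
      (FractionRing (MvPolynomial τ K ⧸ L0))).comp (Ideal.Quotient.mk L0)) = L0 := by
    ext x
    rw [RingHom.mem_ker, RingHom.comp_apply, map_eq_zero_iff _
      (IsFractionRing.injective (MvPolynomial τ K ⧸ L0) _), Ideal.Quotient.eq_zero_iff_mem]
  refine prime_of_nz_aux _ M L (by rw [hφ]; exact hL0) hL (by rw [hφ]; exact hL') r c hr ?_ hnz
  intro h
  apply hrc
  rw [← hφ]
  exact h

/-- **Criterion.** -/
theorem prime_of_linear (f : I → MvPolynomial τ K) (M : Matrix s ι (MvPolynomial τ K))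
    (hf : ∀ i, ∃ d, 0 < d ∧ (f i).IsHomogeneous d) (e : s → ℕ)
    (hM : ∀ k j, (M k j).IsHomogeneous (e k))
    (h0 : (Ideal.span (Set.range f)).IsPrime) (hdb : DB f)
    (hMi : Mi M (Ideal.span (Set.range f)) (Fintype.card s))
    (hst : ∀ p : Ideal (MvPolynomial τ K), p.IsPrime → (∀ i, f i ∈ p) → ∀ ρ < Fintype.card s,
      ¬ Mi M p (ρ + 1) → dm p + Fintype.card s + Fintype.card I + 1 ≤ Fintype.card τ + ρ) :
    (Ideal.span (Set.range (jn f M))).IsPrime := by
  obtain ⟨r, c, hrc⟩ := hMi
  have hr : Function.Injective r := by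
    by_contra hcon
    rw [Function.Injective] at hcon
    push Not at hcon
    obtain ⟨i, j, hij, hne⟩ := hcon
    apply hrc
    rw [Matrix.det_zero_of_row_eq hne (by ext k; simp [hij])]
    exact Ideal.zero_mem _
  have hrs : Function.Surjective r :=
    ((Fintype.bijective_iff_injective_and_card r).2 ⟨hr, Fintype.card_fin _⟩).2
  have hspan : Ideal.span (Set.range (jn f M)) =
      (Ideal.span (Set.range f)).map (incl K ι τ) ⊔ Ideal.span (Set.range (lf M)) := by
    rw [Ideal.map_span, ← Ideal.span_union, ← Set.range_comp]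
    congr 1
    rw [jn, Set.Sum.elim_range]
    rfl
  refine prime_of_nz (Ideal.span (Set.range f)) M _ ?_ ?_ hspan.le r c hrs hrc ?_
  · rw [hspan]; exact le_sup_left
  · exact fun k => Ideal.subset_span ⟨Sum.inr k, rfl⟩
  · have hdeg := det_hom hM r c
    by_cases he : ∑ i, e (r i) = 0
    · -- a unit
      rw [he] at hdeg
      intro p hp
      have h1 : (M.submatrix r c).det.totalDegree = 0 := by
        by_contra hne
        exact hne (Nat.le_zero.1 hdeg.totalDegree_le)
      rw [totalDegree_eq_zero_iff_eq_C] at h1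
      have h2 : coeff 0 (M.submatrix r c).det ≠ 0 := by
        intro h2
        rw [h1, h2, C_0] at hrc
        exact hrc (Ideal.zero_mem _)
      rw [h1, incl_C] at hp
      have h3 := Ideal.mul_mem_left _ (C (coeff 0 (M.submatrix r c).det)⁻¹) hp
      rwa [← mul_assoc, ← C_mul, inv_mul_cancel₀ h2, C_1, one_mul] at h3
    · refine nz_of_family _ ?_ _ (Nat.pos_of_ne_zero he) (incl_hom hdeg) ?_
      · rintro (i | k)
        · obtain ⟨d, hd0, hd⟩ := hf i
          exact ⟨d, hd0, incl_hom hd⟩
        · exact ⟨e k + 1, Nat.succ_pos _, lf_hom (hM k)⟩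
      · intro P hP hle hδ
        have hlf : ∀ k, lf M k ∈ P := fun k => hle (Sum.inr k)
        have hf : ∀ i, f i ∈ dn P := fun i => hle (Sum.inl i)
        obtain ⟨ρ, hρ, h1, h2⟩ := exists_max_Mi (M := M) (p := dn P)
          (Ideal.IsPrime.ne_top inferInstance) (Fintype.card s)
        have h3 := dm_le_of_minor M hlf h1
        rw [Fintype.card_sum, Fintype.card_sum]
        rcases Nat.lt_or_ge ρ (Fintype.card s) with h4 | h4
        · have h5 := hst (dn P) inferInstance hf ρ h4 (h2.resolve_left h4.ne)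
          omega
        · have h5 := hdb (Ideal.span (Set.range f)) h0 fun i => Ideal.subset_span ⟨i, rfl⟩
          have h6 : Ideal.span (Set.range f) < dn P := by
            refine lt_of_le_of_ne ?_ ?_
            · rw [Ideal.span_le]
              rintro _ ⟨i, rfl⟩
              exact hf i
            · intro h
              apply hrc
              rw [h]
              exact hδ
          have h7 := dm_lt_of_lt h6
          omega

end

end Q37.Dim
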