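import Pool.Agent.Q37.Dim.Transport

/-!
# Degeneration to initial forms

For a prime `P` and positive weights there is a prime of at least the same dimension containing the
initial forms (of highest weight) of all elements of `P`.
-/

set_option autoImplicit false
set_option linter.unusedSectionVars false

open MvPolynomial

namespace Q37.Dim

section

variable {K : Type} [Field K] {A B : Type} [CommRing A] [IsDomain A] [CommRing B] [Algebra K A]
  [Algebra K B] [Algebra.FiniteType K A] [Algebra.FiniteType K B]

lemma td_le_of_generators (f : B →ₐ[K] A) (hinj : Function.Injective f) (g : Set A)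
    (hg : Algebra.adjoin K g = ⊤) (halg : ∀ x ∈ g, ∃ a b : B, f a ≠ 0 ∧ f a * x = f b) :
    td K A ≤ td K B := by
  let : Algebra B A := f.toRingHom.toAlgebra
  have hst : IsScalarTower K B A := IsScalarTower.of_algebraMap_eq fun x => (f.commutes x).symm
  have hinj' : Function.Injective (algebraMap B A) := hinj
  have : Nontrivial B := f.domain_nontrivial
  have h := td_tower_le (K := K) hinj' (∅ : Finset A) ?_
  · simpa using h
  constructor
  intro a
  rw [Finset.coe_empty]
  refine IsAlgebraic.adjoin_of_forall_isAlgebraic (s := g) (t := (∅ : Set A)) ?_ ?_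
  · rintro x ⟨hx, -⟩
    obtain ⟨u, v, hu, huv⟩ := halg x hx
    set D := Algebra.adjoin B (∅ : Set A) with hD
    refine ⟨Polynomial.C (algebraMap B D u) * Polynomial.X -
        Polynomial.C (algebraMap B D v), ?_, ?_⟩
    · intro h0
      have h5 := congrArg (Polynomial.coeff · 1) h0
      simp only [Polynomial.coeff_sub, Polynomial.coeff_C_mul, Polynomial.coeff_X_one, mul_one,
        Polynomial.coeff_C_succ, sub_zero, Polynomial.coeff_zero] at h5
      have h6 := congrArg (algebraMap D A) h5
      rw [map_zero, ← IsScalarTower.algebraMap_apply] at h6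
      exact hu h6
    · simp only [map_sub, map_mul, Polynomial.aeval_C, Polynomial.aeval_X]
      rw [← IsScalarTower.algebraMap_apply, ← IsScalarTower.algebraMap_apply, sub_eq_zero]
      exact huv
  · have : Algebra.adjoin B g = ⊤ := by
      rw [eq_top_iff]
      rintro x -
      have h1 : x ∈ Algebra.adjoin K g := by rw [hg]; exact Algebra.mem_top
      have h2 : Algebra.adjoin K g ≤ (Algebra.adjoin B g).restrictScalars K :=
        Algebra.adjoin_le Algebra.subset_adjoin
      exact h2 h1
    rw [this]
    exact isAlgebraic_algebraMap (⟨a, Algebra.mem_top⟩ : (⊤ : Subalgebra B A))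

end

section

variable {K : Type} [Field K] {σ : Type} [Finite σ]

/-- the map to the polynomial ring over the quotient -/
noncomputable def dg (k : σ → ℕ) (P : Ideal (MvPolynomial σ K)) :
    MvPolynomial (Option σ) K →ₐ[K] Polynomial (MvPolynomial σ K ⧸ P) :=
  aeval fun o : Option σ => Option.elim o Polynomial.X fun x =>
    Polynomial.X ^ k x * Polynomial.C (Ideal.Quotient.mk P (X x))

lemma dg_none (k : σ → ℕ) (P : Ideal (MvPolynomial σ K)) :
    dg k P (X none) = Polynomial.X := by
  rw [dg, aeval_X]; rfl

lemma dg_some (k : σ → ℕ) (P : Ideal (MvPolynomial σ K)) (x : σ) :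
    dg k P (X (some x)) = Polynomial.X ^ k x * Polynomial.C (Ideal.Quotient.mk P (X x)) := by
  rw [dg, aeval_X]; rfl

lemma pow_aux {R : Type} [CommRing R] (u a c : R) (k b w : ℕ) :
    (u ^ k * a) ^ b * (u ^ w * c) = u ^ (b * k + w) * (a ^ b * c) := by
  rw [mul_pow, ← pow_mul, pow_add, mul_comm k b]
  ring

lemma dg_monomial (k : σ → ℕ) (P : Ideal (MvPolynomial σ K)) (m : σ →₀ ℕ) (c : K) :
    dg k P (rename some (monomial m c)) = Polynomial.X ^ (Finsupp.weight k m) *
      Polynomial.C (Ideal.Quotient.mk P (monomial m c)) := by
  induction m using Finsupp.induction generalizing c with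
  | zero =>
    rw [map_zero, pow_zero, one_mul]
    have h1 : rename (some : σ → Option σ) (monomial 0 c) = C c := rename_C _ _
    rw [h1, dg, aeval_C]
    rfl
  | single_add x b m hx hb ih =>
    have h1 : (monomial (Finsupp.single x b + m) c : MvPolynomial σ K) =
        X x ^ b * monomial m c := by
      rw [X_pow_eq_monomial, monomial_mul, one_mul]
    rw [h1, map_mul, map_mul, map_pow, rename_X, map_pow, dg_some, ih, map_add,
      Finsupp.weight_single, map_mul, map_pow, map_mul, map_pow]
    exact pow_aux (R := Polynomial (MvPolynomial σ K ⧸ P)) _ _ _ _ _ _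

theorem exists_degeneration (P : Ideal (MvPolynomial σ K)) [P.IsPrime] (k : σ → ℕ)
    (hk : ∀ x, 0 < k x) : ∃ Q : Ideal (MvPolynomial σ K), Q.IsPrime ∧ Q ≤ irr K σ ∧
      dm P ≤ dm Q ∧ ∀ f ∈ P, ∀ W, (∀ m ∈ f.support, Finsupp.weight k m ≤ W) →
        weightedHomogeneousComponent k W f ∈ Q := by
  classical
  set T : Ideal (MvPolynomial (Option σ) K) := RingHom.ker (dg k P) with hT
  have hTp : T.IsPrime := RingHom.ker_isPrime _
  -- dimension of the total space
  have hfin : Algebra.FiniteType K (Polynomial (MvPolynomial σ K ⧸ P)) :=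
    Algebra.FiniteType.trans (S := MvPolynomial σ K ⧸ P) inferInstance inferInstance
  have h1 : dm P + 1 ≤ td K (Polynomial (MvPolynomial σ K ⧸ P)) := by
    refine td_tower_ge (K := K) (B := MvPolynomial σ K ⧸ P)
      (A := Polynomial (MvPolynomial σ K ⧸ P)) Polynomial.C_injective (n := 1)
      (x := fun _ => Polynomial.X) ?_
    rw [algebraicIndependent_unique_type_iff]
    exact Polynomial.transcendental_X _
  have h2 : td K (Polynomial (MvPolynomial σ K ⧸ P)) ≤ dm T := by
    refine td_le_of_generators (Ideal.kerLiftAlg (dg k P)) (Ideal.kerLiftAlg_injective _)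
      (insert Polynomial.X (Set.range fun x => Polynomial.C (Ideal.Quotient.mk P (X x)))) ?_ ?_
    · rw [eq_top_iff]
      rintro a -
      induction a using Polynomial.induction_on' with
      | add p q hp hq => exact Subalgebra.add_mem _ hp hq
      | monomial n a =>
        rw [← Polynomial.C_mul_X_pow_eq_monomial]
        refine Subalgebra.mul_mem _ ?_ (Subalgebra.pow_mem _
          (Algebra.subset_adjoin (Set.mem_insert _ _)) _)
        obtain ⟨f, rfl⟩ := Ideal.Quotient.mk_surjective a
        induction f using MvPolynomial.induction_on with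
        | C x =>
          exact Subalgebra.algebraMap_mem (Algebra.adjoin K (insert Polynomial.X
            (Set.range fun x => Polynomial.C (Ideal.Quotient.mk P (X x))))) x
        | add f g hf hg => rw [map_add, map_add]; exact Subalgebra.add_mem _ hf hg
        | mul_X f x hf =>
          rw [map_mul, map_mul]
          exact Subalgebra.mul_mem _ hf
            (Algebra.subset_adjoin (Set.mem_insert_of_mem _ ⟨x, rfl⟩))
    · rintro x (rfl | ⟨x, rfl⟩)
      · refine ⟨1, Ideal.Quotient.mk _ (X none), ?_, ?_⟩
        · rw [map_one]; exact one_ne_zero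
        · rw [map_one, one_mul]
          exact (dg_none k P).symm
      · refine ⟨Ideal.Quotient.mk _ (X none ^ k x), Ideal.Quotient.mk _ (X (some x)), ?_, ?_⟩
        · have : Ideal.kerLiftAlg (dg k P) (Ideal.Quotient.mk _ (X none ^ k x)) =
            Polynomial.X ^ k x := by
            change dg k P (X none ^ k x) = _
            rw [map_pow, dg_none]
          rw [this]
          exact pow_ne_zero _ Polynomial.X_ne_zero
        · change dg k P (X none ^ k x) * _ = dg k P (X (some x))
          rw [map_pow, dg_none, dg_some]
  -- the total space passes through the origin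
  have hirr : T ≤ irr K (Option σ) := by
    intro f hf
    rw [irr, RingHom.mem_ker]
    have h3 : ((Polynomial.aeval (0 : MvPolynomial σ K ⧸ P)).restrictScalars K).comp (dg k P) =
        aeval fun _ => 0 := by
      apply MvPolynomial.algHom_ext
      rintro (_ | x)
      · rw [AlgHom.comp_apply, dg_none, aeval_X]
        exact Polynomial.aeval_X _
      · rw [AlgHom.comp_apply, dg_some, aeval_X]
        change Polynomial.aeval (0 : MvPolynomial σ K ⧸ P) _ = 0
        rw [map_mul, map_pow, Polynomial.aeval_X, zero_pow (hk x).ne', zero_mul]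
    have h4 : (aeval fun _ => (0 : MvPolynomial σ K ⧸ P)) f = 0 := by
      rw [← h3, AlgHom.comp_apply, (RingHom.mem_ker).1 hf, map_zero]
    rw [aeval_zero'] at h4
    by_contra hne
    have h5 : (algebraMap K (MvPolynomial σ K ⧸ P)) (constantCoeff f) ≠ 0 := by
      intro h6
      rw [map_eq_zero] at h6
      exact hne h6
    exact h5 h4
  obtain ⟨Q, hQp, hTQ, hsQ, hQirr, hd⟩ := exists_prime_of_finset
    {(X none : MvPolynomial (Option σ) K)} T (irr K _) hirr (by
      intro x hx
      rw [Finset.mem_singleton] at hx
      rw [hx]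
      exact X_mem_irr _)
  have hX : (X none : MvPolynomial (Option σ) K) ∈ Q := hsQ _ (Finset.mem_singleton_self _)
  rw [Finset.card_singleton] at hd
  have h3 := dm_le_comap_rename (some : σ → Option σ) Q (by
    rintro (_ | x)
    · exact Or.inr hX
    · exact Or.inl ⟨x, rfl⟩)
  refine ⟨Q.comap (rename some : MvPolynomial σ K →ₐ[K] _), Ideal.comap_isPrime _ _, ?_, ?_, ?_⟩
  · intro f hf
    have h4 := hQirr hf
    rw [irr, RingHom.mem_ker] at h4 ⊢
    rwa [constantCoeff_rename] at h4
  · omega
  · intro f hf W hW
    rw [Ideal.mem_comap]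
    -- the homogenization
    set G : MvPolynomial (Option σ) K := ∑ m ∈ f.support,
      X none ^ (W - Finsupp.weight k m) * rename some (monomial m (coeff m f)) with hG
    have h4 : G ∈ Q := by
      apply hTQ
      rw [hT, RingHom.mem_ker, hG, map_sum]
      have h5 : ∀ m ∈ f.support, dg k P (X none ^ (W - Finsupp.weight k m) *
          rename some (monomial m (coeff m f))) =
          Polynomial.X ^ W * Polynomial.C (Ideal.Quotient.mk P (monomial m (coeff m f))) := by
        intro m hm
        rw [map_mul, map_pow, dg_none, dg_monomial, ← mul_assoc, ← pow_add,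
          Nat.sub_add_cancel (hW m hm)]
      rw [Finset.sum_congr rfl h5, ← Finset.mul_sum, ← map_sum, ← map_sum, ← as_sum f,
        Ideal.Quotient.eq_zero_iff_mem.2 hf, map_zero, mul_zero]
    have h5 : rename some (weightedHomogeneousComponent k W f) = G -
        ∑ m ∈ f.support with Finsupp.weight k m ≠ W,
          X none ^ (W - Finsupp.weight k m) * rename some (monomial m (coeff m f)) := by
      rw [hG, ← Finset.sum_filter_add_sum_filter_not f.support (fun m => Finsupp.weight k m = W),
        add_sub_cancel_right, weightedHomogeneousComponent_apply, map_sum]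
      refine Finset.sum_congr rfl fun m hm => ?_
      rw [Finset.mem_filter] at hm
      rw [hm.2, Nat.sub_self, pow_zero, one_mul]
    rw [h5]
    refine Q.sub_mem h4 (Ideal.sum_mem _ fun m hm => Ideal.mul_mem_right _ _ ?_)
    rw [Finset.mem_filter] at hm
    have h6 : 0 < W - Finsupp.weight k m := by
      have := hW m hm.1
      have := hm.2
      omega
    obtain ⟨c, hc⟩ := Nat.exists_eq_succ_of_ne_zero h6.ne'
    rw [hc, pow_succ]
    exact Q.mul_mem_left _ hX

end

end Q37.Dim
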