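import Pool.Agent.Q37.Dim.Linear

/-!
# Existence of primes on a system of linear equations of small rank
-/

set_option autoImplicit false
set_option linter.unusedSectionVars false

open MvPolynomial

namespace Q37.Dim

/-! ### the bordered determinant -/

lemma schur_field {F : Type} [Field F] {ρ : ℕ} (N : Matrix (Fin ρ ⊕ Fin 1) (Fin ρ ⊕ Fin 1) F)
    (h : N.toBlocks₁₁.det ≠ 0) (h0 : N.det = 0) :
    N.toBlocks₁₁.det * N (Sum.inr 0) (Sum.inr 0) =
      ∑ i, (∑ l, N (Sum.inr 0) (Sum.inl l) * N.toBlocks₁₁.adjugate l i) *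
        N (Sum.inl i) (Sum.inr 0) := by
  have hinv : Invertible N.toBlocks₁₁.det := invertibleOfNonzero h
  have := Matrix.invertibleOfDetInvertible N.toBlocks₁₁
  have h1 := Matrix.det_fromBlocks₁₁ N.toBlocks₁₁ N.toBlocks₁₂ N.toBlocks₂₁ N.toBlocks₂₂
  rw [Matrix.fromBlocks_toBlocks, h0, eq_comm, mul_eq_zero, or_iff_right h, Matrix.det_fin_one,
    Matrix.sub_apply, sub_eq_zero] at h1
  have h2 : N.toBlocks₂₂ 0 0 = N (Sum.inr 0) (Sum.inr 0) := rfl
  rw [← h2, h1, Matrix.mul_apply, Finset.mul_sum]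
  refine Finset.sum_congr rfl fun i _ => ?_
  rw [Matrix.mul_apply, ← mul_assoc, Finset.mul_sum]
  congr 1
  refine Finset.sum_congr rfl fun l _ => ?_
  rw [Matrix.invOf_eq, Matrix.smul_apply, smul_eq_mul, Matrix.toBlocks₂₁, Matrix.of_apply]
  have h3 : N.toBlocks₁₁.det * ⅟N.toBlocks₁₁.det = 1 := mul_invOf_self _
  linear_combination (N (Sum.inr 0) (Sum.inl l) * N.toBlocks₁₁.adjugate l i) * h3

lemma schur {A : Type} [CommRing A] [IsDomain A] {ρ : ℕ}
    (N : Matrix (Fin ρ ⊕ Fin 1) (Fin ρ ⊕ Fin 1) A)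
    (h : N.toBlocks₁₁.det ≠ 0) (h0 : N.det = 0) :
    N.toBlocks₁₁.det * N (Sum.inr 0) (Sum.inr 0) =
      ∑ i, (∑ l, N (Sum.inr 0) (Sum.inl l) * N.toBlocks₁₁.adjugate l i) *
        N (Sum.inl i) (Sum.inr 0) := by
  have hinj := IsFractionRing.injective A (FractionRing A)
  apply hinj
  have hb : (N.map (algebraMap A (FractionRing A))).toBlocks₁₁ =
      N.toBlocks₁₁.map (algebraMap A (FractionRing A)) := rfl
  have hd : (N.map (algebraMap A (FractionRing A))).toBlocks₁₁.det =
      algebraMap A (FractionRing A) N.toBlocks₁₁.det := by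
    rw [hb]; exact (RingHom.map_det _ _).symm
  have ha : (N.map (algebraMap A (FractionRing A))).toBlocks₁₁.adjugate =
      N.toBlocks₁₁.adjugate.map (algebraMap A (FractionRing A)) := by
    rw [hb]; exact (RingHom.map_adjugate _ _).symm
  have := schur_field (N.map (algebraMap A (FractionRing A))) (by
    rw [hd]; exact fun h' => h (hinj (by rw [h', map_zero]))) (by
    rw [← map_zero (algebraMap A (FractionRing A)), ← h0]
    exact (RingHom.map_det _ _).symm)
  rw [hd, ha] at this
  simp only [Matrix.map_apply] at this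
  rw [map_mul, this, map_sum]
  refine Finset.sum_congr rfl fun i _ => ?_
  rw [map_mul, map_sum]
  congr 1
  exact Finset.sum_congr rfl fun l _ => by rw [map_mul]

/-- rows outside a maximal minor are combinations of the rows of the minor -/
lemma row_dep {T : Type} [CommRing T] {s ι : Type} {p : Ideal T} [p.IsPrime] (M : Matrix s ι T)
    {ρ : ℕ} {r : Fin ρ → s} {c : Fin ρ → ι} (hrc : (M.submatrix r c).det ∉ p)
    (h : ¬ Mi M p (ρ + 1)) (k : s) (j : ι) :
    (M.submatrix r c).det * M k j -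
      ∑ i, (∑ l, M k (c l) * (M.submatrix r c).adjugate l i) * M (r i) j ∈ p := by
  set N : Matrix (Fin ρ ⊕ Fin 1) (Fin ρ ⊕ Fin 1) T :=
    M.submatrix (Sum.elim r fun _ => k) (Sum.elim c fun _ => j) with hN
  have hdet : N.det ∈ p := by
    by_contra hcon
    apply h
    refine ⟨(Sum.elim r fun _ => k) ∘ finSumFinEquiv.symm,
      (Sum.elim c fun _ => j) ∘ finSumFinEquiv.symm, ?_⟩
    rw [← Matrix.submatrix_submatrix, Matrix.det_submatrix_equiv_self]
    exact hcon
  let N' := N.map (Ideal.Quotient.mk p)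
  have hb : N'.toBlocks₁₁ = (M.submatrix r c).map (Ideal.Quotient.mk p) := rfl
  have hd : N'.toBlocks₁₁.det = Ideal.Quotient.mk p (M.submatrix r c).det := by
    rw [hb]; exact (RingHom.map_det _ _).symm
  have ha : N'.toBlocks₁₁.adjugate = (M.submatrix r c).adjugate.map (Ideal.Quotient.mk p) := by
    rw [hb]; exact (RingHom.map_adjugate _ _).symm
  have h1 := schur N' (by
    rw [hd]
    exact fun h' => hrc (Ideal.Quotient.eq_zero_iff_mem.1 h')) (by
    have : N'.det = Ideal.Quotient.mk p N.det := (RingHom.map_det _ _).symm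
    rw [this]
    exact Ideal.Quotient.eq_zero_iff_mem.2 hdet)
  rw [hd, ha] at h1
  rw [← Ideal.Quotient.eq_zero_iff_mem, map_sub, sub_eq_zero, map_mul, map_sum]
  refine h1.trans (Finset.sum_congr rfl fun i _ => ?_)
  rw [map_mul, map_sum]
  congr 1

lemma comb_identity {R : Type} [CommRing R] {ι : Type} [Fintype ι] {ρ : ℕ} (δ : R) (m x : ι → R)
    (a : Fin ρ → R) (N : Fin ρ → ι → R) :
    δ * ∑ j, m j * x j = ∑ j, (δ * m j - ∑ i, a i * N i j) * x j + ∑ i, a i * ∑ j, N i j * x j := by
  simp only [sub_mul, Finset.sum_sub_distrib, Finset.mul_sum, Finset.sum_mul, mul_assoc]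
  rw [Finset.sum_comm (γ := Fin ρ)]
  abel

/-! ### extension of ideals -/

section

variable {K : Type} [Field K] {ι τ s : Type} [Fintype ι] [Fintype τ]

lemma sum_comp_incl : (sumAlgEquiv K ι τ).toRingEquiv.toRingHom.comp (incl K ι τ) = C := by
  apply MvPolynomial.ringHom_ext
  · intro x
    change sumAlgEquiv K ι τ (incl K ι τ (C x)) = _
    rw [incl_C, sumAlgEquiv_C_inl]
  · intro t
    change sumAlgEquiv K ι τ (incl K ι τ (X t)) = _
    rw [incl_X, sumAlgEquiv_X_inr]

lemma sum_symm_C (a : MvPolynomial τ K) : (sumAlgEquiv K ι τ).symm (C a) = incl K ι τ a := by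
  apply (sumAlgEquiv K ι τ).injective
  rw [AlgEquiv.apply_symm_apply]
  exact (congrArg (fun g => g a) (sum_comp_incl (K := K) (ι := ι) (τ := τ))).symm

/-- the kernel of the map to the polynomials over the image -/
lemma ker_map_sum {κ : Type} [CommRing κ] (f : MvPolynomial τ K →+* κ) :
    RingHom.ker ((MvPolynomial.map f).comp (sumAlgEquiv K ι τ).toRingEquiv.toRingHom) =
      (RingHom.ker f).map (incl K ι τ) := by
  rw [← RingHom.comap_ker, MvPolynomial.ker_map, ← sum_comp_incl (K := K) (ι := ι) (τ := τ),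
    ← Ideal.map_map]
  exact Ideal.comap_map_of_bijective _ (sumAlgEquiv K ι τ).toRingEquiv.bijective

/-- the extension of a prime -/
instance map_incl_prime (p : Ideal (MvPolynomial τ K)) [p.IsPrime] :
    (p.map (incl K ι τ)).IsPrime := by
  have := ker_map_sum (ι := ι) (Ideal.Quotient.mk p)
  rw [Ideal.mk_ker] at this
  rw [← this]
  exact RingHom.ker_isPrime _

/-- substitution of zero for the new variables -/
noncomputable def zer (K ι τ : Type) [Field K] : MvPolynomial (ι ⊕ τ) K →ₐ[K] MvPolynomial τ K :=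
  aeval (Sum.elim (fun _ => 0) X)

lemma zer_incl (f : MvPolynomial τ K) : zer K ι τ (incl K ι τ f) = f := by
  rw [zer, incl_apply, aeval_rename]
  simp

lemma zer_inl (j : ι) : zer K ι τ (X (Sum.inl j)) = 0 := by
  rw [zer, aeval_X]; rfl

lemma dn_map (p : Ideal (MvPolynomial τ K)) : dn (p.map (incl K ι τ)) = p := by
  apply le_antisymm
  · intro f hf
    have h1 : p.map (incl K ι τ) ≤ p.comap (zer K ι τ) := by
      rw [Ideal.map_le_iff_le_comap]
      intro g hg
      rw [Ideal.mem_comap, Ideal.mem_comap, zer_incl]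
      exact hg
    have h2 := h1 hf
    rwa [Ideal.mem_comap, zer_incl] at h2
  · exact Ideal.le_comap_map

lemma le_dm_map (p : Ideal (MvPolynomial τ K)) [p.IsPrime] :
    dm p + Fintype.card ι ≤ dm (p.map (incl K ι τ)) := by
  set P := p.map (incl K ι τ) with hP
  let : Algebra (MvPolynomial τ K ⧸ dn P) (MvPolynomial (ι ⊕ τ) K ⧸ P) := (qmap P).toAlgebra
  have hst := IsScalarTower.of_algebraMap_eq (R := K) (S := MvPolynomial τ K ⧸ dn P)
    (A := MvPolynomial (ι ⊕ τ) K ⧸ P) fun x => by
      change Ideal.Quotient.mk P (C x) = qmap P (Ideal.Quotient.mk _ (C x))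
      rw [qmap_mk, incl_C]
  have hx : AlgebraicIndependent (MvPolynomial τ K ⧸ dn P)
      (fun i : Fin (Fintype.card ι) => Ideal.Quotient.mk P
        (X (Sum.inl ((Fintype.equivFin ι).symm i)))) := by
    rw [algebraicIndependent_iff]
    intro q hq
    -- lift the polynomial
    obtain ⟨q', rfl⟩ := MvPolynomial.map_surjective (Ideal.Quotient.mk (dn P))
      Ideal.Quotient.mk_surjective q
    have h1 : (aeval (R := MvPolynomial τ K ⧸ dn P) fun i : Fin (Fintype.card ι) =>
        Ideal.Quotient.mk P (X (Sum.inl ((Fintype.equivFin ι).symm i))))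
        (MvPolynomial.map (Ideal.Quotient.mk (dn P)) q') =
        Ideal.Quotient.mk P ((sumAlgEquiv K ι τ).symm
          (rename (Fintype.equivFin ι).symm q')) := by
      clear hq
      induction q' using MvPolynomial.induction_on with
      | C a =>
        rw [map_C, aeval_C, rename_C, sum_symm_C]
        exact qmap_mk _ _
      | add f g hf hg => simp only [map_add, hf, hg]
      | mul_X f i hf =>
        rw [map_mul, map_mul, hf, map_X, aeval_X, map_mul, map_mul, rename_X, sumAlgEquiv_symm_X,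
          map_mul]
    rw [h1, Ideal.Quotient.eq_zero_iff_mem, hP] at hq
    have h2 := ker_map_sum (ι := ι) (Ideal.Quotient.mk p)
    rw [Ideal.mk_ker] at h2
    rw [← h2, RingHom.mem_ker] at hq
    have h3 : MvPolynomial.map (Ideal.Quotient.mk p) (rename (Fintype.equivFin ι).symm q') = 0 := by
      have : (sumAlgEquiv K ι τ) ((sumAlgEquiv K ι τ).symm
        (rename (Fintype.equivFin ι).symm q')) = rename (Fintype.equivFin ι).symm q' :=
        AlgEquiv.apply_symm_apply _ _
      rw [← this]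
      exact hq
    rw [MvPolynomial.map_rename] at h3
    have h4 : MvPolynomial.map (Ideal.Quotient.mk p) q' = 0 :=
      rename_injective _ (Fintype.equivFin ι).symm.injective (by rw [h3, map_zero])
    rw [MvPolynomial.ext_iff] at h4 ⊢
    intro m
    have h5 := h4 m
    rw [coeff_map, coeff_zero, Ideal.Quotient.eq_zero_iff_mem] at h5 ⊢
    rw [hP, dn_map]
    exact h5
  have h := td_tower_ge (K := K) (qmap_inj P) hx
  have h' : dm (dn P) = dm p := by rw [hP, dn_map]
  rw [← h']
  exact h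

lemma lf_comb (M : Matrix s ι (MvPolynomial τ K)) {ρ : ℕ} (r : Fin ρ → s)
    (δ : MvPolynomial τ K) (a : Fin ρ → MvPolynomial τ K) (k : s) :
    incl K ι τ δ * lf M k =
      ∑ j, incl K ι τ (δ * M k j - ∑ i, a i * M (r i) j) * X (Sum.inl j) +
      ∑ i, incl K ι τ (a i) * lf M (r i) := by
  have h6 := comb_identity (incl K ι τ δ) (fun j => incl K ι τ (M k j))
    (fun j => X (Sum.inl j)) (fun i => incl K ι τ (a i)) (fun i j => incl K ι τ (M (r i) j))
  refine h6.trans ?_
  congr 1
  refine Finset.sum_congr rfl fun j _ => ?_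
  rw [map_sub, map_mul, map_sum]
  congr 2
  exact Finset.sum_congr rfl fun i _ => (map_mul _ _ _).symm

/-- **Lower bound**: if all minors of size `ρ + 1` vanish modulo `p`, there is a large prime over
`p` containing the linear forms. -/
theorem exists_prime_of_not_Mi (p : Ideal (MvPolynomial τ K)) [p.IsPrime]
    (M : Matrix s ι (MvPolynomial τ K)) {ρ : ℕ} (h : ¬ Mi M p (ρ + 1)) :
    ∃ P : Ideal (MvPolynomial (ι ⊕ τ) K), P.IsPrime ∧ dn P = p ∧ (∀ k, lf M k ∈ P) ∧
      dm p + Fintype.card ι ≤ dm P + ρ := by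
  classical
  obtain ⟨ρ', hρ', ⟨r, c, hrc⟩, h2⟩ :=
    exists_max_Mi (M := M) (p := p) (Ideal.IsPrime.ne_top inferInstance) (ρ + 1)
  have h3 : ¬ Mi M p (ρ' + 1) := by
    rcases h2 with rfl | h2
    · exact absurd ⟨r, c, hrc⟩ h
    · exact h2
  have hle : ρ' ≤ ρ := by
    rcases h2 with rfl | h2
    · exact absurd ⟨r, c, hrc⟩ h
    · rcases Nat.lt_or_ge ρ ρ' with h4 | h4
      · exact absurd ((Mi.of_le h4 ⟨r, c, hrc⟩ : Mi M p (ρ + 1))) h
      · exact h4
  set P0 := p.map (incl K ι τ) with hP0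
  set M0 : Ideal (MvPolynomial (ι ⊕ τ) K) := p.comap (zer K ι τ) with hM0
  have hM0p : M0.IsPrime := Ideal.comap_isPrime _ _
  have hP0M0 : P0 ≤ M0 := by
    rw [hP0, Ideal.map_le_iff_le_comap]
    intro g hg
    rw [Ideal.mem_comap, hM0, Ideal.mem_comap, zer_incl]
    exact hg
  have hlf : ∀ k, lf M k ∈ M0 := by
    intro k
    rw [hM0, Ideal.mem_comap, lf, map_sum]
    refine Ideal.sum_mem _ fun j _ => ?_
    rw [map_mul, zer_inl, mul_zero]
    exact p.zero_mem
  obtain ⟨Q, hQp, hPQ, hsQ, hQM, hd⟩ := exists_prime_of_finset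
    (Finset.univ.image fun i => lf M (r i)) P0 M0 hP0M0 (by
      intro x hx
      obtain ⟨i, -, rfl⟩ := Finset.mem_image.1 hx
      exact hlf _)
  have hpQ : p ≤ dn Q := by
    rw [← dn_map (ι := ι) p]
    exact Ideal.comap_mono hPQ
  have hdnQ : dn Q = p := by
    apply le_antisymm _ hpQ
    intro f hf
    have := hQM hf
    rwa [hM0, Ideal.mem_comap, zer_incl] at this
  refine ⟨Q, hQp, hdnQ, ?_, ?_⟩
  · intro k
    have h4 : incl K ι τ (M.submatrix r c).det ∉ Q := by
      rw [← mem_dn, hdnQ]; exact hrc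
    refine (hQp.mem_or_mem (x := incl K ι τ (M.submatrix r c).det) (y := lf M k) ?_).resolve_left h4
    rw [lf_comb M r _ (fun i => ∑ l, M k (c l) * (M.submatrix r c).adjugate l i)]
    refine Q.add_mem (Ideal.sum_mem _ fun j _ => ?_) (Ideal.sum_mem _ fun i _ => ?_)
    · apply Ideal.mul_mem_right
      rw [← mem_dn, hdnQ]
      exact row_dep M hrc h3 k j
    · apply Ideal.mul_mem_left
      exact hsQ _ (Finset.mem_image_of_mem _ (Finset.mem_univ i))
  · have h4 : dm p + Fintype.card ι ≤ dm P0 := le_dm_map (ι := ι) p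
    have h5 : (Finset.univ.image fun i => lf M (r i)).card ≤ ρ' := by
      refine Finset.card_image_le.trans ?_
      rw [Finset.card_univ, Fintype.card_fin]
    omega

end

end Q37.Dim
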