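import Pool.Agent.Q37.Dim.Transport

/-!
# Ideals of hypergraphs

For a clutter, the expected codimension in `d` columns implies primality in `d + 1` columns.
-/

set_option autoImplicit false
set_option linter.unusedSectionVars false

open MvPolynomial

namespace Q37.Hyp

open Q37.Dim

variable {K : Type} [Field K]

/-- the monomial of a set of vertices in a column -/
noncomputable def em (K : Type) [Field K] {n d : ℕ} (A : Finset (Fin n)) (j : Fin d) :
    MvPolynomial (Fin n × Fin d) K := ∏ a ∈ A, X (a, j)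

/-- the polynomial of an edge -/
noncomputable def ef (K : Type) [Field K] {n : ℕ} (d : ℕ) (A : Finset (Fin n)) :
    MvPolynomial (Fin n × Fin d) K := ∑ j, em K A j

lemma em_hom {n d : ℕ} (A : Finset (Fin n)) (j : Fin d) : (em K A j).IsHomogeneous A.card := by
  have := IsHomogeneous.prod A (fun a => (X (a, j) : MvPolynomial (Fin n × Fin d) K)) (fun _ => 1)
    fun a _ => isHomogeneous_X _ _
  rwa [Finset.sum_const, smul_eq_mul, mul_one] at this

lemma ef_hom {n d : ℕ} (A : Finset (Fin n)) : (ef K d A).IsHomogeneous A.card :=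
  IsHomogeneous.sum _ _ _ fun j _ => em_hom A j

/-- removal of the vertex `0` -/
def tl {n : ℕ} (A : Finset (Fin (n + 1))) : Finset (Fin n) := Finset.univ.filter fun i => i.succ ∈ A

lemma mem_tl {n : ℕ} {A : Finset (Fin (n + 1))} {i : Fin n} : i ∈ tl A ↔ i.succ ∈ A := by
  simp [tl]

lemma tl_subset {n : ℕ} {A B : Finset (Fin (n + 1))} (h : tl A ⊆ tl B) (h0 : 0 ∈ A → 0 ∈ B) :
    A ⊆ B := by
  intro a ha
  refine Fin.cases (fun ha => h0 ha) (fun i hi => ?_) a ha
  exact mem_tl.1 (h (mem_tl.2 hi))

lemma prod_tl {n : ℕ} {R : Type} [CommMonoid R] (A : Finset (Fin (n + 1))) (f : Fin (n + 1) → R) :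
    ∏ a ∈ A, f a = (if 0 ∈ A then f 0 else 1) * ∏ a ∈ tl A, f a.succ := by
  have h1 : ∏ a ∈ A, f a = ∏ a, if a ∈ A then f a else 1 := by
    rw [Finset.prod_ite_mem, Finset.univ_inter]
  have h2 : ∏ a ∈ tl A, f a.succ = ∏ a : Fin n, if a.succ ∈ A then f a.succ else 1 := by
    rw [tl, Finset.prod_filter]
  rw [h1, h2, Fin.prod_univ_succ]

/-- clutters of nonempty sets -/
structure Cl {I : Type} {n : ℕ} (e : I → Finset (Fin n)) : Prop where
  ne : ∀ i, (e i).Nonempty
  cl : ∀ i j, e i ⊆ e j → i = j

section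

variable {I : Type} [Fintype I] {n : ℕ}

/-- the edges avoiding `0` -/
def e0 (e : I → Finset (Fin (n + 1))) : {i // ¬ 0 ∈ e i} → Finset (Fin n) := fun i => tl (e i)

/-- the links of the edges through `0` -/
def e1 (e : I → Finset (Fin (n + 1))) : {i // 0 ∈ e i} → Finset (Fin n) := fun i => tl (e i)

/-- the matrix of the link -/
noncomputable def mat (K : Type) [Field K] (e : I → Finset (Fin (n + 1))) (d : ℕ) :
    Matrix {i // 0 ∈ e i} (Fin d) (MvPolynomial (Fin n × Fin d) K) := fun k j => em K (e1 e k) j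

/-- the variables -/
def Ev (n d : ℕ) : Fin d ⊕ (Fin n × Fin d) ≃ Fin (n + 1) × Fin d where
  toFun := Sum.elim (fun j => (0, j)) fun x => (x.1.succ, x.2)
  invFun x := Fin.cases (Sum.inl x.2) (fun a => Sum.inr (a, x.2)) x.1
  left_inv := by rintro (j | ⟨a, j⟩) <;> rfl
  right_inv := by
    rintro ⟨a, j⟩
    refine Fin.cases rfl (fun a => rfl) a

lemma Ev_inl (j : Fin n) {m : ℕ} : Ev m n (Sum.inl j) = (0, j) := rfl

lemma Ev_inr {m d : ℕ} (x : Fin m × Fin d) : Ev m d (Sum.inr x) = (x.1.succ, x.2) := rfl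

/-- the edges -/
def Fe (e : I → Finset (Fin (n + 1))) : {i // ¬ 0 ∈ e i} ⊕ {i // 0 ∈ e i} ≃ I :=
  (Equiv.sumComm _ _).trans (Equiv.sumCompl fun i => 0 ∈ e i)

lemma rename_em (A : Finset (Fin (n + 1))) {d : ℕ} (j : Fin d) :
    rename (Ev n d) (incl K (Fin d) (Fin n × Fin d) (em K (tl A) j)) =
      ∏ a ∈ tl A, X (a.succ, j) := by
  rw [em, map_prod, map_prod]
  refine Finset.prod_congr rfl fun a _ => ?_
  rw [incl_X, rename_X, Ev_inr]

lemma jn_eq (e : I → Finset (Fin (n + 1))) (d : ℕ) (x : {i // ¬ 0 ∈ e i} ⊕ {i // 0 ∈ e i}) :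
    rename (Ev n d) (jn (fun i => ef K d (e0 e i)) (mat K e d) x) = ef K d (e (Fe e x)) := by
  rcases x with i | k
  · change rename (Ev n d) (incl K (Fin d) _ (ef K d (tl (e i)))) = ef K d (e i)
    rw [ef, map_sum, map_sum, ef]
    refine Finset.sum_congr rfl fun j _ => ?_
    rw [rename_em, em, prod_tl, if_neg i.2, one_mul]
  · change rename (Ev n d) (lf (mat K e d) k) = ef K d (e k)
    rw [lf, map_sum, ef]
    refine Finset.sum_congr rfl fun j _ => ?_
    rw [map_mul, rename_X, Ev_inl, em, prod_tl, if_pos k.2, mul_comm]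
    congr 1
    exact rename_em _ _

/-- the expected codimension -/
def Dm (K : Type) [Field K] {I : Type} [Fintype I] {n : ℕ} (d : ℕ) (e : I → Finset (Fin n)) :
    Prop := DB fun i => ef K d (e i)

/-- primality -/
def Pr (K : Type) [Field K] {I : Type} {n : ℕ} (d : ℕ) (e : I → Finset (Fin n)) : Prop :=
  (Ideal.span (Set.range fun i => ef K d (e i))).IsPrime

lemma dm_iff (e : I → Finset (Fin (n + 1))) (d : ℕ) :
    Dm K d e ↔ DB (jn (fun i => ef K d (e0 e i)) (mat K e d)) :=
  ⟨DB.transport' (Fe e) (Ev n d) (jn_eq e d), DB.transport (Fe e) (Ev n d) (jn_eq e d)⟩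

lemma pr_iff (e : I → Finset (Fin (n + 1))) (d : ℕ) :
    Pr K d e ↔ (Ideal.span (Set.range (jn (fun i => ef K d (e0 e i)) (mat K e d)))).IsPrime :=
  ⟨prime_transport' (Fe e) (Ev n d) (jn_eq e d), prime_transport (Fe e) (Ev n d) (jn_eq e d)⟩

lemma Cl.e0 {e : I → Finset (Fin (n + 1))} (h : Cl e) : Cl (e0 e) := by
  constructor
  · rintro ⟨i, hi⟩
    obtain ⟨a, ha⟩ := h.ne i
    refine Fin.cases (fun h0 => absurd h0 hi) (fun a ha => ?_) a ha
    exact ⟨a, mem_tl.2 ha⟩
  · rintro ⟨i, hi⟩ ⟨j, hj⟩ hij
    exact Subtype.ext (h.cl i j (tl_subset hij fun h0 => absurd h0 hi))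

lemma cl_e1 {e : I → Finset (Fin (n + 1))} (h : Cl e) {k l : {i // 0 ∈ e i}}
    (hkl : e1 e k ⊆ e1 e l) : k = l :=
  Subtype.ext (h.cl k l (tl_subset hkl fun _ => l.2))

lemma cl_e01 {e : I → Finset (Fin (n + 1))} (h : Cl e) {i : {i // ¬ 0 ∈ e i}}
    {l : {i // 0 ∈ e i}} : ¬ (Hyp.e0 e i ⊆ e1 e l) := by
  intro hil
  have h1 := h.cl i l (tl_subset hil fun h0 => absurd h0 i.2)
  exact i.2 (h1 ▸ l.2)

lemma hom_pos {e : I → Finset (Fin n)} (h : Cl e) (d : ℕ) (i : I) :
    ∃ m, 0 < m ∧ (ef K d (e i)).IsHomogeneous m :=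
  ⟨_, Finset.card_pos.2 (h.ne i), ef_hom _⟩

/-! ### the generic rank -/

lemma generic_rank {e : I → Finset (Fin (n + 1))} (h : Cl e) {d m : ℕ} (hmd : m ≤ d)
    (hm : m ≤ Fintype.card {i // 0 ∈ e i}) :
    Mi (mat K e d) (Ideal.span (Set.range fun i => ef K d (e0 e i))) m := by
  classical
  let g : Fin m → {i // 0 ∈ e i} := fun k => (Fintype.equivFin _).symm (Fin.castLE hm k)
  have hg : Function.Injective g := fun a b hab => by
    simpa [g] using hab
  let c : Fin m → Fin d := Fin.castLE hmd
  have hc : Function.Injective c := Fin.castLE_injective hmd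
  let v : Fin n × Fin d → K := fun x => if ∃ k, c k = x.2 ∧ x.1 ∈ e1 e (g k) then 1 else 0
  have hv : ∀ (A : Finset (Fin n)) (l : Fin m), eval v (em K A (c l)) =
      if A ⊆ e1 e (g l) then 1 else 0 := by
    intro A l
    rw [em, map_prod]
    split_ifs with hA
    · refine Finset.prod_eq_one fun a ha => ?_
      rw [eval_X]
      exact if_pos ⟨l, rfl, hA ha⟩
    · obtain ⟨a, ha, ha'⟩ := Finset.not_subset.1 hA
      refine Finset.prod_eq_zero ha ?_
      rw [eval_X]
      refine if_neg ?_
      rintro ⟨k, hk, hk'⟩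
      rw [hc hk] at hk'
      exact ha' hk'
  refine ⟨g, c, fun hmem => ?_⟩
  have h1 : Ideal.span (Set.range fun i => ef K d (e0 e i)) ≤ RingHom.ker (eval v) := by
    rw [Ideal.span_le]
    rintro _ ⟨i, rfl⟩
    change eval v (ef K d (e0 e i)) = 0
    rw [ef, map_sum]
    refine Finset.sum_eq_zero fun j _ => ?_
    by_cases hj : ∃ k, c k = j
    · obtain ⟨k, rfl⟩ := hj
      rw [hv, if_neg (cl_e01 h)]
    · obtain ⟨a, ha⟩ := h.e0.ne i
      rw [em, map_prod]
      refine Finset.prod_eq_zero ha ?_
      rw [eval_X]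
      refine if_neg ?_
      rintro ⟨k, hk, -⟩
      exact hj ⟨k, hk⟩
  have h2 : eval v ((mat K e d).submatrix g c).det = 0 := h1 hmem
  rw [RingHom.map_det] at h2
  have h3 : (eval v).mapMatrix ((mat K e d).submatrix g c) = 1 := by
    ext k l
    change eval v (em K (e1 e (g k)) (c l)) = _
    rw [hv, Matrix.one_apply]
    by_cases hkl : k = l
    · rw [if_pos hkl, if_pos (by rw [hkl])]
    · rw [if_neg hkl, if_neg fun h' => hkl (hg (cl_e1 h h'))]
  rw [h3, Matrix.det_one] at h2
  exact one_ne_zero h2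

/-! ### primality implies the expected codimension -/

theorem dm_of_pr {d : ℕ} (hd : 0 < d) : ∀ {n : ℕ} {I : Type} [Fintype I]
    {e : I → Finset (Fin n)}, Cl e → Pr K d e → Dm K d e := by
  intro n
  induction n with
  | zero =>
    intro I _ e he _ P _ _
    have : IsEmpty I := ⟨fun i => by
      obtain ⟨a, -⟩ := he.ne i
      exact a.elim0⟩
    rw [Fintype.card_eq_zero, add_zero, ← Nat.card_eq_fintype_card]
    exact dm_le_card P
  | succ n ih =>
    intro I _ e he hp
    classical
    rw [pr_iff] at hp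
    have h0 : Pr K d (e0 e) := by
      have := dn_prime (Ideal.span (Set.range (jn (fun i => ef K d (e0 e i)) (mat K e d))))
      rwa [dn_jn] at this
    have hdm0 := ih he.e0 h0
    rcases Nat.lt_or_ge d (Fintype.card {i // 0 ∈ e i}) with hlt | hle
    · -- too many edges
      exfalso
      obtain ⟨r, c, hrc⟩ := generic_rank (K := K) he le_rfl hlt.le
      have hc : Function.Injective c := injective_of_det_ne (M := mat K e d) (r := r) fun h =>
        hrc (by rw [h]; exact Ideal.zero_mem _)
      have hcs : Function.Surjective c := Finite.surjective_of_injective hc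
      have hfree : free c = ∅ := by
        ext j
        rw [mem_free]
        obtain ⟨i, hi⟩ := hcs j
        simp only [Finset.notMem_empty, iff_false, not_forall, not_not]
        exact ⟨i, hi⟩
      set L := Ideal.span (Set.range (jn (fun i => ef K d (e0 e i)) (mat K e d))) with hL
      have hX : ∀ j : Fin d, (X (Sum.inl j) : MvPolynomial (Fin d ⊕ (Fin n × Fin d)) K) ∈ L := by
        intro j
        obtain ⟨i, rfl⟩ := hcs j
        have h3 := cramer_free (r := r) hc ((mat K e d).map (incl K (Fin d) (Fin n × Fin d)))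
          (fun j => X (Sum.inl j)) i
        have hsub : ((mat K e d).map (incl K (Fin d) (Fin n × Fin d))).submatrix r c =
          ((mat K e d).submatrix r c).map (incl K (Fin d) (Fin n × Fin d)) := rfl
        have hdet : (((mat K e d).map (incl K (Fin d) (Fin n × Fin d))).submatrix r c).det =
            incl K (Fin d) (Fin n × Fin d) ((mat K e d).submatrix r c).det := by
          rw [hsub]; exact (RingHom.map_det _ _).symm
        rw [hdet, hfree] at h3
        simp only [Finset.sum_empty, mul_zero, Finset.sum_const_zero, sub_zero] at h3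
        have h4 : incl K (Fin d) (Fin n × Fin d) ((mat K e d).submatrix r c).det *
            X (Sum.inl (c i)) ∈ L := by
          rw [h3]
          refine Ideal.sum_mem _ fun k _ => Ideal.mul_mem_left _ _ ?_
          exact Ideal.subset_span ⟨Sum.inr (r k), rfl⟩
        refine (hp.mem_or_mem h4).resolve_left fun h5 => hrc ?_
        rw [← dn_jn (M := mat K e d)]
        exact h5
      -- evaluate
      let v : Fin d ⊕ (Fin n × Fin d) → K := Sum.elim (fun _ => 1) fun _ => 0
      have hev : L ≤ RingHom.ker (eval v) := by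
        rw [hL, Ideal.span_le]
        rintro _ ⟨i | k, rfl⟩
        · change eval v (incl K _ _ (ef K d (e0 e i))) = 0
          rw [ef, map_sum, map_sum]
          refine Finset.sum_eq_zero fun j _ => ?_
          obtain ⟨a, ha⟩ := he.e0.ne i
          rw [em, map_prod, map_prod]
          refine Finset.prod_eq_zero ha ?_
          rw [incl_X, eval_X]; rfl
        · change eval v (lf (mat K e d) k) = 0
          rw [lf, map_sum]
          refine Finset.sum_eq_zero fun j _ => ?_
          have hne : (e1 e k).Nonempty := by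
            by_contra hcon
            rw [Finset.not_nonempty_iff_eq_empty] at hcon
            have : Fintype.card {i // 0 ∈ e i} ≤ 1 := by
              rw [Fintype.card_le_one_iff]
              intro a b
              have h1 := cl_e1 he (k := k) (l := a) (by rw [hcon]; exact Finset.empty_subset _)
              have h2 := cl_e1 he (k := k) (l := b) (by rw [hcon]; exact Finset.empty_subset _)
              rw [← h1, ← h2]
            omega
          obtain ⟨a, ha⟩ := hne
          rw [map_mul]
          have : eval v (incl K (Fin d) (Fin n × Fin d) (mat K e d k j)) = 0 := by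
            change eval v (incl K (Fin d) (Fin n × Fin d) (em K (e1 e k) j)) = 0
            rw [em, map_prod, map_prod]
            refine Finset.prod_eq_zero ha ?_
            rw [incl_X, eval_X]; rfl
          rw [this, zero_mul]
      have := hev (hX ⟨0, hd⟩)
      rw [RingHom.mem_ker, eval_X] at this
      exact one_ne_zero this
    · rw [dm_iff]
      intro P hP hle'
      have h1 : Ideal.span (Set.range (jn (fun i => ef K d (e0 e i)) (mat K e d))) ≤ P := by
        rw [Ideal.span_le]
        rintro _ ⟨x, rfl⟩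
        exact hle' x
      have h2 := dm_le_of_le h1
      have h3 := dm_le_of_minor (P := Ideal.span (Set.range
        (jn (fun i => ef K d (e0 e i)) (mat K e d)))) (mat K e d)
        (fun k => Ideal.subset_span ⟨Sum.inr k, rfl⟩)
        (ρ := Fintype.card {i // 0 ∈ e i}) (by
          rw [dn_jn]
          exact generic_rank he hle le_rfl)
      rw [dn_jn] at h3
      have h4 := hdm0 _ h0 fun i => Ideal.subset_span ⟨i, rfl⟩
      rw [Fintype.card_sum, Fintype.card_sum]
      omega

end

end Q37.Hyp
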