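import Pool.Agent.Q37.Dim.HyperStep
import Pool.Agent.Q37.Dim.CI

/-!
# Complete intersections from hypergraphs
-/

set_option autoImplicit false
set_option linter.unusedSectionVars false

open MvPolynomial

namespace Q37.Hyp

open Q37.Dim

variable {K : Type} [Field K] {I : Type} [Fintype I] {n d : ℕ}

/-- the exponent of the monomial of a set of vertices -/
noncomputable def mo (A : Finset (Fin n)) (j : Fin d) : (Fin n × Fin d) →₀ ℕ :=
  ∑ a ∈ A, Finsupp.single (a, j) 1

lemma mo_apply (A : Finset (Fin n)) (j : Fin d) (a : Fin n) (j' : Fin d) :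
    mo A j (a, j') = if a ∈ A ∧ j = j' then 1 else 0 := by
  classical
  rw [mo, Finsupp.finsetSum_apply]
  by_cases h : a ∈ A ∧ j = j'
  · obtain ⟨h1, rfl⟩ := h
    rw [Finset.sum_eq_single a]
    · simp [h1]
    · intro b _ hb
      rw [Finsupp.single_apply, if_neg]
      intro h; exact hb (Prod.mk.inj h).1
    · intro h; exact absurd h1 h
  · rw [if_neg h]
    refine Finset.sum_eq_zero fun b hb => ?_
    rw [Finsupp.single_apply, if_neg]
    intro h'
    obtain ⟨rfl, rfl⟩ := Prod.mk.inj h'
    exact h ⟨hb, rfl⟩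

lemma em_eq (A : Finset (Fin n)) (j : Fin d) : em K A j = monomial (mo A j) 1 := by
  rw [em, mo, monomial_sum_one]
  rfl

lemma mo_le {A B : Finset (Fin n)} {j j' : Fin d} (hA : A.Nonempty) (h : mo A j ≤ mo B j') :
    j = j' ∧ A ⊆ B := by
  obtain ⟨a, ha⟩ := hA
  constructor
  · have h1 := h (a, j)
    rw [mo_apply, mo_apply, if_pos ⟨ha, rfl⟩] at h1
    by_contra hne
    rw [if_neg (fun h' => hne h'.2.symm)] at h1
    omega
  · intro b hb
    have h1 := h (b, j)
    rw [mo_apply, mo_apply, if_pos ⟨hb, rfl⟩] at h1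
    by_contra hne
    rw [if_neg (fun h' => hne h'.1)] at h1
    omega

/-- the coefficients of the products -/
lemma coeff_mul_ef {e : I → Finset (Fin n)} (he : Cl e) (h : MvPolynomial (Fin n × Fin d) K)
    (j0 : Fin d) (i k : I) [Decidable (k = i)] :
    coeff (mo (e i) j0) (h * ef K d (e k)) = if k = i then constantCoeff h else 0 := by
  classical
  rw [ef, Finset.mul_sum, coeff_sum]
  simp only [em_eq, coeff_mul_monomial', mul_one]
  split_ifs with hki
  · subst hki
    rw [Finset.sum_eq_single j0]
    · rw [if_pos le_rfl, tsub_self]; rfl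
    · intro j _ hj
      rw [if_neg]
      intro h'; exact hj (mo_le (he.ne k) h').1
    · intro h'; exact absurd (Finset.mem_univ j0) h'
  · refine Finset.sum_eq_zero fun j _ => ?_
    rw [if_neg]
    intro h'
    exact hki (he.cl k i (mo_le (he.ne k) h').2)

/-- **complete intersections have the expected codimension** -/
theorem dm_of_ci {e : I → Finset (Fin n)} (he : Cl e) (hd : 0 < d)
    (h : IsCI (Ideal.span (Set.range fun i => ef K d (e i)))) : Dm K d e := by
  classical
  obtain ⟨rs, hrs, hrs'⟩ := h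
  intro P hP hle
  have hle' : Ideal.ofList rs ≤ P := by
    rw [hrs', Ideal.span_le]
    rintro _ ⟨i, rfl⟩
    exact hle i
  have h1 := dm_add_length_le hrs.toIsWeaklyRegular P hle'
  let φ : MvPolynomial (Fin n × Fin d) K →ₗ[K] (I → K) :=
    LinearMap.pi fun i => MvPolynomial.lcoeff K (mo (e i) ⟨0, hd⟩)
  have hφ : ∀ x i, φ x i = coeff (mo (e i) ⟨0, hd⟩) x := fun x i => rfl
  have h2 := card_le_length (I := I) (Ideal.span (Set.range fun i => ef K d (e i))) φ (by
    intro h x hx
    have hx' : x ∈ Submodule.span (MvPolynomial (Fin n × Fin d) K)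
      (Set.range fun i => ef K d (e i)) := hx
    clear hx
    induction hx' using Submodule.span_induction generalizing h with
    | mem x hx =>
      obtain ⟨k, rfl⟩ := hx
      funext i
      rw [Pi.smul_apply, hφ, hφ, coeff_mul_ef he]
      have h3 := coeff_mul_ef he (1 : MvPolynomial (Fin n × Fin d) K) ⟨0, hd⟩ i k
      rw [one_mul] at h3
      rw [h3]
      split_ifs <;> simp
    | zero => rw [mul_zero, map_zero, smul_zero]
    | add x y _ _ hx hy => rw [mul_add, map_add, map_add, hx, hy, smul_add]
    | smul a x _ hx =>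
      rw [smul_eq_mul, ← mul_assoc, hx, hx a, map_mul, smul_smul]) (by
    intro v
    refine ⟨∑ k, C (v k) * ef K d (e k), Ideal.sum_mem _ fun k _ =>
      Ideal.mul_mem_left _ _ (Ideal.subset_span ⟨k, rfl⟩), ?_⟩
    funext i
    rw [hφ, coeff_sum]
    simp only [coeff_mul_ef he]
    simp) hrs'
  omega

theorem ci_of_dm {e : I → Finset (Fin n)} (he : Cl e) (h : Dm K d e) :
    IsCI (Ideal.span (Set.range fun i => ef K d (e i))) :=
  isCI_of_db _ (hom_pos he d) h

end Q37.Hyp
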