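import Pool.Agent.Q37.Dim.Hyper

/-!
# From `d` to `d + 1` columns
-/

set_option autoImplicit false
set_option linter.unusedSectionVars false

open MvPolynomial

namespace Q37.Hyp

open Q37.Dim

variable {K : Type} [Field K] {I : Type} [Fintype I] {n : ℕ}

/-- the inclusion of the first `d` columns -/
def cs (n d : ℕ) : Fin n × Fin d → Fin n × Fin (d + 1) := fun x => (x.1, x.2.castSucc)

lemma rename_cs_em {d : ℕ} (A : Finset (Fin n)) (j : Fin d) :
    rename (cs n d) (em K A j) = em K A j.castSucc := by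
  rw [em, map_prod, em]
  exact Finset.prod_congr rfl fun a _ => rename_X _ _

lemma rename_cs_ef {d : ℕ} (A : Finset (Fin n)) :
    ef K (d + 1) A = rename (cs n d) (ef K d A) + em K A (Fin.last d) := by
  rw [ef, Fin.sum_univ_castSucc, ef, map_sum]
  congr 1
  exact Finset.sum_congr rfl fun j _ => (rename_cs_em A j).symm

/-- contraction to the first `d` columns -/
noncomputable def ct {d : ℕ} (Q : Ideal (MvPolynomial (Fin n × Fin (d + 1)) K)) :
    Ideal (MvPolynomial (Fin n × Fin d) K) :=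
  Q.comap (rename (cs n d) : MvPolynomial (Fin n × Fin d) K →ₐ[K] _)

lemma mem_ct {d : ℕ} {Q : Ideal (MvPolynomial (Fin n × Fin (d + 1)) K)}
    {f : MvPolynomial (Fin n × Fin d) K} : f ∈ ct Q ↔ rename (cs n d) f ∈ Q := Iff.rfl

instance {d : ℕ} (Q : Ideal (MvPolynomial (Fin n × Fin (d + 1)) K)) [Q.IsPrime] :
    (ct Q).IsPrime := Ideal.comap_isPrime _ _

lemma dm_ct {d : ℕ} (Q : Ideal (MvPolynomial (Fin n × Fin (d + 1)) K))
    (h : ∀ a : Fin n, X (a, Fin.last d) ∈ Q) : dm Q ≤ dm (ct Q) := by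
  refine dm_le_comap_rename (cs n d) Q ?_
  rintro ⟨a, j⟩
  refine Fin.lastCases (Or.inr (h a)) (fun j => Or.inl ⟨(a, j), rfl⟩) j

lemma ef_mem_ct {d : ℕ} {Q : Ideal (MvPolynomial (Fin n × Fin (d + 1)) K)}
    (h : ∀ a : Fin n, X (a, Fin.last d) ∈ Q) {A : Finset (Fin n)} (hA : A.Nonempty)
    (hf : ef K (d + 1) A ∈ Q) : ef K d A ∈ ct Q := by
  rw [mem_ct]
  rw [rename_cs_ef] at hf
  obtain ⟨a, ha⟩ := hA
  have h1 : em K A (Fin.last d) ∈ Q := by
    rw [em, ← Finset.mul_prod_erase A _ ha]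
    exact Q.mul_mem_right _ (h a)
  have := Q.sub_mem hf h1
  rwa [add_sub_cancel_right] at this

/-- the expected codimension persists -/
theorem dm_succ {d : ℕ} {e : I → Finset (Fin n)} (he : Cl e) (h : Dm K d e) :
    Dm K (d + 1) e := by
  classical
  intro P hP hle
  have hle' : ∀ i, ef K (d + 1) (e i) ∈ hc P := fun i => mem_hc (ef_hom _) (hle i)
  obtain ⟨Q, hQp, hPQ, hsQ, -, hd⟩ := exists_prime_of_finset
    (Finset.univ.image fun a : Fin n => (X (a, Fin.last d) : MvPolynomial _ K)) (hc P)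
    (irr K _) (hc_le_irr P) (by
      intro x hx
      obtain ⟨a, -, rfl⟩ := Finset.mem_image.1 hx
      exact X_mem_irr _)
  have hX : ∀ a : Fin n, X (a, Fin.last d) ∈ Q := fun a =>
    hsQ _ (Finset.mem_image_of_mem _ (Finset.mem_univ a))
  have h1 := h (ct Q) inferInstance fun i => ef_mem_ct hX (he.ne i) (hPQ (hle' i))
  have h2 := dm_ct Q hX
  have h3 := dm_le_of_le (hc_le P)
  have h4 : (Finset.univ.image fun a : Fin n => (X (a, Fin.last d) : MvPolynomial (Fin n ×
      Fin (d + 1)) K)).card ≤ n :=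
    Finset.card_image_le.trans (by rw [Finset.card_univ, Fintype.card_fin])
  rw [Fintype.card_prod, Fintype.card_fin, Fintype.card_fin] at h1 ⊢
  have h5 : n * (d + 1) = n * d + n := by ring
  omega

section key

variable {e : I → Finset (Fin (n + 1))}

lemma mat_ct {d ρ : ℕ} (r : Fin ρ → {i // 0 ∈ e i}) (c : Fin ρ → Fin d) :
    rename (cs n d) ((mat K e d).submatrix r c).det =
      ((mat K e (d + 1)).submatrix r (Fin.castSucc ∘ c)).det := by
  rw [AlgHom.map_det]
  congr 1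
  ext k l
  change coeff _ (rename (cs n d) (em K (e1 e (r k)) (c l))) = _
  rw [rename_cs_em]
  rfl

lemma not_mi_ct {d ρ : ℕ} {Q : Ideal (MvPolynomial (Fin n × Fin (d + 1)) K)}
    (h : ¬ Mi (mat K e (d + 1)) Q ρ) : ¬ Mi (mat K e d) (ct Q) ρ := by
  rintro ⟨r, c, hrc⟩
  apply h
  refine ⟨r, Fin.castSucc ∘ c, ?_⟩
  rw [← mat_ct]
  exact hrc

/-- the bound for primes containing the last column -/
lemma bound_ct {d : ℕ} (he : Cl e) (h : Dm K d e)
    {Q : Ideal (MvPolynomial (Fin n × Fin (d + 1)) K)} [Q.IsPrime]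
    (hX : ∀ a : Fin n, X (a, Fin.last d) ∈ Q) (hf : ∀ i, ef K (d + 1) (e0 e i) ∈ Q) {ρ : ℕ}
    (hρ : ¬ Mi (mat K e d) (ct Q) (ρ + 1)) :
    dm Q + Fintype.card {i // 0 ∈ e i} + Fintype.card {i // ¬ 0 ∈ e i} ≤ n * d + ρ := by
  rw [dm_iff] at h
  have h1 := base_bound h (p := ct Q) (fun i => ef_mem_ct hX (he.e0.ne i) (hf i)) hρ
  have h2 := dm_ct Q hX
  rw [Fintype.card_prod, Fintype.card_fin, Fintype.card_fin] at h1
  omega

/-- **Key lemma**, homogeneous case -/
theorem key_hom {d : ℕ} (he : Cl e) (h : Dm K d e)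
    (p : Ideal (MvPolynomial (Fin n × Fin (d + 1)) K)) [hp : p.IsPrime] (hirr : p ≤ irr K _)
    (hf : ∀ i, ef K (d + 1) (e0 e i) ∈ p) (ρ : ℕ)
    (hρs : ρ < Fintype.card {i // 0 ∈ e i}) (hρ : ¬ Mi (mat K e (d + 1)) p (ρ + 1)) :
    dm p + Fintype.card {i // 0 ∈ e i} + Fintype.card {i // ¬ 0 ∈ e i} + 1 ≤
      n * d + n + ρ := by
  classical
  -- first cut
  obtain ⟨Q, hQp, hPQ, hsQ, -, hd⟩ := exists_prime_of_finset
    (Finset.univ.image fun a : Fin n => (X (a, Fin.last d) : MvPolynomial _ K)) p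
    (irr K _) hirr (by
      intro x hx
      obtain ⟨a, -, rfl⟩ := Finset.mem_image.1 hx
      exact X_mem_irr _)
  have hX : ∀ a : Fin n, X (a, Fin.last d) ∈ Q := fun a =>
    hsQ _ (Finset.mem_image_of_mem _ (Finset.mem_univ a))
  have hcard : (Finset.univ.image fun a : Fin n => (X (a, Fin.last d) : MvPolynomial (Fin n ×
      Fin (d + 1)) K)).card ≤ n :=
    Finset.card_image_le.trans (by rw [Finset.card_univ, Fintype.card_fin])
  have hfQ : ∀ i, ef K (d + 1) (e0 e i) ∈ Q := fun i => hPQ (hf i)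
  by_cases hmi : Mi (mat K e d) (ct Q) ρ
  · obtain ⟨r, c, hrc⟩ := hmi
    have hμ : ((mat K e (d + 1)).submatrix r (Fin.castSucc ∘ c)).det ∉ Q := by
      rw [← mat_ct]; exact hrc
    -- a row outside the minor
    obtain ⟨k, hk⟩ : ∃ k, ∀ i, r i ≠ k := by
      by_contra hcon
      push Not at hcon
      have := Fintype.card_le_of_surjective r hcon
      rw [Fintype.card_fin] at this
      omega
    have hdep := row_dep (mat K e (d + 1)) (fun h' => hμ (hPQ h')) hρ k (Fin.last d)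
    -- second cut
    obtain ⟨Q1, hQ1p, hPQ1, hsQ1, hQ1Q, hd1⟩ := exists_prime_of_finset
      ((e1 e k)ᶜ.image fun a : Fin n => (X (a, Fin.last d) : MvPolynomial _ K)) p Q hPQ (by
        intro x hx
        obtain ⟨a, -, rfl⟩ := Finset.mem_image.1 hx
        exact hX a)
    have hcard1 : ((e1 e k)ᶜ.image fun a : Fin n => (X (a, Fin.last d) : MvPolynomial (Fin n ×
        Fin (d + 1)) K)).card ≤ (e1 e k)ᶜ.card := Finset.card_image_le
    have hprod : ((mat K e (d + 1)).submatrix r (Fin.castSucc ∘ c)).det *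
        em K (e1 e k) (Fin.last d) ∈ Q1 := by
      have h1 := hPQ1 hdep
      have h2 : ∑ i, (∑ l, mat K e (d + 1) k ((Fin.castSucc ∘ c) l) *
          ((mat K e (d + 1)).submatrix r (Fin.castSucc ∘ c)).adjugate l i) *
          mat K e (d + 1) (r i) (Fin.last d) ∈ Q1 := by
        refine Ideal.sum_mem _ fun i _ => Ideal.mul_mem_left _ _ ?_
        have h3 : ¬ e1 e (r i) ⊆ e1 e k := fun h' => hk i (cl_e1 he h')
        obtain ⟨a, ha, ha'⟩ := Finset.not_subset.1 h3
        change em K (e1 e (r i)) (Fin.last d) ∈ Q1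
        rw [em, ← Finset.mul_prod_erase _ _ ha]
        exact Q1.mul_mem_right _ (hsQ1 _ (Finset.mem_image_of_mem _ (Finset.mem_compl.2 ha')))
      have h3 := Q1.add_mem h1 h2
      rw [sub_add_cancel] at h3
      exact h3
    have hem : em K (e1 e k) (Fin.last d) ∈ Q1 :=
      (hQ1p.mem_or_mem hprod).resolve_left fun h' => hμ (hQ1Q h')
    rw [em, hQ1p.prod_mem_iff] at hem
    obtain ⟨a0, ha0, ha0'⟩ := hem
    -- third cut
    obtain ⟨Q2, hQ2p, hQ1Q2, hsQ2, hQ2Q, hd2⟩ := exists_prime_of_finset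
      (((e1 e k).erase a0).image fun a : Fin n => (X (a, Fin.last d) : MvPolynomial _ K)) Q1 Q
      hQ1Q (by
        intro x hx
        obtain ⟨a, -, rfl⟩ := Finset.mem_image.1 hx
        exact hX a)
    have hcard2 : (((e1 e k).erase a0).image fun a : Fin n => (X (a, Fin.last d) :
        MvPolynomial (Fin n × Fin (d + 1)) K)).card ≤ ((e1 e k).erase a0).card :=
      Finset.card_image_le
    have hX2 : ∀ a : Fin n, X (a, Fin.last d) ∈ Q2 := by
      intro a
      by_cases ha : a ∈ e1 e k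
      · by_cases haa : a = a0
        · rw [haa]; exact hQ1Q2 ha0'
        · exact hsQ2 _ (Finset.mem_image_of_mem _ (Finset.mem_erase.2 ⟨haa, ha⟩))
      · exact hQ1Q2 (hsQ1 _ (Finset.mem_image_of_mem _ (Finset.mem_compl.2 ha)))
    have h4 := bound_ct he h (Q := Q2) hX2 (fun i => hQ1Q2 (hPQ1 (hf i))) (ρ := ρ)
      (not_mi_ct fun h' => hρ (h'.mono_ideal (hPQ1.trans hQ1Q2)))
    have h5 : ((e1 e k).erase a0).card + 1 = (e1 e k).card := Finset.card_erase_add_one ha0
    have h6 : (e1 e k)ᶜ.card + (e1 e k).card = n := by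
      rw [Finset.card_compl_add_card, Fintype.card_fin]
    omega
  · -- smaller rank
    have hρ0 : ρ ≠ 0 := by
      rintro rfl
      exact hmi (Mi.zero (Ideal.IsPrime.ne_top inferInstance))
    obtain ⟨ρ', rfl⟩ : ∃ ρ', ρ = ρ' + 1 := ⟨ρ - 1, by omega⟩
    have h1 := bound_ct he h (Q := Q) hX hfQ hmi
    omega

/-- **Key lemma** -/
theorem key {d : ℕ} (he : Cl e) (h : Dm K d e)
    (p : Ideal (MvPolynomial (Fin n × Fin (d + 1)) K)) (hp : p.IsPrime)
    (hf : ∀ i, ef K (d + 1) (e0 e i) ∈ p) (ρ : ℕ)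
    (hρs : ρ < Fintype.card {i // 0 ∈ e i}) (hρ : ¬ Mi (mat K e (d + 1)) p (ρ + 1)) :
    dm p + Fintype.card {i // 0 ∈ e i} + Fintype.card {i // ¬ 0 ∈ e i} + 1 ≤
      n * (d + 1) + ρ := by
  have hnd : n * (d + 1) = n * d + n := by ring
  have h1 := key_hom he h (hc p) (hc_le_irr p) (fun i => mem_hc (ef_hom _) (hf i)) ρ hρs (by
    rintro ⟨r, c, hrc⟩
    refine hρ ⟨r, c, fun h' => hrc ?_⟩
    exact mem_hc (det_hom (e := fun k => (e1 e k).card) (fun k j => em_hom _ _) r c) h')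
  have hdp := dm_le_of_le (hc_le p)
  omega

end key

/-- **Primality in one more column.** -/
theorem pr_succ {d : ℕ} : ∀ {n : ℕ} {I : Type} [Fintype I] {e : I → Finset (Fin n)}, Cl e →
    Dm K d e → Pr K (d + 1) e := by
  intro n
  induction n with
  | zero =>
    intro I _ e he _
    have : IsEmpty I := ⟨fun i => by
      obtain ⟨a, -⟩ := he.ne i
      exact a.elim0⟩
    rw [Pr, Set.range_eq_empty, Ideal.span_empty]
    exact Ideal.isPrime_bot
  | succ n ih =>
    intro I _ e he h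
    classical
    have h' := (dm_iff e d).1 h
    have hs : Fintype.card {i // 0 ∈ e i} ≤ d := by
      have := card_rows_le h' (hom_pos he.e0 d)
      rwa [Fintype.card_fin] at this
    have h0 : Dm K d (e0 e) := db_base h'
    rw [pr_iff]
    refine prime_of_linear _ _ (hom_pos he.e0 (d + 1)) (fun k => (e1 e k).card)
      (fun k j => em_hom _ _) (ih he.e0 h0) (dm_succ he.e0 h0)
      (generic_rank he (hs.trans (Nat.le_succ d)) le_rfl) ?_
    intro p hp hf ρ hρs hρ
    have := key he h p hp hf ρ hρs hρ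
    rwa [Fintype.card_prod, Fintype.card_fin, Fintype.card_fin]

/-- primality persists -/
theorem pr_of_pr {d : ℕ} (hd : 0 < d) {n : ℕ} {I : Type} [Fintype I] {e : I → Finset (Fin n)}
    (he : Cl e) (h : Pr K d e) : Pr K (d + 1) e := pr_succ he (dm_of_pr hd he h)

end Q37.Hyp
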