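import Pool.Agent.Q37.Dim.Section

/-!
# Dimensions of systems of linear equations over a polynomial ring
-/

set_option autoImplicit false
set_option linter.unusedSectionVars false

open MvPolynomial

namespace Q37.Dim

/-! ### towers -/

section tower

variable {K : Type} [Field K] {A B : Type} [CommRing A] [IsDomain A] [CommRing B] [Algebra K A]
  [Algebra K B] [Algebra B A] [IsScalarTower K B A] [Algebra.FiniteType K A]
  [Algebra.FiniteType K B]

lemma td_tower_le (hinj : Function.Injective (algebraMap B A)) (s : Finset A)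
    (hs : Algebra.IsAlgebraic (Algebra.adjoin B (s : Set A)) A) : td K A ≤ td K B + s.card := by
  have : FaithfulSMul B A := (faithfulSMul_iff_algebraMap_injective _ _).2 hinj
  have : Nontrivial B := (algebraMap B A).domain_nontrivial
  have : FaithfulSMul K B := (faithfulSMul_iff_algebraMap_injective _ _).2 (algebraMap K B).injective
  have h1 := trdeg_add_eq (R := K) (S := B) (A := A)
  have h2 := Algebra.IsAlgebraic.trdeg_le_cardinalMk B (s : Set A)
  apply td_le_of_le
  rw [← h1, Nat.cast_add, td_cast]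
  refine add_le_add le_rfl (h2.trans ?_)
  simp

lemma td_tower_ge (hinj : Function.Injective (algebraMap B A)) {n : ℕ} {x : Fin n → A}
    (hx : AlgebraicIndependent B x) : td K B + n ≤ td K A := by
  have : FaithfulSMul B A := (faithfulSMul_iff_algebraMap_injective _ _).2 hinj
  have : Nontrivial B := (algebraMap B A).domain_nontrivial
  have : FaithfulSMul K B := (faithfulSMul_iff_algebraMap_injective _ _).2 (algebraMap K B).injective
  have h1 := trdeg_add_eq (R := K) (S := B) (A := A)
  have h2 := hx.lift_cardinalMk_le_trdeg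
  rw [← td_cast, ← td_cast (A := A)] at h1
  have h3 : ((n : ℕ) : Cardinal) ≤ Algebra.trdeg B A := by simpa using h2
  have h4 : ((td K B + n : ℕ) : Cardinal) ≤ ((td K A : ℕ) : Cardinal) := by
    rw [← h1, Nat.cast_add]
    exact add_le_add le_rfl h3
  exact_mod_cast h4

end tower

/-! ### minors -/

section minors

variable {T : Type} [CommRing T] {s ι : Type}

/-- some minor of size `ρ` is not in `p` -/
def Mi (M : Matrix s ι T) (p : Ideal T) (ρ : ℕ) : Prop :=
  ∃ (r : Fin ρ → s) (c : Fin ρ → ι), (M.submatrix r c).det ∉ p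

lemma Mi.mono_ideal {M : Matrix s ι T} {p q : Ideal T} (h : p ≤ q) {ρ : ℕ} (hq : Mi M q ρ) :
    Mi M p ρ := by
  obtain ⟨r, c, hrc⟩ := hq
  exact ⟨r, c, fun h' => hrc (h h')⟩

lemma Mi.pred {M : Matrix s ι T} {p : Ideal T} {ρ : ℕ} (h : Mi M p (ρ + 1)) : Mi M p ρ := by
  by_contra hcon
  obtain ⟨r, c, hrc⟩ := h
  apply hrc
  rw [Matrix.det_succ_row_zero]
  refine Ideal.sum_mem _ fun j _ => Ideal.mul_mem_left _ _ ?_
  by_contra hj
  apply hcon
  refine ⟨r ∘ Fin.succ, c ∘ j.succAbove, ?_⟩
  rwa [Matrix.submatrix_submatrix] at hj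

lemma Mi.of_le {M : Matrix s ι T} {p : Ideal T} {ρ ρ' : ℕ} (hle : ρ ≤ ρ') (h : Mi M p ρ') :
    Mi M p ρ := by
  induction ρ', hle using Nat.le_induction with
  | base => exact h
  | succ n _ ih => exact ih h.pred

lemma Mi.zero {M : Matrix s ι T} {p : Ideal T} (hp : p ≠ ⊤) : Mi M p 0 := by
  refine ⟨Fin.elim0, Fin.elim0, ?_⟩
  rw [Matrix.det_fin_zero]
  exact (Ideal.ne_top_iff_one p).1 hp

lemma exists_max_Mi {M : Matrix s ι T} {p : Ideal T} (hp : p ≠ ⊤) (n : ℕ) :
    ∃ ρ ≤ n, Mi M p ρ ∧ (ρ = n ∨ ¬ Mi M p (ρ + 1)) := by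
  induction n with
  | zero => exact ⟨0, le_rfl, Mi.zero hp, Or.inl rfl⟩
  | succ n ih =>
    obtain ⟨ρ, hρ, h1, h2⟩ := ih
    rcases h2 with rfl | h2
    · by_cases h3 : Mi M p (ρ + 1)
      · exact ⟨ρ + 1, le_rfl, h3, Or.inl rfl⟩
      · exact ⟨ρ, Nat.le_succ ρ, h1, Or.inr h3⟩
    · exact ⟨ρ, Nat.le_succ_of_le hρ, h1, Or.inr h2⟩

lemma not_Mi_of_card_lt {M : Matrix s ι T} {p : Ideal T} {ρ : ℕ} [Fintype s]
    (h : Fintype.card s < ρ) : ¬ Mi M p ρ := by
  rintro ⟨r, c, hrc⟩
  apply hrc
  have : ¬ Function.Injective r := fun hr => by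
    have := Fintype.card_le_of_injective r hr
    rw [Fintype.card_fin] at this
    omega
  rw [Function.Injective] at this
  push Not at this
  obtain ⟨i, j, hij, hne⟩ := this
  rw [Matrix.det_zero_of_row_eq hne (by ext k; simp [hij])]
  exact p.zero_mem

end minors

/-! ### Cramer's rule with free variables -/

section cramer

variable {s ι : Type} [Fintype ι] [DecidableEq ι]

/-- the columns outside the minor -/
def free {ρ : ℕ} (c : Fin ρ → ι) : Finset ι := Finset.univ \ Finset.univ.image c

lemma mem_free {ρ : ℕ} {c : Fin ρ → ι} {j : ι} : j ∈ free c ↔ ∀ i, c i ≠ j := by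
  simp [free]

lemma card_free {ρ : ℕ} {c : Fin ρ → ι} (hc : Function.Injective c) :
    (free c).card + ρ = Fintype.card ι := by
  have h1 : (Finset.univ.image c).card = ρ := by
    rw [Finset.card_image_of_injective _ hc, Finset.card_univ, Fintype.card_fin]
  have h2 := Finset.card_sdiff_add_card_eq_card (Finset.subset_univ (Finset.univ.image c))
  rw [h1, Finset.card_univ] at h2
  exact h2

lemma sum_split {A : Type} [AddCommMonoid A] {ρ : ℕ} {c : Fin ρ → ι} (hc : Function.Injective c)
    (f : ι → A) : ∑ j, f j = ∑ i, f (c i) + ∑ j ∈ free c, f j := by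
  rw [free, ← Finset.sum_sdiff (Finset.subset_univ (Finset.univ.image c)), add_comm,
    Finset.sum_image (fun _ _ _ _ h => hc h)]

lemma injective_of_det_ne {A : Type} [CommRing A] {ρ : ℕ} {r : Fin ρ → s} {c : Fin ρ → ι}
    {M : Matrix s ι A} (h : (M.submatrix r c).det ≠ 0) : Function.Injective c := by
  by_contra hcon
  rw [Function.Injective] at hcon
  push Not at hcon
  obtain ⟨i, j, hij, hne⟩ := hcon
  exact h (Matrix.det_zero_of_column_eq hne (by intro k; simp [hij]))

/-- Cramer's rule -/
lemma cramer_free {A : Type} [CommRing A] {ρ : ℕ} {r : Fin ρ → s} {c : Fin ρ → ι}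
    (hc : Function.Injective c) (M : Matrix s ι A) (y : ι → A) (i : Fin ρ) :
    (M.submatrix r c).det * y (c i) =
      ∑ k, (M.submatrix r c).adjugate i k * (∑ j, M (r k) j * y j) -
      ∑ k, (M.submatrix r c).adjugate i k * ∑ j ∈ free c, M (r k) j * y j := by
  rw [← Finset.sum_sub_distrib]
  have h1 : ∀ k, (M.submatrix r c).adjugate i k * (∑ j, M (r k) j * y j) -
      (M.submatrix r c).adjugate i k * ∑ j ∈ free c, M (r k) j * y j =
      ∑ l, (M.submatrix r c).adjugate i k * (M.submatrix r c) k l * y (c l) := by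
    intro k
    rw [sum_split hc, mul_add, add_sub_cancel_right, Finset.mul_sum]
    exact Finset.sum_congr rfl fun l _ => by rw [Matrix.submatrix_apply, mul_assoc]
  rw [Finset.sum_congr rfl fun k _ => h1 k, Finset.sum_comm]
  have h2 : ∀ l, ∑ k, (M.submatrix r c).adjugate i k * (M.submatrix r c) k l * y (c l) =
      if i = l then (M.submatrix r c).det * y (c l) else 0 := by
    intro l
    rw [← Finset.sum_mul, ← Matrix.mul_apply, Matrix.adjugate_mul, Matrix.smul_apply,
      Matrix.one_apply, smul_eq_mul]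
    split_ifs <;> simp
  rw [Finset.sum_congr rfl fun l _ => h2 l]
  simp

end cramer

section upper

variable {K : Type} [Field K] {A B : Type} [CommRing A] [IsDomain A] [CommRing B] [Algebra K A]
  [Algebra K B] [Algebra B A] [IsScalarTower K B A] [Algebra.FiniteType K A]
  [Algebra.FiniteType K B] {s ι : Type} [Fintype ι]

/-- the dimension of a system of linear equations of rank at least `ρ` -/
theorem td_le_of_minor (hinj : Function.Injective (algebraMap B A)) (M : Matrix s ι B)
    (y : ι → A) (hy : Algebra.adjoin B (Set.range y) = ⊤)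
    (hM : ∀ k, ∑ j, algebraMap B A (M k j) * y j = 0) {ρ : ℕ} (r : Fin ρ → s) (c : Fin ρ → ι)
    (hrc : (M.submatrix r c).det ≠ 0) : td K A + ρ ≤ td K B + Fintype.card ι := by
  classical
  have hc := injective_of_det_ne hrc
  have hcard := card_free hc
  have hle : ((free c).image y).card ≤ (free c).card := Finset.card_image_le
  have halg : Algebra.IsAlgebraic (Algebra.adjoin B (((free c).image y : Finset A) : Set A)) A := by
    constructor
    intro a
    have : Nontrivial B := (algebraMap B A).domain_nontrivial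
    refine IsAlgebraic.adjoin_of_forall_isAlgebraic (s := Set.range y) ?_ ?_
    · rintro x ⟨⟨j, rfl⟩, hj⟩
      have hj' : j ∉ free c := fun h => hj (by
        rw [Finset.coe_image]; exact Set.mem_image_of_mem y h)
      rw [mem_free] at hj'
      push Not at hj'
      obtain ⟨i, rfl⟩ := hj'
      set D := Algebra.adjoin B (((free c).image y : Finset A) : Set A) with hD
      have h1 := cramer_free (r := r) hc (M.map (algebraMap B A)) y i
      have hdet : ((M.map (algebraMap B A)).submatrix r c).det =
          algebraMap B A (M.submatrix r c).det := (RingHom.map_det _ _).symm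
      have hadj : ((M.map (algebraMap B A)).submatrix r c).adjugate =
          (algebraMap B A).mapMatrix (M.submatrix r c).adjugate := (RingHom.map_adjugate _ _).symm
      have h2 : ∑ k, ((M.map (algebraMap B A)).submatrix r c).adjugate i k *
          ∑ j ∈ free c, (M.map (algebraMap B A)) (r k) j * y j ∈ D := by
        refine Subalgebra.sum_mem _ fun k _ => Subalgebra.mul_mem _ ?_ ?_
        · rw [hadj]
          exact Subalgebra.algebraMap_mem D _
        · refine Subalgebra.sum_mem _ fun j hj => Subalgebra.mul_mem _ ?_ ?_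
          · exact Subalgebra.algebraMap_mem D _
          · exact Algebra.subset_adjoin (by
              rw [Finset.coe_image]; exact Set.mem_image_of_mem y hj)
      have h3 : ∀ k, ∑ j, (M.map (algebraMap B A)) (r k) j * y j = 0 := fun k => hM (r k)
      simp only [h3, mul_zero, Finset.sum_const_zero, zero_sub] at h1
      have h4 : algebraMap B A (M.submatrix r c).det * y (c i) ∈ D := by
        rw [← hdet, h1]; exact Subalgebra.neg_mem _ h2
      refine ⟨Polynomial.C (algebraMap B D (M.submatrix r c).det) * Polynomial.X -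
        Polynomial.C ⟨_, h4⟩, ?_, ?_⟩
      · intro h0
        have h5 := congrArg (Polynomial.coeff · 1) h0
        simp only [Polynomial.coeff_sub, Polynomial.coeff_C_mul, Polynomial.coeff_X_one, mul_one,
          Polynomial.coeff_C_succ, sub_zero, Polynomial.coeff_zero] at h5
        have h6 := congrArg (algebraMap D A) h5
        rw [map_zero, ← IsScalarTower.algebraMap_apply] at h6
        exact hrc (hinj (by rw [h6, map_zero]))
      · simp only [map_sub, map_mul, Polynomial.aeval_C, Polynomial.aeval_X]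
        rw [← IsScalarTower.algebraMap_apply]
        exact sub_self _
    · rw [hy]
      exact isAlgebraic_algebraMap (⟨a, Algebra.mem_top⟩ : (⊤ : Subalgebra B A))
  have := td_tower_le (K := K) hinj _ halg
  omega

end upper

/-! ### polynomial rings -/

section poly

variable {K : Type} [Field K] {ι τ s : Type} [Fintype ι] [Fintype τ]

/-- the inclusion of the base ring -/
noncomputable def incl (K ι τ : Type) [Field K] : MvPolynomial τ K →+* MvPolynomial (ι ⊕ τ) K :=
  (rename Sum.inr : MvPolynomial τ K →ₐ[K] MvPolynomial (ι ⊕ τ) K).toRingHom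

lemma incl_apply (f : MvPolynomial τ K) : incl K ι τ f = rename Sum.inr f := rfl

lemma incl_X (t : τ) : incl K ι τ (X t) = X (Sum.inr t) := rename_X _ _

lemma incl_C (x : K) : incl K ι τ (C x) = C x := rename_C _ _

/-- the contraction to the base ring -/
noncomputable def dn (P : Ideal (MvPolynomial (ι ⊕ τ) K)) : Ideal (MvPolynomial τ K) :=
  P.comap (incl K ι τ)

instance dn_prime (P : Ideal (MvPolynomial (ι ⊕ τ) K)) [P.IsPrime] : (dn P).IsPrime :=
  Ideal.comap_isPrime _ _

lemma mem_dn {P : Ideal (MvPolynomial (ι ⊕ τ) K)} {f : MvPolynomial τ K} :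
    f ∈ dn P ↔ incl K ι τ f ∈ P := Iff.rfl

/-- the linear form with coefficients in the row `k` of `M` -/
noncomputable def lf (M : Matrix s ι (MvPolynomial τ K)) (k : s) : MvPolynomial (ι ⊕ τ) K :=
  ∑ j, incl K ι τ (M k j) * X (Sum.inl j)

/-- the map of quotients -/
noncomputable def qmap (P : Ideal (MvPolynomial (ι ⊕ τ) K)) :
    (MvPolynomial τ K ⧸ dn P) →+* (MvPolynomial (ι ⊕ τ) K ⧸ P) :=
  Ideal.quotientMap P (incl K ι τ) le_rfl

lemma qmap_inj (P : Ideal (MvPolynomial (ι ⊕ τ) K)) : Function.Injective (qmap P) :=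
  Ideal.quotientMap_injective

lemma qmap_mk (P : Ideal (MvPolynomial (ι ⊕ τ) K)) (f : MvPolynomial τ K) :
    qmap P (Ideal.Quotient.mk _ f) = Ideal.Quotient.mk P (incl K ι τ f) := rfl

/-- **Upper bound**: linear equations of rank at least `ρ`. -/
theorem dm_le_of_minor {P : Ideal (MvPolynomial (ι ⊕ τ) K)} [P.IsPrime]
    (M : Matrix s ι (MvPolynomial τ K)) (hM : ∀ k, lf M k ∈ P) {ρ : ℕ}
    (hMi : Mi M (dn P) ρ) : dm P + ρ ≤ dm (dn P) + Fintype.card ι := by
  obtain ⟨r, c, hrc⟩ := hMi
  let : Algebra (MvPolynomial τ K ⧸ dn P) (MvPolynomial (ι ⊕ τ) K ⧸ P) := (qmap P).toAlgebra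
  have halg : ∀ x, algebraMap (MvPolynomial τ K ⧸ dn P) (MvPolynomial (ι ⊕ τ) K ⧸ P) x =
    qmap P x := fun x => rfl
  have hst := IsScalarTower.of_algebraMap_eq (R := K) (S := MvPolynomial τ K ⧸ dn P)
    (A := MvPolynomial (ι ⊕ τ) K ⧸ P) fun x => by
      change Ideal.Quotient.mk P (C x) = qmap P (Ideal.Quotient.mk _ (C x))
      rw [qmap_mk, incl_C]
  refine td_le_of_minor (K := K) (qmap_inj P) (M.map (Ideal.Quotient.mk (dn P)))
    (fun j => Ideal.Quotient.mk P (X (Sum.inl j))) ?_ ?_ r c ?_
  · rw [eq_top_iff]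
    rintro a -
    obtain ⟨f, rfl⟩ := Ideal.Quotient.mk_surjective a
    induction f using MvPolynomial.induction_on with
    | C x =>
      have : Ideal.Quotient.mk P (C x) = algebraMap (MvPolynomial τ K ⧸ dn P)
          (MvPolynomial (ι ⊕ τ) K ⧸ P) (Ideal.Quotient.mk _ (C x)) := by
        rw [halg, qmap_mk, incl_C]
      rw [this]
      exact Subalgebra.algebraMap_mem _ _
    | add f g hf hg => rw [map_add]; exact Subalgebra.add_mem _ hf hg
    | mul_X f v hf =>
      rw [map_mul]
      refine Subalgebra.mul_mem _ hf ?_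
      rcases v with j | t
      · exact Algebra.subset_adjoin ⟨j, rfl⟩
      · have : Ideal.Quotient.mk P (X (Sum.inr t)) = algebraMap
          (MvPolynomial τ K ⧸ dn P) (MvPolynomial (ι ⊕ τ) K ⧸ P)
          (Ideal.Quotient.mk _ (X t)) := by
          rw [halg, qmap_mk, incl_X]
        rw [this]
        exact Subalgebra.algebraMap_mem _ _
  · intro k
    have := Ideal.Quotient.eq_zero_iff_mem.2 (hM k)
    rw [lf, map_sum] at this
    rw [← this]
    refine Finset.sum_congr rfl fun j _ => ?_
    rw [map_mul]; rfl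
  · intro h
    apply hrc
    rw [← Ideal.Quotient.eq_zero_iff_mem, RingHom.map_det]
    exact h

end poly

end Q37.Dim
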