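import Pool.Agent.Q37.Dim.Degen
import Pool.Agent.Q37.Dim.HyperCI

/-!
# Positive matching decompositions
-/

set_option autoImplicit false
set_option linter.unusedSectionVars false

open MvPolynomial

namespace Q37.Dim

variable {K : Type} [Field K] {σ : Type} [Finite σ]

/-- initial forms of sums of two weighted homogeneous polynomials -/
theorem exists_degeneration' (P : Ideal (MvPolynomial σ K)) [P.IsPrime] (k : σ → ℕ)
    (hk : ∀ x, 0 < k x) : ∃ Q : Ideal (MvPolynomial σ K), Q.IsPrime ∧ Q ≤ irr K σ ∧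
      dm P ≤ dm Q ∧ ∀ (a b : MvPolynomial σ K) (W c : ℕ), c < W → a.IsWeightedHomogeneous k W →
        b.IsWeightedHomogeneous k c → a + b ∈ P → a ∈ Q := by
  classical
  obtain ⟨Q, h1, h2, h3, h4⟩ := exists_degeneration P k hk
  refine ⟨Q, h1, h2, h3, ?_⟩
  intro a b W c hcW ha hb hab
  have h5 := h4 _ hab W (by
    intro m hm
    rcases Finset.mem_union.1 (support_add hm) with hm | hm
    · exact (ha (mem_support_iff.1 hm)).le
    · exact (hb (mem_support_iff.1 hm)).le.trans hcW.le)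
  rwa [map_add, weightedHomogeneousComponent_eq_self ha, weightedHomogeneousComponent_of_mem
    ((mem_weightedHomogeneousSubmodule _ _ _ _).2 hb), if_neg hcW.ne', add_zero] at h5

end Q37.Dim

namespace Q37.Hyp

open Q37.Dim

variable {K : Type} [Field K] {n : ℕ}

lemma em_whom {d : ℕ} (k : Fin n × Fin d → ℕ) (A : Finset (Fin n)) (j : Fin d) :
    (em K A j).IsWeightedHomogeneous k (∑ a ∈ A, k (a, j)) := by
  rw [em_eq]
  have h := isWeightedHomogeneous_monomial (R := K) k (mo A j) 1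
    (m := ∑ a ∈ A, k (a, j)) (by
      rw [mo, map_sum]
      refine Finset.sum_congr rfl fun a _ => ?_
      rw [Finsupp.weight_single, one_smul])
  exact h

/-- one step of the decomposition -/
theorem dm_step {d : ℕ} {E M : Finset (Finset (Fin n))} (hME : M ⊆ E)
    (hne : ∀ A ∈ E, A.Nonempty) (hdis : ∀ A ∈ M, ∀ B ∈ M, A ≠ B → Disjoint A B) (w : Fin n → ℤ)
    (hw1 : ∀ A ∈ M, 0 < ∑ i ∈ A, w i) (hw2 : ∀ A ∈ E, A ∉ M → ∑ i ∈ A, w i < 0)
    (h : ∀ P : Ideal (MvPolynomial (Fin n × Fin d) K), P.IsPrime →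
      (∀ A ∈ E \ M, ef K d A ∈ P) → dm P + (E \ M).card ≤ n * d)
    (P : Ideal (MvPolynomial (Fin n × Fin (d + 1)) K)) (hP : P.IsPrime)
    (hle : ∀ A ∈ E, ef K (d + 1) A ∈ P) : dm P + E.card ≤ n * (d + 1) := by
  classical
  -- the weights
  let N : ℤ := 1 + ∑ i, |w i|
  have hN : ∀ i, 0 < N + w i := by
    intro i
    have h1 : |w i| ≤ ∑ i, |w i| := Finset.single_le_sum (f := fun i => |w i|)
      (fun i _ => abs_nonneg _) (Finset.mem_univ i)
    have h2 := neg_abs_le (w i)
    show 0 < 1 + ∑ i, |w i| + w i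
    linarith
  have hN0 : 0 < N := by
    have : 0 ≤ ∑ i, |w i| := Finset.sum_nonneg fun i _ => abs_nonneg _
    show 0 < 1 + ∑ i, |w i|
    linarith
  let k : Fin n × Fin (d + 1) → ℕ := fun x => if x.2 = Fin.last d then (N + w x.1).toNat else N.toNat
  have hk1 : ∀ a, ((k (a, Fin.last d) : ℕ) : ℤ) = N + w a := by
    intro a
    have : k (a, Fin.last d) = (N + w a).toNat := if_pos rfl
    rw [this]
    exact Int.toNat_of_nonneg (hN a).le
  have hk2 : ∀ a (j : Fin d), ((k (a, j.castSucc) : ℕ) : ℤ) = N := by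
    intro a j
    have : k (a, j.castSucc) = N.toNat := if_neg (Fin.castSucc_lt_last j).ne
    rw [this]
    exact Int.toNat_of_nonneg hN0.le
  have hk : ∀ x, 0 < k x := by
    rintro ⟨a, j⟩
    refine Fin.lastCases ?_ (fun j => ?_) j
    · have := hk1 a
      have := hN a
      omega
    · have := hk2 a j
      omega
  obtain ⟨Q, hQp, hQirr, hdQ, hQ⟩ := exists_degeneration' P k hk
  -- weights of the two parts
  have hs1 : ∀ A : Finset (Fin n), ((∑ a ∈ A, k (a, Fin.last d) : ℕ) : ℤ) =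
      A.card * N + ∑ a ∈ A, w a := by
    intro A
    rw [Nat.cast_sum, Finset.sum_congr rfl fun a _ => hk1 a, Finset.sum_add_distrib,
      Finset.sum_const, nsmul_eq_mul]
  have hs2 : ∀ A : Finset (Fin n), ∀ j : Fin d, ∑ a ∈ A, k (a, j.castSucc) =
      (A.card * N).toNat := by
    intro A j
    zify
    rw [Int.toNat_of_nonneg (by positivity), Finset.sum_congr rfl fun a _ => hk2 a j,
      Finset.sum_const, nsmul_eq_mul]
  have hw3 : ∀ A : Finset (Fin n), (rename (cs n d) (ef K d A)).IsWeightedHomogeneous k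
      (A.card * N).toNat := by
    intro A
    rw [ef, map_sum]
    refine Submodule.sum_mem (weightedHomogeneousSubmodule K k _) fun j _ => ?_
    rw [rename_cs_em, mem_weightedHomogeneousSubmodule, ← hs2 A j]
    exact em_whom k A _
  have hQ1 : ∀ A ∈ M, em K A (Fin.last d) ∈ Q := by
    intro A hA
    refine hQ (em K A (Fin.last d)) (rename (cs n d) (ef K d A)) _ _ ?_ (em_whom k A _) (hw3 A) ?_
    · have h1 := hs1 A
      have h2 := hw1 A hA
      zify
      rw [← Nat.cast_sum, h1, Int.toNat_of_nonneg (by positivity)]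
      linarith
    · have h3 : rename (cs n d) (ef K d A) + em K A (Fin.last d) ∈ P := by
        rw [← rename_cs_ef]; exact hle A (hME hA)
      rwa [add_comm (rename (cs n d) (ef K d A))] at h3
  have hQ2 : ∀ A ∈ E \ M, ef K d A ∈ ct Q := by
    intro A hA
    rw [Finset.mem_sdiff] at hA
    refine hQ (rename (cs n d) (ef K d A)) (em K A (Fin.last d)) _ _ ?_ (hw3 A) (em_whom k A _) ?_
    · have h1 := hs1 A
      have h2 := hw2 A hA.1 hA.2
      zify
      rw [← Nat.cast_sum, h1, Int.toNat_of_nonneg (by positivity)]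
      linarith
    · rw [← rename_cs_ef]
      exact hle A hA.1
  -- one variable for each edge of the matching
  have hex : ∀ A : M, ∃ a ∈ (A : Finset (Fin n)), (X (a, Fin.last d) : MvPolynomial _ K) ∈ Q := by
    rintro ⟨A, hA⟩
    have h1 := hQ1 A hA
    rw [em, hQp.prod_mem_iff] at h1
    exact h1
  choose v hv hvQ using hex
  have hvinj : Function.Injective v := by
    intro A B hAB
    by_contra hne'
    have h1 := hdis A A.2 B B.2 (fun h' => hne' (Subtype.ext h'))
    exact Finset.disjoint_left.1 h1 (hv A) (hAB ▸ hv B)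
  -- restrict to the remaining variables
  let R : Finset (Fin n) := (Finset.univ.image v)ᶜ
  have hR : R.card + M.card = n := by
    have h1 : (Finset.univ.image v).card = M.card := by
      rw [Finset.card_image_of_injective _ hvinj, Finset.card_univ, Fintype.card_coe]
    rw [← h1, Finset.card_compl_add_card, Fintype.card_fin]
  let g : R ⊕ (Fin n × Fin d) → Fin n × Fin (d + 1) :=
    Sum.elim (fun a => ((a : Fin n), Fin.last d)) (cs n d)
  have hg := dm_le_comap_rename g Q (by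
    rintro ⟨a, j⟩
    refine Fin.lastCases ?_ (fun j => Or.inl ⟨Sum.inr (a, j), rfl⟩) j
    by_cases ha : a ∈ R
    · exact Or.inl ⟨Sum.inl ⟨a, ha⟩, rfl⟩
    · right
      rw [Finset.mem_compl, not_not] at ha
      obtain ⟨A, -, rfl⟩ := Finset.mem_image.1 ha
      exact hvQ A)
  set Q' : Ideal (MvPolynomial (R ⊕ (Fin n × Fin d)) K) :=
    Q.comap (rename g : MvPolynomial _ K →ₐ[K] _) with hQ'
  have hQ'p : Q'.IsPrime := Ideal.comap_isPrime _ _
  have hdn : dn Q' = ct Q := by
    ext f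
    rw [mem_dn, hQ', Ideal.mem_comap, mem_ct, incl_apply, rename_rename]
    rfl
  have h2 := dm_le_of_minor (P := Q') (fun (k : Empty) (_ : R) => k.elim) (fun k => k.elim)
    (Mi.zero (Ideal.IsPrime.ne_top inferInstance))
  rw [hdn, Fintype.card_coe] at h2
  have h3 := h (ct Q) inferInstance hQ2
  have h4 : (E \ M).card + M.card = E.card := Finset.card_sdiff_add_card_eq_card hME
  have h5 : n * (d + 1) = n * d + n := by ring
  omega

/-- integral weights -/
lemma exists_int_weights {E M : Finset (Finset (Fin n))}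
    (w : Fin n → ℝ) (hw1 : ∀ A ∈ M, 0 < ∑ i ∈ A, w i)
    (hw2 : ∀ A ∈ E, A ∉ M → ∑ i ∈ A, w i < 0) :
    ∃ w' : Fin n → ℤ, (∀ A ∈ M, 0 < ∑ i ∈ A, w' i) ∧
      (∀ A ∈ E, A ∉ M → ∑ i ∈ A, w' i < 0) := by
  have h1 : ∀ᶠ N : ℕ in Filter.atTop, ∀ A ∈ M, (n : ℝ) < N * ∑ i ∈ A, w i := by
    rw [Filter.eventually_all_finset]
    intro A hA
    have h2 := (tendsto_natCast_atTop_atTop (R := ℝ)).atTop_mul_const (hw1 A hA)
    exact h2.eventually_gt_atTop _
  obtain ⟨N, hN, hN0⟩ := (h1.and (Filter.eventually_gt_atTop 0)).exists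
  refine ⟨fun i => ⌊(N : ℝ) * w i⌋, ?_, ?_⟩
  · intro A hA
    have h3 : ∑ i ∈ A, ((N : ℝ) * w i - 1) < ∑ i ∈ A, ((⌊(N : ℝ) * w i⌋ : ℤ) : ℝ) ∨ A = ∅ := by
      rcases A.eq_empty_or_nonempty with rfl | hne
      · exact Or.inr rfl
      · exact Or.inl (Finset.sum_lt_sum_of_nonempty hne fun i _ => Int.sub_one_lt_floor _)
    rcases h3 with h3 | rfl
    · have h4 : (A.card : ℝ) ≤ n := by
        have := A.card_le_univ
        rw [Fintype.card_fin] at this
        exact_mod_cast this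
      rw [Finset.sum_sub_distrib, ← Finset.mul_sum, Finset.sum_const, nsmul_eq_mul, mul_one] at h3
      have h5 := hN A hA
      have h6 : (0 : ℝ) < ((∑ i ∈ A, ⌊(N : ℝ) * w i⌋ : ℤ) : ℝ) := by
        rw [Int.cast_sum]; linarith
      exact_mod_cast h6
    · have := hw1 ∅ hA
      simp at this
  · intro A hA hA'
    have h3 : ((∑ i ∈ A, ⌊(N : ℝ) * w i⌋ : ℤ) : ℝ) ≤ N * ∑ i ∈ A, w i := by
      rw [Int.cast_sum, Finset.mul_sum]
      exact Finset.sum_le_sum fun i _ => Int.floor_le _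
    have h4 : (N : ℝ) * ∑ i ∈ A, w i < 0 :=
      mul_neg_of_pos_of_neg (by exact_mod_cast hN0) (hw2 A hA hA')
    have h5 := h3.trans_lt h4
    exact_mod_cast h5

/-- decompositions -/
def HasDec : ℕ → Finset (Finset (Fin n)) → Prop
  | 0, E => E = ∅
  | p + 1, E => ∃ M : Finset (Finset (Fin n)), (M ⊆ E ∧
      (∀ A ∈ M, ∀ B ∈ M, A ≠ B → Disjoint A B) ∧ ∃ w : Fin n → ℝ, (∀ A ∈ M, 0 < ∑ i ∈ A, w i) ∧
        (∀ A ∈ E, A ∉ M → ∑ i ∈ A, w i < 0)) ∧ HasDec p (E \ M)

theorem dm_of_dec (p : ℕ) : ∀ E : Finset (Finset (Fin n)), (∀ A ∈ E, A.Nonempty) →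
    HasDec p E → ∀ P : Ideal (MvPolynomial (Fin n × Fin p) K), P.IsPrime →
      (∀ A ∈ E, ef K p A ∈ P) → dm P + E.card ≤ n * p := by
  induction p with
  | zero =>
    intro E _ hE P _ _
    rw [HasDec] at hE
    subst hE
    have := dm_le_card P
    rw [Nat.card_eq_fintype_card, Fintype.card_prod, Fintype.card_fin, Fintype.card_fin] at this
    simpa using this
  | succ p ih =>
    intro E hne hE P hP hle
    obtain ⟨M, ⟨hME, hdis, w, hw1, hw2⟩, hM⟩ := hE
    obtain ⟨w', hw1', hw2'⟩ := exists_int_weights w hw1 hw2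
    exact dm_step hME hne hdis w' hw1' hw2'
      (fun Q hQ hQ' => ih _ (fun A hA => hne A (Finset.mem_sdiff.1 hA).1) hM Q hQ hQ') P hP hle

theorem dm_of_dec' {p d : ℕ} (hpd : p ≤ d) {E : Finset (Finset (Fin n))}
    (hne : ∀ A ∈ E, A.Nonempty) (hcl : ∀ A ∈ E, ∀ B ∈ E, A ⊆ B → A = B) (h : HasDec p E) :
    Dm K d (fun i : E => (i : Finset (Fin n))) := by
  have he : Cl (fun i : E => (i : Finset (Fin n))) :=
    ⟨fun i => hne i i.2, fun i j hij => Subtype.ext (hcl i i.2 j j.2 hij)⟩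
  induction d, hpd using Nat.le_induction with
  | base =>
    intro P hP hle
    have := dm_of_dec (K := K) p E hne h P hP fun A hA => hle ⟨A, hA⟩
    rw [Fintype.card_coe, Fintype.card_prod, Fintype.card_fin, Fintype.card_fin]
    exact this
  | succ m _ ih => exact dm_succ he ih

end Q37.Hyp
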