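import Pool.Agent.Q37.Dim.Basic

/-!
# Dimensions of primes of polynomial rings over a field
-/

set_option autoImplicit false

open MvPolynomial

namespace Q37.Dim

variable {K : Type} [Field K] {σ : Type} [Finite σ]

/-- the dimension of the quotient by a prime -/
noncomputable def dm (P : Ideal (MvPolynomial σ K)) : ℕ := td K (MvPolynomial σ K ⧸ P)

lemma dm_le_of_le {P Q : Ideal (MvPolynomial σ K)} (h : P ≤ Q) : dm Q ≤ dm P :=
  td_le_of_surjective (Ideal.Quotient.factorₐ K h) (Ideal.Quotient.factor_surjective h)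

lemma dm_lt_of_lt {P Q : Ideal (MvPolynomial σ K)} [P.IsPrime] [Q.IsPrime] (h : P < Q) :
    dm Q < dm P := by
  have hQ' : (Q.map (Ideal.Quotient.mk P)).IsPrime :=
    Ideal.map_isPrime_of_surjective Ideal.Quotient.mk_surjective
      (by rw [Ideal.mk_ker]; exact h.le)
  have hne : Q.map (Ideal.Quotient.mk P) ≠ ⊥ := by
    intro hbot
    obtain ⟨x, hxQ, hxP⟩ := SetLike.exists_of_lt h
    have h1 : Ideal.Quotient.mk P x ∈ Q.map (Ideal.Quotient.mk P) := Ideal.mem_map_of_mem _ hxQ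
    rw [hbot, Ideal.mem_bot, Ideal.Quotient.eq_zero_iff_mem] at h1
    exact hxP h1
  have h1 := td_quotient_lt (K := K) (Q.map (Ideal.Quotient.mk P)) hne
  have h2 : td K ((MvPolynomial σ K ⧸ P) ⧸ Q.map (Ideal.Quotient.mk P)) = dm Q :=
    td_congr (DoubleQuot.quotQuotEquivQuotOfLEₐ K h.le)
  rw [h2] at h1
  exact h1

lemma eq_of_le_of_dm_le {P Q : Ideal (MvPolynomial σ K)} [P.IsPrime] [Q.IsPrime] (h : P ≤ Q)
    (h' : dm P ≤ dm Q) : P = Q := by
  by_contra hne
  have := dm_lt_of_lt (lt_of_le_of_ne h hne)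
  omega

lemma dm_bot : dm (⊥ : Ideal (MvPolynomial σ K)) = Nat.card σ := by
  have h1 : dm (⊥ : Ideal (MvPolynomial σ K)) = td K (MvPolynomial σ K) :=
    td_congr (AlgEquiv.quotientBot K _)
  rw [h1, td, MvPolynomial.trdeg_of_isDomain]
  simp [Nat.card]

lemma dm_le_card (P : Ideal (MvPolynomial σ K)) : dm P ≤ Nat.card σ := by
  rw [← dm_bot (K := K)]
  exact dm_le_of_le bot_le

/-- one equation -/
lemma dm_le_of_minimal {P Q : Ideal (MvPolynomial σ K)} [P.IsPrime] {a : MvPolynomial σ K}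
    (hQ : Q ∈ (P ⊔ Ideal.span {a}).minimalPrimes) : dm P ≤ dm Q + 1 := by
  have hQp : Q.IsPrime := hQ.1.1
  have hPQ : P ≤ Q := le_sup_left.trans hQ.1.2
  have h1 : Q.map (Ideal.Quotient.mk P) ∈
      (Ideal.span {Ideal.Quotient.mk P a}).minimalPrimes := by
    have h2 : Ideal.span {Ideal.Quotient.mk P a} =
        (P ⊔ Ideal.span {a}).map (Ideal.Quotient.mk P) := by
      rw [Ideal.map_sup, Ideal.map_quotient_self, bot_sup_eq, Ideal.map_span,
        Set.image_singleton]
    rw [h2, Ideal.minimalPrimes_map_of_surjective Ideal.Quotient.mk_surjective, Ideal.mk_ker]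
    refine ⟨Q, ?_, rfl⟩
    rwa [sup_eq_left.2 (le_sup_left : P ≤ P ⊔ Ideal.span {a})]
  have h2 := td_le_of_minimal (K := K) _ h1
  have h3 : td K ((MvPolynomial σ K ⧸ P) ⧸ Q.map (Ideal.Quotient.mk P)) = dm Q :=
    td_congr (DoubleQuot.quotQuotEquivQuotOfLEₐ K hPQ)
  rw [h3] at h2
  exact h2

/-- several equations, inside a given prime -/
lemma exists_prime_of_finset (s : Finset (MvPolynomial σ K)) :
    ∀ (P M : Ideal (MvPolynomial σ K)) [P.IsPrime] [M.IsPrime], P ≤ M → (∀ x ∈ s, x ∈ M) →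
    ∃ Q : Ideal (MvPolynomial σ K), Q.IsPrime ∧ P ≤ Q ∧ (∀ x ∈ s, x ∈ Q) ∧ Q ≤ M ∧
      dm P ≤ dm Q + s.card := by
  classical
  induction s using Finset.induction_on with
  | empty => intro P M _ _ h _; exact ⟨P, inferInstance, le_rfl, by simp, h, by simp⟩
  | insert a s ha ih =>
    intro P M _ _ h hs
    obtain ⟨Q, hQp, hPQ, hsQ, hQM, hd⟩ := ih P M h fun x hx => hs x (Finset.mem_insert_of_mem hx)
    have hle : Q ⊔ Ideal.span {a} ≤ M := by
      refine sup_le hQM ?_
      rw [Ideal.span_le, Set.singleton_subset_iff]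
      exact hs a (Finset.mem_insert_self a s)
    obtain ⟨Q', hQ', hQ'M⟩ := Ideal.exists_minimalPrimes_le hle
    have hQQ' : Q ≤ Q' := le_sup_left.trans hQ'.1.2
    refine ⟨Q', hQ'.1.1, hPQ.trans hQQ', ?_, hQ'M, ?_⟩
    · intro x hx
      rcases Finset.mem_insert.1 hx with rfl | hx
      · exact hQ'.1.2 (Ideal.mem_sup_right (Ideal.mem_span_singleton_self x))
      · exact hQQ' (hsQ x hx)
    · have := dm_le_of_minimal hQ'
      rw [Finset.card_insert_of_notMem ha]
      omega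

/-! ### homogeneous ideals -/

/-- the irrelevant ideal -/
noncomputable def irr (K σ : Type) [Field K] : Ideal (MvPolynomial σ K) :=
  RingHom.ker (constantCoeff : MvPolynomial σ K →+* K)

instance : (irr K σ).IsPrime := RingHom.ker_isPrime _

lemma X_mem_irr (i : σ) : (X i : MvPolynomial σ K) ∈ irr K σ := by
  rw [irr, RingHom.mem_ker, constantCoeff_X]

attribute [local instance] MvPolynomial.gradedAlgebra

/-- homogeneous core -/
noncomputable def hc (P : Ideal (MvPolynomial σ K)) : Ideal (MvPolynomial σ K) :=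
  (P.homogeneousCore (homogeneousSubmodule σ K)).toIdeal

lemma hc_le (P : Ideal (MvPolynomial σ K)) : hc P ≤ P := Ideal.toIdeal_homogeneousCore_le _ P

instance hc_prime (P : Ideal (MvPolynomial σ K)) [h : P.IsPrime] : (hc P).IsPrime :=
  h.homogeneousCore

lemma hc_comp {P : Ideal (MvPolynomial σ K)} {f : MvPolynomial σ K} (h : f ∈ hc P) (n : ℕ) :
    homogeneousComponent n f ∈ hc P :=
  homogeneousComponent_mem_of_mem (P.homogeneousCore (homogeneousSubmodule σ K)).isHomogeneous h n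

lemma mem_hc {P : Ideal (MvPolynomial σ K)} {f : MvPolynomial σ K} {d : ℕ}
    (hf : f.IsHomogeneous d) (h : f ∈ P) : f ∈ hc P :=
  Ideal.mem_homogeneousCore_of_homogeneous_of_mem ⟨d, hf⟩ h

lemma span_le_hc {P : Ideal (MvPolynomial σ K)} {s : Set (MvPolynomial σ K)}
    (hs : ∀ f ∈ s, ∃ d, f.IsHomogeneous d) (h : ∀ f ∈ s, f ∈ P) : Ideal.span s ≤ hc P := by
  rw [Ideal.span_le]
  intro f hf
  obtain ⟨d, hd⟩ := hs f hf
  exact mem_hc hd (h f hf)

lemma hc_le_irr (P : Ideal (MvPolynomial σ K)) [P.IsPrime] : hc P ≤ irr K σ := by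
  intro f hf
  rw [irr, RingHom.mem_ker]
  by_contra hne
  have h1 := hc_comp hf 0
  rw [homogeneousComponent_zero] at h1
  apply (hc_prime P).ne_top
  rw [Ideal.eq_top_iff_one]
  have h2 := (hc P).mul_mem_left (C (constantCoeff f)⁻¹) h1
  rwa [← C_mul, show coeff 0 f = constantCoeff f from rfl, inv_mul_cancel₀ hne, C_1] at h2

end Q37.Dim
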