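import Pool.Agent.Q37.Dim.Prime
import Pool.Agent.TH144.MB.Reg

/-!
# Linear sections, and regular sequences from dimensions

`reg_of_dim`: over an algebraically closed field, forms `f_1, …, f_r` of positive degree such that
all primes containing them have dimension at most `#σ - r` form a regular sequence.
-/

set_option autoImplicit false

open MvPolynomial

namespace Q37.Dim

open Pool.Agent.TH144.MB

variable {K : Type} [Field K] {σ : Type} [Fintype σ]

lemma dm_irr : dm (irr K σ) = 0 := by
  let φ : MvPolynomial σ K →ₐ[K] K := aeval (fun _ => (0 : K))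
  have hφ : Function.Surjective φ := fun c => ⟨C c, by simp [φ]⟩
  have hker : irr K σ = RingHom.ker φ := by
    ext f
    rw [irr, RingHom.mem_ker, RingHom.mem_ker]
    have : φ f = constantCoeff f := by
      simp only [φ]
      exact aeval_zero' f
    rw [this]
  have h2 : dm (irr K σ) = td K K := by
    rw [dm, hker]
    exact td_congr (Ideal.quotientKerAlgEquivOfSurjective hφ)
  rw [h2]
  apply Nat.le_zero.1
  apply td_le_of_le
  rw [trdeg_eq_zero]
  simp

lemma le_hc_of_hom {I P : Ideal (MvPolynomial σ K)} (hI : Hom I) (h : I ≤ P) : I ≤ hc P := by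
  intro p hp
  rw [← sum_homogeneousComponent p]
  exact Ideal.sum_mem _ fun n _ => mem_hc (homogeneousComponent_isHomogeneous n p) (h (hI p hp n))

lemma one_le_dm {P : Ideal (MvPolynomial σ K)} [P.IsPrime] (h : P ≤ irr K σ) {i : σ}
    (hi : X i ∉ P) : 1 ≤ dm P := by
  have hlt : P < irr K σ := lt_of_le_of_ne h fun he => hi (he ▸ X_mem_irr i)
  have := dm_lt_of_lt hlt
  omega

/-- **Linear sections.** A homogeneous ideal all of whose primes have dimension at most `m` has only
the trivial zero on a suitable linear subspace of codimension `m`. -/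
theorem exists_lins [Infinite K] (m : ℕ) : ∀ I : Ideal (MvPolynomial σ K), Hom I →
    (∀ P : Ideal (MvPolynomial σ K), P.IsPrime → I ≤ P → dm P ≤ m) →
    ∃ ls : List (σ → K), ls.length = m ∧ ∀ v : σ → K, (∀ a ∈ ls, eval v (lin a) = 0) →
      (∀ p ∈ I, eval v p = 0) → v = 0 := by
  classical
  induction m with
  | zero =>
    intro I hI hd
    refine ⟨[], rfl, fun v _ hv => ?_⟩
    by_contra hne
    obtain ⟨i, hi⟩ := Function.ne_iff.1 hne
    have hker : (RingHom.ker (eval v)).IsPrime := RingHom.ker_isPrime _
    have h1 : I ≤ hc (RingHom.ker (eval v)) := le_hc_of_hom hI fun p hp => hv p hp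
    have h2 := hd _ (hc_prime _) h1
    have h3 : X i ∉ hc (RingHom.ker (eval v)) := fun h => by
      have := hc_le _ h
      rw [RingHom.mem_ker, eval_X] at this
      exact hi this
    have h4 := one_le_dm (hc_le_irr _) h3
    omega
  | succ m ih =>
    intro I hI hd
    have hfin := I.finite_minimalPrimes_of_isNoetherianRing
    -- the subspace of the linear forms in a prime
    let W : Ideal (MvPolynomial σ K) → Subspace K (σ → K) := fun P =>
      { carrier := {a | lin a ∈ P}
        add_mem' := by
          intro a b ha hb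
          have : lin (a + b) = lin a + lin b := by
            simp [lin, add_mul, Finset.sum_add_distrib]
          simp only [Set.mem_ofPred_eq, this]
          exact P.add_mem ha hb
        zero_mem' := by simp [lin]
        smul_mem' := by
          intro c a ha
          have : lin (c • a) = C c * lin a := by
            simp [lin, Finset.mul_sum, mul_assoc]
          simp only [Set.mem_ofPred_eq, this]
          exact P.mul_mem_left _ ha }
    let bad : Finset (Ideal (MvPolynomial σ K)) := hfin.toFinset.filter fun P => dm P = m + 1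
    have hW : (⊤ : Subspace K (σ → K)) ∉ bad.image W := by
      intro h
      obtain ⟨P, hP, hPtop⟩ := Finset.mem_image.1 h
      rw [Finset.mem_filter, Set.Finite.mem_toFinset] at hP
      have hPp : P.IsPrime := hP.1.1.1
      have h1 : irr K σ ≤ P := by
        have hX : ∀ i, (X i : MvPolynomial σ K) ∈ P := by
          intro i
          have h2 : (Pi.single i 1 : σ → K) ∈ W P := by rw [hPtop]; trivial
          have h3 : lin (Pi.single i 1 : σ → K) = (X i : MvPolynomial σ K) := by
            rw [lin, Finset.sum_eq_single i]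
            · simp
            · intro j _ hj; rw [Pi.single_eq_of_ne hj, map_zero, zero_mul]
            · intro h; exact absurd (Finset.mem_univ i) h
          have h4 : lin (Pi.single i 1 : σ → K) ∈ P := h2
          rwa [h3] at h4
        intro f hf
        rw [irr, RingHom.mem_ker] at hf
        have h5 : (Ideal.Quotient.mkₐ K P) f = algebraMap K _ (constantCoeff f) := by
          have h6 : Ideal.Quotient.mkₐ K P = aeval (fun _ => 0) := by
            apply algHom_ext
            intro i
            rw [aeval_X]
            exact Ideal.Quotient.eq_zero_iff_mem.2 (hX i)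
          rw [h6]
          exact aeval_zero' f
        rw [hf, map_zero] at h5
        exact Ideal.Quotient.eq_zero_iff_mem.1 h5
      have h2 := dm_le_of_le h1
      rw [dm_irr] at h2
      omega
    obtain ⟨a, ha⟩ := (Set.ne_univ_iff_exists_notMem _).1
      (Subspace.biUnion_ne_univ_of_top_notMem hW)
    have ha' : ∀ P ∈ I.minimalPrimes, dm P = m + 1 → lin a ∉ P := by
      intro P hP hdP hmem
      apply ha
      rw [Set.mem_iUnion₂]
      refine ⟨W P, Finset.mem_image_of_mem _ ?_, hmem⟩
      rw [Finset.mem_filter, Set.Finite.mem_toFinset]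
      exact ⟨hP, hdP⟩
    obtain ⟨ls, hls, h⟩ := ih (I ⊔ Ideal.span {lin a}) (hom_sup hI (lin_hom a)) (by
      intro P hP hle
      obtain ⟨P0, hP0, hP0P⟩ := Ideal.exists_minimalPrimes_le (le_sup_left.trans hle)
      have hP0p : P0.IsPrime := hP0.1.1
      have h1 := hd P0 hP0p hP0.1.2
      by_cases h2 : dm P0 = m + 1
      · have h3 : P0 < P := by
          refine lt_of_le_of_ne hP0P ?_
          rintro rfl
          exact ha' P0 hP0 h2 (hle (Ideal.mem_sup_right (Ideal.mem_span_singleton_self _)))
        have := dm_lt_of_lt h3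
        omega
      · have := dm_le_of_le hP0P
        omega)
    refine ⟨a :: ls, by simp [hls], ?_⟩
    intro v hv hvI
    refine h v (fun b hb => hv b (List.mem_cons_of_mem _ hb)) ?_
    intro p hp
    obtain ⟨q, hq⟩ := mem_sup_iff.1 hp
    have h1 := hvI _ hq
    rw [map_sub, map_mul, hv a List.mem_cons_self, zero_mul, sub_zero] at h1
    exact h1

/-- linear forms in front of a regular sequence may be removed -/
lemma reg_of_reg_lin (fs : List (MvPolynomial σ K)) (hfs : ∀ f ∈ fs, ∃ d, f.IsHomogeneous d) :
    ∀ ls : List (σ → K), Reg (⊥ : Ideal (MvPolynomial σ K)) (ls.map lin ++ fs) →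
      Reg (⊥ : Ideal (MvPolynomial σ K)) fs := by
  intro ls
  induction ls with
  | nil => intro h; simpa using h
  | cons a ls ih =>
    intro h
    apply ih
    rw [List.map_cons, List.cons_append] at h
    refine (reg_rotate (lin_hom a) (ls.map lin ++ fs) ⊥ hom_bot ?_ h).1
    intro f hf
    rw [List.mem_append] at hf
    rcases hf with hf | hf
    · obtain ⟨b, -, rfl⟩ := List.mem_map.1 hf
      exact ⟨1, lin_hom b⟩
    · exact hfs f hf

/-- **Regular sequences from dimensions.** -/
theorem reg_of_dim [IsAlgClosed K] (fs : List (MvPolynomial σ K))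
    (hfs : ∀ f ∈ fs, ∃ d, 0 < d ∧ f.IsHomogeneous d)
    (hd : ∀ P : Ideal (MvPolynomial σ K), P.IsPrime → (∀ f ∈ fs, f ∈ P) →
      dm P + fs.length ≤ Fintype.card σ) : Reg (⊥ : Ideal (MvPolynomial σ K)) fs := by
  classical
  have := IsAlgClosed.instInfinite (K := K)
  have hirr : ∀ f ∈ fs, f ∈ irr K σ := by
    intro f hf
    obtain ⟨d, hd0, hd⟩ := hfs f hf
    rw [irr, RingHom.mem_ker]
    exact hd.coeff_eq_zero (by simp; omega)
  have hlen : fs.length ≤ Fintype.card σ := by
    have := hd (irr K σ) inferInstance hirr
    omega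
  have hI : Hom (Ideal.span {f | f ∈ fs}) := hom_span fun f hf => by
    obtain ⟨d, -, hd⟩ := hfs f hf
    exact ⟨d, hd⟩
  obtain ⟨ls, hls, hv⟩ := exists_lins (Fintype.card σ - fs.length) (Ideal.span {f | f ∈ fs}) hI (by
    intro P hP hle
    have := hd P hP fun f hf => hle (Ideal.subset_span hf)
    omega)
  choose! deg hdeg using hfs
  apply reg_of_reg_lin fs (fun f hf => ⟨_, (hdeg f hf).2⟩) ls
  have h := (square (fs.map fun f => (f, deg f)) ls (by
    intro x hx
    obtain ⟨f, hf, rfl⟩ := List.mem_map.1 hx
    exact ⟨(hdeg f hf).2, (hdeg f hf).1⟩) (by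
    rw [List.length_map, hls]; omega) (by
    intro v h1 h2
    refine hv v h1 ?_
    have h3 : Ideal.span {f | f ∈ fs} ≤ RingHom.ker (eval v) := by
      rw [Ideal.span_le]
      intro f hf
      exact h2 (f, deg f) (List.mem_map.2 ⟨f, hf, rfl⟩)
    exact fun p hp => h3 hp)).1
  rwa [List.map_map, show (Prod.fst ∘ fun f => (f, deg f)) = id from rfl, List.map_id] at h

/-- **Nonzerodivisors from dimensions.** -/
theorem nz_of_dim [IsAlgClosed K] (fs : List (MvPolynomial σ K)) (h : MvPolynomial σ K)
    (hfs : ∀ f ∈ fs, ∃ d, 0 < d ∧ f.IsHomogeneous d) {e : ℕ} (he : 0 < e) (hh : h.IsHomogeneous e)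
    (hd : ∀ P : Ideal (MvPolynomial σ K), P.IsPrime → (∀ f ∈ fs, f ∈ P) → h ∈ P →
      dm P + fs.length + 1 ≤ Fintype.card σ) : NZ h (Ideal.span {f | f ∈ fs}) := by
  have h1 := reg_of_dim (fs ++ [h]) (by
    intro f hf
    rw [List.mem_append, List.mem_singleton] at hf
    rcases hf with hf | rfl
    · exact hfs f hf
    · exact ⟨e, he, hh⟩) (by
    intro P hP hle
    have := hd P hP (fun f hf => hle f (by simp [hf])) (hle h (by simp))
    simp only [List.length_append, List.length_singleton]
    omega)
  rw [reg_append] at h1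
  have h2 := h1.2.1
  have h3 : ∀ (fs : List (MvPolynomial σ K)) (I : Ideal (MvPolynomial σ K)),
      Pool.Agent.TH144.MB.ext I fs = I ⊔ Ideal.span {g | g ∈ fs} := by
    intro fs
    induction fs with
    | nil => intro I; simp [Pool.Agent.TH144.MB.ext]
    | cons f fs ih =>
      intro I
      rw [Pool.Agent.TH144.MB.ext, ih, sup_assoc, ← Ideal.span_union]
      congr 2
      ext g
      simp
  rwa [h3, bot_sup_eq] at h2

end Q37.Dim
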