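import Pool.Agent.Q37.Dim.Criterion

/-!
# Renaming of variables
-/

set_option autoImplicit false
set_option linter.unusedSectionVars false

open MvPolynomial

namespace Q37.Dim

variable {K : Type} [Field K]

section

variable {σ τ : Type} [Finite σ] [Finite τ]

/-- contraction to a polynomial ring in fewer variables, when the others vanish -/
lemma dm_le_comap_rename (g : τ → σ) (Q : Ideal (MvPolynomial σ K))
    (h : ∀ x, x ∈ Set.range g ∨ X x ∈ Q) :
    dm Q ≤ dm (Q.comap (rename g : MvPolynomial τ K →ₐ[K] MvPolynomial σ K)) := by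
  refine td_le_of_surjective (Ideal.quotientMapₐ Q (rename g : MvPolynomial τ K →ₐ[K] _) le_rfl) ?_
  intro a
  obtain ⟨p, rfl⟩ := Ideal.Quotient.mk_surjective a
  suffices h1 : ∃ p' : MvPolynomial τ K, rename g p' - p ∈ Q by
    obtain ⟨p', hp'⟩ := h1
    exact ⟨Ideal.Quotient.mk _ p', Ideal.Quotient.eq.2 hp'⟩
  induction p using MvPolynomial.induction_on with
  | C x => exact ⟨C x, by rw [rename_C, sub_self]; exact Q.zero_mem⟩
  | add f f' hf hf' =>
    obtain ⟨a, ha⟩ := hf
    obtain ⟨b, hb⟩ := hf'
    refine ⟨a + b, ?_⟩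
    rw [map_add, add_sub_add_comm]
    exact Q.add_mem ha hb
  | mul_X f x hf =>
    obtain ⟨a, ha⟩ := hf
    rcases h x with ⟨y, rfl⟩ | hx
    · refine ⟨a * X y, ?_⟩
      rw [map_mul, rename_X, ← sub_mul]
      exact Q.mul_mem_right _ ha
    · refine ⟨0, ?_⟩
      rw [map_zero, zero_sub]
      exact Q.neg_mem (Q.mul_mem_left _ hx)

lemma dm_comap_rename_equiv (E : τ ≃ σ) (Q : Ideal (MvPolynomial σ K)) :
    dm (Q.comap (rename E : MvPolynomial τ K →ₐ[K] MvPolynomial σ K)) = dm Q := by
  apply le_antisymm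
  · have h := td_le_of_injective
      (Ideal.quotientMapₐ Q (rename E : MvPolynomial τ K →ₐ[K] _) le_rfl)
      (Ideal.quotientMap_injective (I := Q))
    exact h
  · exact dm_le_comap_rename E Q fun x => Or.inl (E.surjective x)

end

section

variable {σ τ I J : Type} [Fintype σ] [Fintype τ] [Fintype I] [Fintype J]

lemma DB.transport {f : I → MvPolynomial σ K} {g : J → MvPolynomial τ K} (F : I ≃ J) (E : σ ≃ τ)
    (h : ∀ i, rename E (f i) = g (F i)) (hf : DB f) : DB g := by
  intro P hP hg
  have h1 := hf (P.comap (rename E : MvPolynomial σ K →ₐ[K] MvPolynomial τ K))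
    (Ideal.comap_isPrime _ _) fun i => by
      rw [Ideal.mem_comap, h]; exact hg _
  rw [dm_comap_rename_equiv, Fintype.card_congr F, Fintype.card_congr E] at h1
  exact h1

lemma DB.transport' {f : I → MvPolynomial σ K} {g : J → MvPolynomial τ K} (F : I ≃ J) (E : σ ≃ τ)
    (h : ∀ i, rename E (f i) = g (F i)) (hg : DB g) : DB f := by
  refine hg.transport F.symm E.symm fun j => ?_
  obtain ⟨i, rfl⟩ := F.surjective j
  rw [← h, rename_rename, Equiv.symm_comp_self, rename_id_apply, Equiv.symm_apply_apply]

lemma span_transport {f : I → MvPolynomial σ K} {g : J → MvPolynomial τ K} (F : I ≃ J)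
    (E : σ ≃ τ) (h : ∀ i, rename E (f i) = g (F i)) :
    (Ideal.span (Set.range f)).map (renameEquiv K E) = Ideal.span (Set.range g) := by
  rw [Ideal.map_span]
  congr 1
  rw [← Set.range_comp, ← F.surjective.range_comp g]
  congr 1
  funext i
  exact h i

lemma prime_transport {f : I → MvPolynomial σ K} {g : J → MvPolynomial τ K} (F : I ≃ J)
    (E : σ ≃ τ) (h : ∀ i, rename E (f i) = g (F i)) (hf : (Ideal.span (Set.range f)).IsPrime) :
    (Ideal.span (Set.range g)).IsPrime := by
  rw [← span_transport F E h]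
  exact Ideal.map_isPrime_of_equiv (renameEquiv K E)

lemma prime_transport' {f : I → MvPolynomial σ K} {g : J → MvPolynomial τ K} (F : I ≃ J)
    (E : σ ≃ τ) (h : ∀ i, rename E (f i) = g (F i)) (hg : (Ideal.span (Set.range g)).IsPrime) :
    (Ideal.span (Set.range f)).IsPrime := by
  refine prime_transport F.symm E.symm (fun j => ?_) hg
  obtain ⟨i, rfl⟩ := F.surjective j
  rw [← h, rename_rename, Equiv.symm_comp_self, rename_id_apply, Equiv.symm_apply_apply]

end

section

variable {T : Type} [CommRing T] {s ι : Type}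

lemma not_Mi_of_card_lt' {M : Matrix s ι T} {p : Ideal T} {ρ : ℕ} [Fintype ι]
    (h : Fintype.card ι < ρ) : ¬ Mi M p ρ := by
  rintro ⟨r, c, hrc⟩
  apply hrc
  have : ¬ Function.Injective c := fun hr => by
    have := Fintype.card_le_of_injective c hr
    rw [Fintype.card_fin] at this
    omega
  rw [Function.Injective] at this
  push Not at this
  obtain ⟨i, j, hij, hne⟩ := this
  rw [Matrix.det_zero_of_column_eq hne (by intro k; simp [hij])]
  exact p.zero_mem

lemma row_injective_of_det {M : Matrix s ι T} {p : Ideal T} {ρ : ℕ} {r : Fin ρ → s}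
    {c : Fin ρ → ι} (h : (M.submatrix r c).det ∉ p) : Function.Injective r := by
  by_contra hcon
  rw [Function.Injective] at hcon
  push Not at hcon
  obtain ⟨i, j, hij, hne⟩ := hcon
  apply h
  rw [Matrix.det_zero_of_row_eq hne (by ext k; simp [hij])]
  exact p.zero_mem

end

section

variable {ι τ s I : Type} [Fintype ι] [Fintype τ] [Fintype s] [Fintype I]

/-- the bound on the base given by a bound for the joint system -/
lemma base_bound {f : I → MvPolynomial τ K} {M : Matrix s ι (MvPolynomial τ K)}
    (h : DB (jn f M)) {p : Ideal (MvPolynomial τ K)} [p.IsPrime] (hp : ∀ i, f i ∈ p) {ρ : ℕ}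
    (hρ : ¬ Mi M p (ρ + 1)) :
    dm p + Fintype.card s + Fintype.card I ≤ Fintype.card τ + ρ := by
  obtain ⟨P, hP, hdn, hlf, hd⟩ := exists_prime_of_not_Mi p M hρ
  have h1 := h P hP (by
    rintro (i | k)
    · have : f i ∈ dn P := by rw [hdn]; exact hp i
      exact this
    · exact hlf k)
  rw [Fintype.card_sum, Fintype.card_sum] at h1
  omega

/-- the base has the expected codimension -/
lemma db_base {f : I → MvPolynomial τ K} {M : Matrix s ι (MvPolynomial τ K)}
    (h : DB (jn f M)) : DB f := by
  intro p hp hfp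
  have := base_bound h (p := p) hfp (ρ := Fintype.card s) (not_Mi_of_card_lt (Nat.lt_succ_self _))
  omega

lemma card_rows_le {f : I → MvPolynomial τ K} {M : Matrix s ι (MvPolynomial τ K)}
    (h : DB (jn f M)) (hf : ∀ i, ∃ d, 0 < d ∧ (f i).IsHomogeneous d) :
    Fintype.card s ≤ Fintype.card ι := by
  classical
  obtain ⟨Q, hQp, -, hsQ, -, hd⟩ := exists_prime_of_finset (Finset.univ.image f) ⊥ (irr K τ)
    bot_le (by
      intro x hx
      obtain ⟨i, -, rfl⟩ := Finset.mem_image.1 hx
      obtain ⟨d, hd0, hd⟩ := hf i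
      rw [irr, RingHom.mem_ker]
      exact hd.coeff_eq_zero (by simp; omega))
  have h1 := base_bound h (p := Q) (fun i => hsQ _ (Finset.mem_image_of_mem _ (Finset.mem_univ i)))
    (ρ := Fintype.card ι) (not_Mi_of_card_lt' (Nat.lt_succ_self _))
  rw [dm_bot, Nat.card_eq_fintype_card] at hd
  have h2 : (Finset.univ.image f).card ≤ Fintype.card I :=
    Finset.card_image_le.trans (by rw [Finset.card_univ])
  omega

/-- the contraction of the joint ideal -/
lemma dn_jn {f : I → MvPolynomial τ K} {M : Matrix s ι (MvPolynomial τ K)} :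
    dn (Ideal.span (Set.range (jn f M))) = Ideal.span (Set.range f) := by
  apply le_antisymm
  · intro a ha
    have h1 : Ideal.span (Set.range (jn f M)) ≤
        (Ideal.span (Set.range f)).comap (zer K ι τ) := by
      rw [Ideal.span_le]
      rintro _ ⟨i | k, rfl⟩
      · change zer K ι τ (incl K ι τ (f i)) ∈ Ideal.span (Set.range f)
        rw [zer_incl]
        exact Ideal.subset_span ⟨i, rfl⟩
      · change zer K ι τ (lf M k) ∈ Ideal.span (Set.range f)
        rw [lf, map_sum]
        refine Ideal.sum_mem _ fun j _ => ?_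
        rw [map_mul, zer_inl, mul_zero]
        exact Ideal.zero_mem _
    have h2 := h1 ha
    rwa [Ideal.mem_comap, zer_incl] at h2
  · rw [Ideal.span_le]
    rintro _ ⟨i, rfl⟩
    exact Ideal.subset_span ⟨Sum.inl i, rfl⟩

end

end Q37.Dim
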